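import Pool.Agent.CEX.Defs
import Pool.Agent.PTR.Closed

/-!
# The boxes of the body are nondegenerate, the body is not convex
-/

set_option autoImplicit false
set_option linter.constructorNameAsVariable false

namespace Pool.Agent.CEXD

open Pool.Agent.PTR

theorem cutb_bd {d : ℝ} (h1 : 47 / 100 < d) (h2 : d < 48 / 100) {n : ℤ} (hn : 0 ≤ n)
    (hn2 : n < 44100) : 0 < cut d n ∧ cut d n < 1 := by
  have hn0 : (0 : ℝ) ≤ n := by exact_mod_cast hn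
  have hn1 : (n : ℝ) < 44100 := by exact_mod_cast hn2
  unfold cut
  constructor
  · positivity
  · have : d * n ≤ 48 / 100 * n := mul_le_mul_of_nonneg_right h2.le hn0
    linarith

theorem tb_nondeg {A : ℤ} {c s t : ℝ} (h0 : 0 < c) (h1 : c < 1) (hs : s < t) :
    ∀ q ∈ tb A c s t, q.1.1 < q.1.2 ∧ q.2.1 < q.2.2 := by
  intro q hq
  unfold tb at hq
  rw [Finset.mem_insert, Finset.mem_singleton] at hq
  rcases hq with rfl | rfl
  · exact ⟨by change (A : ℝ) < A + c; linarith, hs⟩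
  · exact ⟨by change (A : ℝ) + 14 + c < A + 15; linarith, hs⟩

theorem strips_nondeg : ∀ q ∈ strips, q.1.1 < q.1.2 ∧ q.2.1 < q.2.2 := by
  intro q hq
  unfold strips at hq
  simp only [Finset.mem_union] at hq
  rcases hq with (((hq | hq) | hq) | hq) | hq <;>
    exact tb_nondeg (by norm_num) (by norm_num) (by norm_num) q hq

theorem sides_nondeg {d : ℝ} (h1 : 47 / 100 < d) (h2 : d < 48 / 100) :
    ∀ q ∈ sides d, q.1.1 < q.1.2 ∧ q.2.1 < q.2.2 ∧ 0 < q.2.1 := by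
  intro q hq
  unfold sides at hq
  simp only [Finset.mem_insert, Finset.mem_singleton] at hq
  rcases hq with rfl | rfl | rfl | rfl | rfl | rfl | rfl | rfl | rfl | rfl | rfl | rfl | rfl |
    rfl | rfl | rfl <;> refine ⟨?_, ?_, ?_⟩ <;> simp only <;> linarith

theorem bumps_nondeg (d : ℝ) :
    ∀ q ∈ bumps d, q.1.1 < q.1.2 ∧ q.2.1 < q.2.2 ∧ (q.2.2 < 0 ∨ 0 < q.2.1) := by
  intro q hq
  unfold bumps at hq
  rw [Finset.mem_image] at hq
  obtain ⟨⟨k, c⟩, -, rfl⟩ := hq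
  fin_cases k <;> cases c <;>
    norm_num [kb, bmp, bp, al, be, wd]

theorem mem_BB {d : ℝ} {q : Box} : q ∈ BB d ↔
    (∃ n : ℤ, ((0 ≤ n ∧ n < 44100) ∧ n ≠ 0 ∧ La n) ∧ q ∈ tb (Aa n) (cut d n) n (n + 1 / 2)) ∨
    (∃ n : ℤ, ((0 ≤ n ∧ n < 44100) ∧ Lb n) ∧
      q ∈ tb (Ab n) (cut d n) (n + 1 / 2) (n + 1)) ∨
    q ∈ strips ∨ q ∈ sides d ∨ q ∈ bumps d := by
  simp only [BB, Finset.mem_union, Finset.mem_biUnion, Finset.mem_filter, Finset.mem_Ico,
    or_assoc]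

attribute [local irreducible] BB

theorem BB_nondeg {d : ℝ} (h1 : 47 / 100 < d) (h2 : d < 48 / 100) :
    ∀ q ∈ BB d, q.1.1 < q.1.2 ∧ q.2.1 < q.2.2 := by
  intro q hq
  rw [mem_BB] at hq
  rcases hq with ⟨n, hn, hq⟩ | ⟨n, hn, hq⟩ | hq | hq | hq
  · obtain ⟨c0, c1⟩ := cutb_bd h1 h2 hn.1.1 hn.1.2
    exact tb_nondeg c0 c1 (by linarith) q hq
  · obtain ⟨c0, c1⟩ := cutb_bd h1 h2 hn.1.1 hn.1.2
    exact tb_nondeg c0 c1 (by linarith) q hq
  · exact strips_nondeg q hq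
  · exact ⟨(sides_nondeg h1 h2 q hq).1, (sides_nondeg h1 h2 q hq).2.1⟩
  · exact ⟨(bumps_nondeg d q hq).1, (bumps_nondeg d q hq).2.1⟩

theorem tb_fst {A : ℤ} {c s t : ℝ} : ∀ q ∈ tb A c s t, q.2.1 = s := by
  intro q hq
  unfold tb at hq
  rw [Finset.mem_insert, Finset.mem_singleton] at hq
  rcases hq with rfl | rfl <;> rfl

theorem strip0 {d : ℝ} {q : Box} (hq : q ∈ tb 0 (1 / 4) 0 (1 / 20)) : q ∈ BB d := by
  rw [mem_BB]
  right; right; left
  unfold strips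
  exact Finset.mem_union_left _ (Finset.mem_union_left _ (Finset.mem_union_left _
    (Finset.mem_union_left _ hq)))

theorem tb_x {A : ℤ} {c s t x : ℝ} (hA : A = 0) (hc : c = 1 / 4) (h : 1 < x) (h' : x < 14) :
    ∀ q ∈ tb A c s t, q.1.1 ≤ x → x ≤ q.1.2 → False := by
  intro q hq
  subst hA hc
  unfold tb at hq
  rw [Finset.mem_insert, Finset.mem_singleton] at hq
  rcases hq with rfl | rfl
  · intro a b
    simp only [Int.cast_zero] at a b
    linarith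
  · intro a b
    simp only [Int.cast_zero] at a b
    linarith

theorem mem_cb {B : Finset Box} {z : ℝ × ℝ} : z ∈ cbody B ↔
    ∃ b ∈ B, b.1.1 ≤ z.1 ∧ z.1 ≤ b.1.2 ∧ b.2.1 ≤ z.2 ∧ z.2 ≤ b.2.2 := Iff.rfl

theorem mem_cb_of {B : Finset Box} {z : ℝ × ℝ} (b : Box) (hb : b ∈ B) (h1 : b.1.1 ≤ z.1)
    (h2 : z.1 ≤ b.1.2) (h3 : b.2.1 ≤ z.2) (h4 : z.2 ≤ b.2.2) : z ∈ cbody B :=
  ⟨b, hb, h1, h2, h3, h4⟩

theorem BB_not_convex {d : ℝ} (h1 : 47 / 100 < d) (h2 : d < 48 / 100) :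
    ¬ Convex ℝ (cbody (BB d)) := by
  intro hc
  have p1 : ((0, 0) : ℝ × ℝ) ∈ cbody (BB d) := by
    have hb : ((((0 : ℤ) : ℝ), ((0 : ℤ) : ℝ) + 1 / 4), ((0 : ℝ), (1 / 20 : ℝ))) ∈ BB d := by
      refine strip0 ?_
      unfold tb
      exact Finset.mem_insert_self _ _
    exact mem_cb_of _ hb (by norm_num) (by norm_num) (by norm_num) (by norm_num)
  have p2 : ((15, 0) : ℝ × ℝ) ∈ cbody (BB d) := by
    have hb : ((((0 : ℤ) : ℝ) + 14 + 1 / 4, ((0 : ℤ) : ℝ) + 15), ((0 : ℝ), (1 / 20 : ℝ))) ∈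
        BB d := by
      refine strip0 ?_
      unfold tb
      exact Finset.mem_insert_of_mem (Finset.mem_singleton_self _)
    exact mem_cb_of _ hb (by norm_num) (by norm_num) (by norm_num) (by norm_num)
  have p3 := hc p1 p2 (a := 1 / 2) (b := 1 / 2) (by norm_num) (by norm_num) (by norm_num)
  rw [mem_cb] at p3
  obtain ⟨q, hq, hx1, hx2, hy1, hy2⟩ := p3
  have ex : ((1 / 2 : ℝ) • ((0, 0) : ℝ × ℝ) + (1 / 2 : ℝ) • ((15, 0) : ℝ × ℝ)).1 = 15 / 2 := by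
    simp only [Prod.fst_add, Prod.smul_fst, smul_eq_mul]
    norm_num
  have ey : ((1 / 2 : ℝ) • ((0, 0) : ℝ × ℝ) + (1 / 2 : ℝ) • ((15, 0) : ℝ × ℝ)).2 = 0 := by
    simp only [Prod.snd_add, Prod.smul_snd, smul_eq_mul]
    norm_num
  rw [ex] at hx1 hx2
  rw [ey] at hy1 hy2
  rw [mem_BB] at hq
  rcases hq with ⟨n, hn, hq⟩ | ⟨n, hn, hq⟩ | hq | hq | hq
  · have e := tb_fst q hq
    have h3 : (1 : ℤ) ≤ n := by
      have h4 := hn.1.1
      have h5 := hn.2.1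
      omega
    have h6 : (1 : ℝ) ≤ n := by exact_mod_cast h3
    linarith
  · have e := tb_fst q hq
    have h6 : (0 : ℝ) ≤ n := by exact_mod_cast hn.1.1
    linarith
  · unfold strips at hq
    simp only [Finset.mem_union] at hq
    rcases hq with (((hq | hq) | hq) | hq) | hq <;>
      exact tb_x rfl rfl (by norm_num) (by norm_num) q hq hx1 hx2
  · have := (sides_nondeg h1 h2 q hq).2.2
    linarith
  · rcases (bumps_nondeg d q hq).2.2 with h | h <;> linarith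

end Pool.Agent.CEXD
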