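import Pool.Agent.CEX.Defs

/-!
# CEX: holes and bumps cancel
-/

set_option autoImplicit false

namespace Pool.Agent.CEX

open Pool.Agent.PTR (ECov)
open Pool.Agent.CEXD (box)

/-- The tiles which cover `p`. -/
def cov (T S : Set (ℝ × ℝ)) (p : ℝ × ℝ) : Set (ℝ × ℝ) := {t | t ∈ T ∧ p - t ∈ S}

theorem ecov_iff {S T : Set (ℝ × ℝ)} : ECov S T ↔ ∀ p, (cov T S p).encard = 1 := by
  unfold ECov
  refine forall_congr' fun p => ?_
  rw [Set.encard_eq_one]
  constructor
  · rintro ⟨t, ht, hu⟩
    refine ⟨t, ?_⟩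
    ext s
    constructor
    · intro hs
      exact hu s hs
    · rintro rfl
      exact ht
  · rintro ⟨t, ht⟩
    refine ⟨t, ?_, ?_⟩
    · have : t ∈ cov T S p := by rw [ht]; rfl
      exact this
    · intro s hs
      have : s ∈ cov T S p := hs
      rw [ht] at this
      exact this

theorem cov_union {S S' T : Set (ℝ × ℝ)} (h : Disjoint S S') (p : ℝ × ℝ) :
    (cov T (S ∪ S') p).encard = (cov T S p).encard + (cov T S' p).encard := by
  have h1 : cov T (S ∪ S') p = cov T S p ∪ cov T S' p := by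
    ext t
    simp only [cov, Set.mem_ofPred_eq, Set.mem_union]
    tauto
  rw [h1, Set.encard_union_eq]
  rw [Set.disjoint_left]
  intro t h2 h3
  exact Set.disjoint_left.1 h h2.2 h3.2

theorem cov_box (T : Set (ℝ × ℝ)) (z p : ℝ × ℝ) (w e : ℝ) :
    (cov T (box z w e) p).encard = {x | x - z ∈ T ∧ p - x ∈ box 0 w e}.encard := by
  have h1 : {x | x - z ∈ T ∧ p - x ∈ box 0 w e} = (fun t => t + z) '' cov T (box z w e) p := by
    ext x
    simp only [cov, box, Set.mem_ofPred_eq, Set.mem_image, Prod.fst_sub, Prod.snd_sub,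
      Prod.fst_zero, Prod.snd_zero, zero_add]
    constructor
    · rintro ⟨hx, h2, h3, h4, h5⟩
      refine ⟨x - z, ⟨hx, ?_, ?_, ?_, ?_⟩, sub_add_cancel _ _⟩
      · simp only [Prod.fst_sub]; linarith
      · simp only [Prod.fst_sub]; linarith
      · simp only [Prod.snd_sub]; linarith
      · simp only [Prod.snd_sub]; linarith
    · rintro ⟨t, ⟨ht, h2, h3, h4, h5⟩, rfl⟩
      refine ⟨by rwa [add_sub_cancel_right], ?_, ?_, ?_, ?_⟩
      · simp only [Prod.fst_add]; linarith
      · simp only [Prod.fst_add]; linarith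
      · simp only [Prod.snd_add]; linarith
      · simp only [Prod.snd_add]; linarith
  rw [h1]
  exact ((add_left_injective z).encard_image _).symm

/-- The relation for one key gives the same number of covering holes and bumps. -/
theorem cov_pair {T : Set (ℝ × ℝ)} {a b c d : ℝ × ℝ} {w e : ℝ}
    (hU : ∀ x, (x - a ∈ T ∨ x - b ∈ T) ↔ (x - c ∈ T ∨ x - d ∈ T))
    (hI : ∀ x, (x - a ∈ T ∧ x - b ∈ T) ↔ (x - c ∈ T ∧ x - d ∈ T)) (p : ℝ × ℝ) :
    (cov T (box a w e) p).encard + (cov T (box b w e) p).encard =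
      (cov T (box c w e) p).encard + (cov T (box d w e) p).encard := by
  simp only [cov_box]
  rw [← Set.encard_union_add_encard_inter, ← Set.encard_union_add_encard_inter
    {x | x - c ∈ T ∧ p - x ∈ box 0 w e}]
  congr 2
  · ext x
    simp only [Set.mem_union, Set.mem_ofPred_eq]
    have := hU x
    tauto
  · ext x
    simp only [Set.mem_inter_iff, Set.mem_ofPred_eq]
    have := hI x
    tauto

variable {K : Type} [Fintype K]

/-- The union of the boxes. -/
def boxes (w : K → ℝ) (e : ℝ) (z : K → Bool → ℝ × ℝ) : Set (ℝ × ℝ) :=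
  ⋃ k, ⋃ c, box (z k c) (w k) e

theorem cov_boxes {T : Set (ℝ × ℝ)} {w : K → ℝ} {e : ℝ} {z : K → Bool → ℝ × ℝ}
    (hd : ∀ k c k' c', (k, c) ≠ (k', c') → Disjoint (box (z k c) (w k) e) (box (z k' c') (w k') e))
    (p : ℝ × ℝ) :
    (cov T (boxes w e z) p).encard =
      ∑ k, ((cov T (box (z k false) (w k) e) p).encard +
        (cov T (box (z k true) (w k) e) p).encard) := by
  classical
  have key : ∀ s : Finset K, (cov T (⋃ k ∈ s, ⋃ c, box (z k c) (w k) e) p).encard =
      ∑ k ∈ s, ((cov T (box (z k false) (w k) e) p).encard +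
        (cov T (box (z k true) (w k) e) p).encard) := by
    intro s
    induction s using Finset.induction_on with
    | empty => simp [cov]
    | insert k s hk ih =>
      rw [Finset.sum_insert hk, ← ih, Finset.set_biUnion_insert]
      have h1 : (⋃ c, box (z k c) (w k) e) = box (z k false) (w k) e ∪ box (z k true) (w k) e := by
        ext x
        simp only [Set.mem_iUnion, Bool.exists_bool, Set.mem_union]
      rw [cov_union, h1, cov_union]
      · exact hd _ _ _ _ (by simp)
      · rw [Set.disjoint_left]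
        intro x hx hx'
        simp only [Set.mem_iUnion] at hx hx'
        obtain ⟨c, hx⟩ := hx
        obtain ⟨k', hk', c', hx'⟩ := hx'
        refine Set.disjoint_left.1 (hd k c k' c' ?_) hx hx'
        rintro h
        rw [Prod.mk.injEq] at h
        rw [h.1] at hk
        exact hk hk'
  have := key Finset.univ
  simpa [boxes] using this

/-- **Cancellation.** `Db` is the base body, `D` the body with the holes and the bumps. -/
theorem ecov_cancel {T Db D : Set (ℝ × ℝ)} {w : K → ℝ} {e : ℝ} {hol bmp : K → Bool → ℝ × ℝ}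
    (hD : D = (Db \ boxes w e hol) ∪ boxes w e bmp)
    (hH : ∀ k c, box (hol k c) (w k) e ⊆ Db)
    (hB : ∀ k c, Disjoint (box (bmp k c) (w k) e) Db)
    (dH : ∀ k c k' c', (k, c) ≠ (k', c') →
      Disjoint (box (hol k c) (w k) e) (box (hol k' c') (w k') e))
    (dB : ∀ k c k' c', (k, c) ≠ (k', c') →
      Disjoint (box (bmp k c) (w k) e) (box (bmp k' c') (w k') e))
    (hU : ∀ k x, (x - hol k false ∈ T ∨ x - hol k true ∈ T) ↔
      (x - bmp k false ∈ T ∨ x - bmp k true ∈ T))
    (hI : ∀ k x, (x - hol k false ∈ T ∧ x - hol k true ∈ T) ↔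
      (x - bmp k false ∈ T ∧ x - bmp k true ∈ T)) : ECov D T ↔ ECov Db T := by
  rw [ecov_iff, ecov_iff]
  refine forall_congr' fun p => ?_
  have hsub : boxes w e hol ⊆ Db := Set.iUnion_subset fun k => Set.iUnion_subset fun c => hH k c
  have hdis : Disjoint (boxes w e bmp) Db := by
    rw [Set.disjoint_left]
    intro x hx hx'
    simp only [boxes, Set.mem_iUnion] at hx
    obtain ⟨k, c, hx⟩ := hx
    exact Set.disjoint_left.1 (hB k c) hx hx'
  have e1 : (cov T D p).encard =
      (cov T (Db \ boxes w e hol) p).encard + (cov T (boxes w e bmp) p).encard := by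
    rw [hD, cov_union]
    rw [Set.disjoint_left]
    intro x hx hx'
    exact Set.disjoint_left.1 hdis hx' hx.1
  have e2 : (cov T Db p).encard =
      (cov T (Db \ boxes w e hol) p).encard + (cov T (boxes w e hol) p).encard := by
    rw [← cov_union, Set.sdiff_union_of_subset hsub]
    exact Set.disjoint_sdiff_left
  have e3 : (cov T (boxes w e hol) p).encard = (cov T (boxes w e bmp) p).encard := by
    rw [cov_boxes dH, cov_boxes dB]
    exact Finset.sum_congr rfl fun k _ => cov_pair (hU k) (hI k) p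
  rw [e1, e2, e3]

/-- The same with the vectors of the keys: the holes are at `a + al` and `a + be`, the bumps at `a`
and `a + al + be`. -/
theorem ecov_cancel' {T Db D : Set (ℝ × ℝ)} {w : K → ℝ} {e : ℝ} {a al be : K → ℝ × ℝ}
    {hol bmp : K → Bool → ℝ × ℝ}
    (hh0 : ∀ k, hol k false = a k + al k) (hh1 : ∀ k, hol k true = a k + be k)
    (hb0 : ∀ k, bmp k false = a k) (hb1 : ∀ k, bmp k true = a k + al k + be k)
    (hD : D = (Db \ boxes w e hol) ∪ boxes w e bmp)
    (hH : ∀ k c, box (hol k c) (w k) e ⊆ Db)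
    (hB : ∀ k c, Disjoint (box (bmp k c) (w k) e) Db)
    (dH : ∀ k c k' c', (k, c) ≠ (k', c') →
      Disjoint (box (hol k c) (w k) e) (box (hol k' c') (w k') e))
    (dB : ∀ k c k' c', (k, c) ≠ (k', c') →
      Disjoint (box (bmp k c) (w k) e) (box (bmp k' c') (w k') e))
    (hU : ∀ k x, (x ∈ T ∨ x - al k - be k ∈ T) ↔ (x - al k ∈ T ∨ x - be k ∈ T))
    (h1 : ∀ k x, x ∈ T → x - al k - be k ∈ T → False)
    (h2 : ∀ k x, x - al k ∈ T → x - be k ∈ T → False) : ECov D T ↔ ECov Db T := by
  have e1 : ∀ k x, x - (a k + al k) = x - a k - al k := fun k x => by abel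
  have e2 : ∀ k x, x - (a k + be k) = x - a k - be k := fun k x => by abel
  have e3 : ∀ k x, x - (a k + al k + be k) = x - a k - al k - be k := fun k x => by abel
  refine ecov_cancel hD hH hB dH dB ?_ ?_
  · intro k x
    rw [hh0, hh1, hb0, hb1, e1, e2, e3]
    exact (hU k (x - a k)).symm
  · intro k x
    rw [hh0, hh1, hb0, hb1, e1, e2, e3]
    constructor
    · rintro ⟨h3, h4⟩
      exact (h2 k (x - a k) h3 h4).elim
    · rintro ⟨h3, h4⟩
      exact (h1 k (x - a k) h3 h4).elim

end Pool.Agent.CEX
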