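import Pool.Agent.CEX.Per

/-!
# CEX: a doubly periodic tiling is invariant under one of the two groups
-/

set_option autoImplicit false

namespace Pool.Agent.CEX

open Pool.Agent.PTR.OL (V)
open Pool.Agent

/-- The relation of a key. -/
def Rl (T : Set V) (al be : V) : Prop :=
  (∀ x, (x ∈ T ∨ x - al - be ∈ T) ↔ (x - al ∈ T ∨ x - be ∈ T)) ∧
    (∀ x, x ∈ T → x - al - be ∈ T → False) ∧ ∀ x, x - al ∈ T → x - be ∈ T → False

/-- The indicator function with values in `ℤ`. -/
noncomputable def one (T : Set V) (x : V) : ℤ := by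
  classical
  exact if x ∈ T then 1 else 0

theorem one_mem {T : Set V} {x : V} (h : x ∈ T) : one T x = 1 := by
  unfold one
  rw [if_pos h]

theorem one_not {T : Set V} {x : V} (h : x ∉ T) : one T x = 0 := by
  unfold one
  rw [if_neg h]

theorem one_iff {T : Set V} {x : V} : one T x = 1 ↔ x ∈ T := by
  by_cases h : x ∈ T
  · simp [one_mem h, h]
  · simp [one_not h, h]

theorem one_nonneg (T : Set V) (x : V) : 0 ≤ one T x := by
  by_cases h : x ∈ T
  · rw [one_mem h]; norm_num
  · rw [one_not h]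

/-- The relation of a key with integers. -/
theorem Rl.eq {T : Set V} {al be : V} (h : Rl T al be) (x : V) :
    one T x + one T (x - al - be) = one T (x - al) + one T (x - be) := by
  obtain ⟨h1, h2, h3⟩ := h
  have a1 := h1 x
  have a2 := h2 x
  have a3 := h3 x
  by_cases b1 : x ∈ T <;> by_cases b2 : x - al - be ∈ T <;> by_cases b3 : x - al ∈ T <;>
    by_cases b4 : x - be ∈ T <;> simp only [b1, b2, b3, b4, true_or, or_true, false_or, or_false,
      true_iff, iff_true, false_iff, iff_false, not_true, not_false_iff, imp_false, or_self,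
      true_implies, false_implies, iff_self, not_false_eq_true, not_true_eq_false] at a1 a2 a3 <;>
    simp only [one_mem, one_not, b1, b2, b3, b4, not_false_iff, not_false_eq_true] <;> norm_num

/-- The group of the `a` with `f (x - a) = f x`. -/
def inv (f : V → ℤ) : AddSubgroup V where
  carrier := {a | ∀ x, f (x - a) = f x}
  zero_mem' := by intro x; rw [sub_zero]
  add_mem' := by
    intro a b ha hb x
    rw [← sub_sub]
    exact (hb (x - a)).trans (ha x)
  neg_mem' := by
    intro a ha x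
    have := ha (x - -a)
    rw [sub_neg_eq_add, add_sub_cancel_right] at this
    rw [sub_neg_eq_add]
    exact this.symm

theorem mem_inv {f : V → ℤ} {a : V} : a ∈ inv f ↔ ∀ x, f (x - a) = f x := Iff.rfl

/-- The relation for all elements of the two groups. -/
theorem rel_all {T : Set V} {a1 a2 b1 b2 : V} (h11 : Rl T a1 b1) (h12 : Rl T a1 b2)
    (h21 : Rl T a2 b1) (h22 : Rl T a2 b2) {a b : V} (ha : a ∈ lat a1 a2) (hb : b ∈ lat b1 b2)
    (x : V) : one T x + one T (x - a - b) = one T (x - a) + one T (x - b) := by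
  have step : ∀ b' : V, (b' = b1 ∨ b' = b2) → lat a1 a2 ≤ inv (fun x => one T x - one T (x - b'))
      := by
    intro b' hb'
    unfold lat
    rw [AddSubgroup.closure_le]
    have key : ∀ a', Rl T a' b' → a' ∈ inv (fun x => one T x - one T (x - b')) := by
      intro a' h x
      have := h.eq x
      change one T (x - a') - one T (x - a' - b') = one T x - one T (x - b')
      linarith
    rintro y (rfl | rfl)
    · rcases hb' with rfl | rfl
      · exact key _ h11
      · exact key _ h12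
    · rcases hb' with rfl | rfl
      · exact key _ h21
      · exact key _ h22
  have step2 : lat b1 b2 ≤ inv (fun x => one T x - one T (x - a)) := by
    unfold lat
    rw [AddSubgroup.closure_le]
    have key : ∀ b', (b' = b1 ∨ b' = b2) → b' ∈ inv (fun x => one T x - one T (x - a)) := by
      intro b' hb' x
      have := step b' hb' ha x
      change one T (x - a) - one T (x - a - b') = one T x - one T (x - b') at this
      change one T (x - b') - one T (x - b' - a) = one T x - one T (x - a)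
      rw [sub_right_comm x b' a]
      linarith
    rintro y (rfl | rfl)
    · exact key _ (Or.inl rfl)
    · exact key _ (Or.inr rfl)
  have := step2 hb x
  change one T (x - b) - one T (x - b - a) = one T x - one T (x - a) at this
  rw [sub_right_comm x b a] at this
  linarith

/-- **N3.** Every tile is of one of the two types. -/
theorem N3 {T : Set V} {a1 a2 b1 b2 : V} (h11 : Rl T a1 b1) (h12 : Rl T a1 b2)
    (h21 : Rl T a2 b1) (h22 : Rl T a2 b2) {t : V} (ht : t ∈ T) :
    (∀ a ∈ lat a1 a2, t + a ∈ T) ∨ (∀ b ∈ lat b1 b2, t + b ∈ T) := by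
  by_contra hcon
  push Not at hcon
  obtain ⟨⟨a, ha, ha'⟩, ⟨b, hb, hb'⟩⟩ := hcon
  have := rel_all h11 h12 h21 h22 (neg_mem ha) (neg_mem hb) t
  rw [sub_neg_eq_add, sub_neg_eq_add, sub_neg_eq_add, one_mem ht, one_not ha', one_not hb']
    at this
  have h0 := one_nonneg T (t + a + b)
  linarith

/-- **The dichotomy for periodic tilings.** -/
theorem noPer {T : Set V} (hF : LF T) (hp : PSQ.Periodic T) {p q d g : ℝ} (hp0 : p ≠ 0)
    (hq : ∀ r : ℚ, d / p ≠ r)
    (h11 : Rl T (0, g) (d, g)) (h12 : Rl T (0, g) (d - q, g))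
    (h21 : Rl T (-p, g) (d, g)) (h22 : Rl T (-p, g) (d - q, g)) :
    ((p, 0) ∈ stab T ∧ ((0, g) : V) ∈ stab T) ∨
      ((q, 0) ∈ stab T ∧ ((d, g) : V) ∈ stab T) := by
  have hA1 : ((0, g) : V) ∈ lat (0, g) (-p, g) := mem_lat.2 ⟨1, 0, by simp⟩
  have hA2 : ((p, 0) : V) ∈ lat (0, g) (-p, g) := mem_lat.2 ⟨1, -1, by simp⟩
  have hB1 : ((d, g) : V) ∈ lat (d, g) (d - q, g) := mem_lat.2 ⟨1, 0, by simp⟩
  have hB2 : ((q, 0) : V) ∈ lat (d, g) (d - q, g) := mem_lat.2 ⟨1, -1, by simp⟩
  have up : ∀ (H : AddSubgroup V), (∀ t ∈ T, ∀ a ∈ H, t + a ∈ T) → ∀ a ∈ H, a ∈ stab T := by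
    intro H h a ha x
    constructor
    · intro hx
      have := h _ hx (-a) (neg_mem ha)
      rwa [add_neg_cancel_right] at this
    · intro hx
      exact h x hx a ha
  by_cases hall : ∀ t ∈ T, ∀ a ∈ lat (0, g) (-p, g), t + a ∈ T
  · exact Or.inl ⟨up _ hall _ hA2, up _ hall _ hA1⟩
  by_cases hall2 : ∀ t ∈ T, ∀ b ∈ lat (d, g) (d - q, g), t + b ∈ T
  · exact Or.inr ⟨up _ hall2 _ hB2, up _ hall2 _ hB1⟩
  exfalso
  push Not at hall hall2
  obtain ⟨t1, ht1, a, ha, ha'⟩ := hall
  obtain ⟨t0, ht0, b, hb, hb'⟩ := hall2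
  have c1 : ∀ b ∈ lat (d, g) (d - q, g), t1 + b ∈ T := by
    rcases N3 h11 h12 h21 h22 ht1 with h | h
    · exact absurd (h a ha) ha'
    · exact h
  have c0 : ∀ a ∈ lat (0, g) (-p, g), t0 + a ∈ T := by
    rcases N3 h11 h12 h21 h22 ht0 with h | h
    · exact h
    · exact absurd (h b hb) hb'
  obtain ⟨r, hr⟩ := N4 hF hp hp0 (t0 := t0) (t1 := t1) (d := d) (g := g)
    (fun n => c0 _ (AddSubgroup.zsmul_mem _ hA2 _)) (fun n => c0 _ (AddSubgroup.zsmul_mem _ hA1 _))
    (fun n => c1 _ (AddSubgroup.zsmul_mem _ hB1 _))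
  exact hq r hr

/-- `Rl` from the facts on holes and bumps. -/
theorem Rl.mk' {T : Set V} (hF : LF T) (hp : PSQ.Periodic T) {al be : V}
    (d1 : ∀ x, x - al ∈ T → x - be ∈ T → False)
    (h1 : ∀ t ∈ T, t + al ∈ T ∨ t - be ∈ T) (h2 : ∀ t ∈ T, t + be ∈ T ∨ t - al ∈ T) :
    Rl T al be :=
  ⟨(N2 hF hp d1 h1 h2).1, (N2 hF hp d1 h1 h2).2, d1⟩

end Pool.Agent.CEX
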