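import Pool.Agent.CEX.Cancel
import Pool.Agent.CEX.NoPer

/-!
# CEX: holes and bumps cancel, concrete form
-/

set_option autoImplicit false

namespace Pool.Agent.CEX

open Pool.Agent.PTR (ECov)
open Pool.Agent.CEXD (box Bo Do Ho Bu al be bp wd hol bmp La Aa cut tooth)

theorem hol_snd (d : ℝ) (k : Fin 4) (c : Bool) : (hol d k c).2 = 1 / 20 + (k : ℕ) / 10 := by
  fin_cases k <;> cases c <;> simp [hol, bp, al, be] <;> norm_num

theorem bmp_snd_false (d : ℝ) (k : Fin 4) : (bmp d k false).2 = 1 / 20 + (k : ℕ) / 10 - 44100 := by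
  fin_cases k <;> simp [bmp, bp, al, be] <;> norm_num

theorem bmp_snd_true (d : ℝ) (k : Fin 4) : (bmp d k true).2 = 1 / 20 + (k : ℕ) / 10 + 44100 := by
  fin_cases k <;> simp [bmp, bp, al, be] <;> norm_num

theorem kval (k : Fin 4) : ((k : ℕ) : ℝ) ≤ 3 := by
  have : (k : ℕ) ≤ 3 := by omega
  exact_mod_cast this

/-- The tooth of the row `0`. -/
theorem Bo_row0 {d : ℝ} {p : ℝ × ℝ} (h1 : 0 ≤ p.2) (h2 : p.2 < 1 / 2)
    (h3 : (0 ≤ p.1 ∧ p.1 < 1 / 4) ∨ (57 / 4 ≤ p.1 ∧ p.1 < 15)) : p ∈ Bo d := by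
  have hf : ⌊p.2⌋ = 0 := by
    rw [Int.floor_eq_iff]
    constructor
    · simpa using h1
    · push_cast; linarith
  have hfr : Int.fract p.2 = p.2 := by
    rw [Int.fract, hf]
    simp
  refine ⟨h1, by linarith, Or.inl ⟨by rw [hfr]; exact h2, ?_, ?_⟩⟩
  · rw [hf]
    decide
  · rw [hf]
    have hA : Aa 0 = 0 := by decide
    have hc : cut d 0 = 1 / 4 := by simp [cut]
    rw [hA, hc]
    unfold tooth
    push_cast
    rcases h3 with h3 | h3
    · left
      constructor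
      · exact h3.1
      · linarith [h3.2]
    · right
      constructor
      · linarith [h3.1]
      · linarith [h3.2]

/-- The horizontal position of the holes. -/
theorem hol_fst {d : ℝ} (h1 : 47 / 100 < d) (h2 : d < 48 / 100) (k : Fin 4) (c : Bool) :
    (0 ≤ (hol d k c).1 ∧ (hol d k c).1 + wd k ≤ 1 / 4) ∨
      (57 / 4 ≤ (hol d k c).1 ∧ (hol d k c).1 + wd k ≤ 15) := by
  fin_cases k <;> cases c <;> simp [hol, bp, al, be, wd]
  · right; constructor <;> linarith
  · right; constructor <;> linarith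
  · right; constructor <;> linarith
  · right; constructor <;> linarith
  · right; constructor <;> linarith
  · left; constructor <;> linarith
  · left; constructor <;> linarith
  · right; constructor <;> linarith

theorem hol_sub {d : ℝ} (h1 : 47 / 100 < d) (h2 : d < 48 / 100) (k : Fin 4) (c : Bool) :
    box (hol d k c) (wd k) (1 / 50) ⊆ Bo d := by
  rintro p ⟨a1, a2, a3, a4⟩
  rw [hol_snd] at a3 a4
  have hk := kval k
  have hk0 : (0 : ℝ) ≤ ((k : ℕ) : ℝ) := Nat.cast_nonneg _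
  refine Bo_row0 (by linarith) (by linarith) ?_
  rcases hol_fst h1 h2 k c with h | h
  · left; constructor <;> linarith [h.1, h.2]
  · right; constructor <;> linarith [h.1, h.2]

theorem bmp_disj (d : ℝ) (k : Fin 4) (c : Bool) :
    Disjoint (box (bmp d k c) (wd k) (1 / 50)) (Bo d) := by
  rw [Set.disjoint_left]
  rintro p ⟨-, -, a3, a4⟩ ⟨b1, b2, -⟩
  have hk := kval k
  have hk0 : (0 : ℝ) ≤ ((k : ℕ) : ℝ) := Nat.cast_nonneg _
  cases c
  · rw [bmp_snd_false] at a3 a4
    linarith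
  · rw [bmp_snd_true] at a3 a4
    linarith

/-- Two boxes of different keys at the same base height are disjoint. -/
theorem key_ne {k k' : Fin 4} (h : k ≠ k') {u y : ℝ}
    (a1 : 1 / 20 + ((k : ℕ) : ℝ) / 10 + u ≤ y) (a2 : y < 1 / 20 + ((k : ℕ) : ℝ) / 10 + u + 1 / 50)
    (b1 : 1 / 20 + ((k' : ℕ) : ℝ) / 10 + u ≤ y)
    (b2 : y < 1 / 20 + ((k' : ℕ) : ℝ) / 10 + u + 1 / 50) : False := by
  have hne : (k : ℕ) ≠ (k' : ℕ) := fun he => h (Fin.ext he)
  rcases lt_or_gt_of_ne hne with hlt | hlt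
  · have : ((k : ℕ) : ℝ) + 1 ≤ ((k' : ℕ) : ℝ) := by exact_mod_cast hlt
    linarith
  · have : ((k' : ℕ) : ℝ) + 1 ≤ ((k : ℕ) : ℝ) := by exact_mod_cast hlt
    linarith

theorem hol_pair {d : ℝ} (h1 : 47 / 100 < d) (h2 : d < 48 / 100) (k : Fin 4) :
    Disjoint (box (hol d k false) (wd k) (1 / 50)) (box (hol d k true) (wd k) (1 / 50)) := by
  rw [Set.disjoint_left]
  rintro p ⟨a1, a2, -, -⟩ ⟨b1, b2, -, -⟩
  fin_cases k <;> simp [hol, bp, al, be, wd] at a1 a2 b1 b2 <;> linarith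

theorem hol_dis {d : ℝ} (h1 : 47 / 100 < d) (h2 : d < 48 / 100) (k : Fin 4) (c : Bool)
    (k' : Fin 4) (c' : Bool) (hne : (k, c) ≠ (k', c')) :
    Disjoint (box (hol d k c) (wd k) (1 / 50)) (box (hol d k' c') (wd k') (1 / 50)) := by
  by_cases hk : k = k'
  · subst hk
    cases c <;> cases c'
    · exact absurd rfl hne
    · exact hol_pair h1 h2 k
    · exact (hol_pair h1 h2 k).symm
    · exact absurd rfl hne
  · rw [Set.disjoint_left]
    rintro p ⟨-, -, a3, a4⟩ ⟨-, -, b3, b4⟩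
    rw [hol_snd] at a3 a4 b3 b4
    exact key_ne hk (u := 0) (y := p.2) (by linarith) (by linarith) (by linarith) (by linarith)

theorem bmp_dis (d : ℝ) (k : Fin 4) (c : Bool)
    (k' : Fin 4) (c' : Bool) (hne : (k, c) ≠ (k', c')) :
    Disjoint (box (bmp d k c) (wd k) (1 / 50)) (box (bmp d k' c') (wd k') (1 / 50)) := by
  have hk := kval k
  have hk0 : (0 : ℝ) ≤ ((k : ℕ) : ℝ) := Nat.cast_nonneg _
  have hk' := kval k'
  have hk0' : (0 : ℝ) ≤ ((k' : ℕ) : ℝ) := Nat.cast_nonneg _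
  rw [Set.disjoint_left]
  rintro p ⟨-, -, a3, a4⟩ ⟨-, -, b3, b4⟩
  cases c <;> cases c'
  · rw [bmp_snd_false] at a3 a4 b3 b4
    have hkk : k ≠ k' := fun h => hne (by rw [h])
    exact key_ne hkk (u := -44100) (y := p.2) (by linarith) (by linarith) (by linarith)
      (by linarith)
  · rw [bmp_snd_false] at a3 a4
    rw [bmp_snd_true] at b3 b4
    linarith
  · rw [bmp_snd_true] at a3 a4
    rw [bmp_snd_false] at b3 b4
    linarith
  · rw [bmp_snd_true] at a3 a4 b3 b4
    have hkk : k ≠ k' := fun h => hne (by rw [h])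
    exact key_ne hkk (u := 44100) (y := p.2) (by linarith) (by linarith) (by linarith)
      (by linarith)

/-- **Cancellation, concrete form.** -/
theorem cancel_conc {d : ℝ} (h1 : 47 / 100 < d) (h2 : d < 48 / 100) {T : Set (ℝ × ℝ)}
    (hR : ∀ k, Rl T (al k) (be d k)) : ECov (Do d) T ↔ ECov (Bo d) T := by
  refine ecov_cancel' (w := wd) (e := 1 / 50) (a := bp d) (al := al) (be := be d) (hol := hol d)
    (bmp := bmp d) (fun k => ?_) (fun k => ?_) (fun k => ?_) (fun k => ?_) ?_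
    (fun k c => hol_sub h1 h2 k c) (fun k c => bmp_disj d k c)
    (fun k c k' c' h => hol_dis h1 h2 k c k' c' h) (fun k c k' c' h => bmp_dis d k c k' c' h)
    (fun k x => (hR k).1 x) (fun k x => (hR k).2.1 x) (fun k x => (hR k).2.2 x)
  · simp [hol]
  · simp [hol]
  · simp [bmp]
  · simp [bmp]
  · have e1 : Ho d = boxes wd (1 / 50) (hol d) := by
      ext p
      simp [Ho, boxes]
    have e2 : Bu d = boxes wd (1 / 50) (bmp d) := by
      ext p
      simp [Bu, boxes]
    rw [Do, e1, e2]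

end Pool.Agent.CEX
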