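import Pool.Agent.CEX.Defs
import Pool.Agent.CEX.NoPer

set_option autoImplicit false

/-!
# CEX: holes and bumps

If `T` is an exact cover by the base set `D0` and satisfies the relations of the keys, then it is an
exact cover by the set with the holes and the bumps.
-/

open Pool.Agent.PTR Pool.Agent.CEX

namespace Pool.Agent.CEXK

/-- The base set `D0` with two holes and two bumps of the shape `Q k` for every key `k`: holes at
`a k + al k` and `a k + be k`, bumps at `a k` and `a k + al k + be k`. -/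
def keyed {K : Type} (D0 : Set (ℝ × ℝ)) (Q : K → Set (ℝ × ℝ)) (a al be : K → ℝ × ℝ) :
    Set (ℝ × ℝ) :=
  {z | (z ∈ D0 ∧ ∀ k, z - (a k + al k) ∉ Q k ∧ z - (a k + be k) ∉ Q k) ∨
    ∃ k, z - a k ∈ Q k ∨ z - (a k + al k + be k) ∈ Q k}

/-- The relation of a key. -/
def Rel1 (T : Set (ℝ × ℝ)) (al be : ℝ × ℝ) : Prop := ∀ x,
  T.indicator (fun _ => (1 : ℤ)) x + T.indicator (fun _ => (1 : ℤ)) (x - al - be) =
    T.indicator (fun _ => (1 : ℤ)) (x - al) + T.indicator (fun _ => (1 : ℤ)) (x - be)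

theorem ind_of_mem {T : Set (ℝ × ℝ)} {x : ℝ × ℝ} (h : x ∈ T) :
    T.indicator (fun _ => (1 : ℤ)) x = 1 := Set.indicator_of_mem h _

theorem ind_of_notMem {T : Set (ℝ × ℝ)} {x : ℝ × ℝ} (h : x ∉ T) :
    T.indicator (fun _ => (1 : ℤ)) x = 0 := Set.indicator_of_notMem h _

theorem ind_cases (T : Set (ℝ × ℝ)) (x : ℝ × ℝ) :
    (x ∈ T ∧ T.indicator (fun _ => (1 : ℤ)) x = 1) ∨
      (x ∉ T ∧ T.indicator (fun _ => (1 : ℤ)) x = 0) := by
  by_cases h : x ∈ T
  · exact Or.inl ⟨h, ind_of_mem h⟩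
  · exact Or.inr ⟨h, ind_of_notMem h⟩

/-- The relation from two parts with periods. -/
theorem rel_of_parts {T T0 T1 : Set (ℝ × ℝ)} {al be : ℝ × ℝ} (hT : T = T0 ∪ T1)
    (hd : Disjoint T0 T1) (h0 : ∀ x, x - al ∈ T0 ↔ x ∈ T0) (h1 : ∀ x, x - be ∈ T1 ↔ x ∈ T1) :
    Rel1 T al be := by
  have e : ∀ x, T.indicator (fun _ => (1 : ℤ)) x = T0.indicator (fun _ => (1 : ℤ)) x +
      T1.indicator (fun _ => (1 : ℤ)) x := by
    intro x
    rw [hT]
    have hdx : x ∈ T0 → x ∉ T1 := fun h => Set.disjoint_left.mp hd h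
    rcases ind_cases T0 x with ⟨a1, a2⟩ | ⟨a1, a2⟩ <;>
      rcases ind_cases T1 x with ⟨b1, b2⟩ | ⟨b1, b2⟩
    · exact absurd b1 (hdx a1)
    · rw [a2, b2, ind_of_mem (Set.mem_union_left _ a1)]
      rfl
    · rw [a2, b2, ind_of_mem (Set.mem_union_right _ b1)]
      rfl
    · rw [a2, b2, ind_of_notMem (by simp [a1, b1])]
      rfl
  have c0 : ∀ x, T0.indicator (fun _ => (1 : ℤ)) (x - al) =
      T0.indicator (fun _ => (1 : ℤ)) x := by
    intro x
    rcases ind_cases T0 x with ⟨a1, a2⟩ | ⟨a1, a2⟩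
    · rw [a2, ind_of_mem ((h0 x).mpr a1)]
    · rw [a2, ind_of_notMem (fun h => a1 ((h0 x).mp h))]
  have c1 : ∀ x, T1.indicator (fun _ => (1 : ℤ)) (x - be) =
      T1.indicator (fun _ => (1 : ℤ)) x := by
    intro x
    rcases ind_cases T1 x with ⟨a1, a2⟩ | ⟨a1, a2⟩
    · rw [a2, ind_of_mem ((h1 x).mpr a1)]
    · rw [a2, ind_of_notMem (fun h => a1 ((h1 x).mp h))]
  intro x
  rw [e x, e (x - al - be), e (x - al), e (x - be), c0 x, c1 x, c1 (x - al)]
  have e3 : x - al - be = x - be - al := by abel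
  rw [e3, c0 (x - be)]
  ring

/-- At a place with a bump there is exactly one hole, and conversely. -/
theorem place {K : Type} {D0 T : Set (ℝ × ℝ)} {Q : K → Set (ℝ × ℝ)} {a al be : K → ℝ × ℝ}
    (h0 : ECov D0 T)
    (hH : ∀ k, ∀ q ∈ Q k, a k + al k + q ∈ D0 ∧ a k + be k + q ∈ D0)
    (hne : ∀ k, al k ≠ be k) (hrel : ∀ k, Rel1 T (al k) (be k)) (k : K) {p q : ℝ × ℝ}
    (hq : q ∈ Q k) :
    (p - (a k + al k) ∈ T ∧ p - (a k + be k) ∉ T ∧
        ((p - a k ∈ T ∧ p - (a k + al k + be k) ∉ T) ∨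
          (p - a k ∉ T ∧ p - (a k + al k + be k) ∈ T))) ∨
      (p - (a k + al k) ∉ T ∧ p - (a k + be k) ∈ T ∧
        ((p - a k ∈ T ∧ p - (a k + al k + be k) ∉ T) ∨
          (p - a k ∉ T ∧ p - (a k + al k + be k) ∈ T))) ∨
      (p - (a k + al k) ∉ T ∧ p - (a k + be k) ∉ T ∧ p - a k ∉ T ∧
        p - (a k + al k + be k) ∉ T) := by
  have hr := hrel k (p - a k)
  have e1 : p - a k - al k - be k = p - (a k + al k + be k) := by abel
  have e2 : p - a k - al k = p - (a k + al k) := by abel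
  have e3 : p - a k - be k = p - (a k + be k) := by abel
  rw [e1, e2, e3] at hr
  have hnot : ¬ (p - (a k + al k) ∈ T ∧ p - (a k + be k) ∈ T) := by
    rintro ⟨u1, u2⟩
    obtain ⟨t, -, ht⟩ := h0 (p + q)
    have v1 := ht (p - (a k + al k)) ⟨u1, by
      have : p + q - (p - (a k + al k)) = a k + al k + q := by abel
      rw [this]
      exact (hH k q hq).1⟩
    have v2 := ht (p - (a k + be k)) ⟨u2, by
      have : p + q - (p - (a k + be k)) = a k + be k + q := by abel
      rw [this]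
      exact (hH k q hq).2⟩
    apply hne k
    have : p - (a k + al k) = p - (a k + be k) := v1.trans v2.symm
    have h3 : a k + al k = a k + be k := by simpa using this
    exact add_left_cancel h3
  rcases ind_cases T (p - a k) with ⟨a1, a2⟩ | ⟨a1, a2⟩ <;>
    rcases ind_cases T (p - (a k + al k + be k)) with ⟨b1, b2⟩ | ⟨b1, b2⟩ <;>
    rcases ind_cases T (p - (a k + al k)) with ⟨c1, c2⟩ | ⟨c1, c2⟩ <;>
    rcases ind_cases T (p - (a k + be k)) with ⟨d1, d2⟩ | ⟨d1, d2⟩ <;>
    rw [a2, b2, c2, d2] at hr <;> first | (exfalso; omega) | (exfalso; exact hnot ⟨c1, d1⟩) |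
      tauto

/-- Holes and bumps cancel. -/
theorem fill {K : Type} {D0 T : Set (ℝ × ℝ)} {Q : K → Set (ℝ × ℝ)} {a al be : K → ℝ × ℝ}
    (h0 : ECov D0 T)
    (hH : ∀ k, ∀ q ∈ Q k, a k + al k + q ∈ D0 ∧ a k + be k + q ∈ D0)
    (hne : ∀ k, al k ≠ be k) (hrel : ∀ k, Rel1 T (al k) (be k))
    (hd : ∀ k k' (h h' : ℝ × ℝ), (h = a k + al k ∨ h = a k + be k) →
      (h' = a k' + al k' ∨ h' = a k' + be k') → ∀ z, z - h ∈ Q k → z - h' ∈ Q k' →
      k = k' ∧ h = h') :
    ECov (keyed D0 Q a al be) T := by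
  intro z
  obtain ⟨t0, ⟨ht0, hz0⟩, hu0⟩ := h0 z
  -- a bump over `z` gives a hole over `z`
  have bump : ∀ k, ∀ b, (b = a k ∨ b = a k + al k + be k) → ∀ t ∈ T, z - t - b ∈ Q k →
      ∃ h, (h = a k + al k ∨ h = a k + be k) ∧ z - t0 - h ∈ Q k ∧ t + b = t0 + h := by
    intro k b hb t ht hq
    have hp := place (p := t + b) h0 hH hne hrel k hq
    have hin : t + b - a k ∈ T ∨ t + b - (a k + al k + be k) ∈ T := by
      rcases hb with rfl | rfl
      · left
        simpa using ht
      · right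
        simpa using ht
    have hole : ∀ h, (h = a k + al k ∨ h = a k + be k) → t + b - h ∈ T →
        z - t0 - h ∈ Q k ∧ t + b = t0 + h := by
      intro h hh hm
      have e : z - (t + b - h) = h + (z - t - b) := by abel
      have hD : z - (t + b - h) ∈ D0 := by
        rw [e]
        rcases hh with rfl | rfl
        · exact (hH k _ hq).1
        · exact (hH k _ hq).2
      have e2 : t + b - h = t0 := hu0 _ ⟨hm, hD⟩
      have e3 : t + b = t0 + h := by
        rw [← e2]
        abel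
      refine ⟨?_, e3⟩
      have e4 : z - t0 - h = z - t - b := by
        have : z - t0 - h = z - (t0 + h) := by abel
        rw [this, ← e3]
        abel
      rw [e4]
      exact hq
    rcases hp with ⟨c1, -, -⟩ | ⟨-, c1, -⟩ | ⟨-, -, c3, c4⟩
    · exact ⟨_, Or.inl rfl, hole _ (Or.inl rfl) c1⟩
    · exact ⟨_, Or.inr rfl, hole _ (Or.inr rfl) c1⟩
    · rcases hin with h | h
      · exact absurd h c3
      · exact absurd h c4
  by_cases hole : ∃ k h, (h = a k + al k ∨ h = a k + be k) ∧ z - t0 - h ∈ Q k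
  · obtain ⟨k, h, hh, hq⟩ := hole
    -- the bump over `z`
    have hp := place (p := t0 + h) h0 hH hne hrel k hq
    have hin : t0 + h - (a k + al k) ∈ T ∨ t0 + h - (a k + be k) ∈ T := by
      rcases hh with rfl | rfl
      · left
        simpa using ht0
      · right
        simpa using ht0
    have hb : (t0 + h - a k ∈ T ∧ t0 + h - (a k + al k + be k) ∉ T) ∨
        (t0 + h - a k ∉ T ∧ t0 + h - (a k + al k + be k) ∈ T) := by
      rcases hp with ⟨-, -, c⟩ | ⟨-, -, c⟩ | ⟨c1, c2, -, -⟩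
      · exact c
      · exact c
      · rcases hin with h' | h'
        · exact absurd h' c1
        · exact absurd h' c2
    have huniq : ∀ t ∈ T, z - t ∈ keyed D0 Q a al be →
        (t = t0 + h - a k ∨ t = t0 + h - (a k + al k + be k)) := by
      intro t ht hz
      rcases hz with ⟨hz1, hz2⟩ | ⟨k', hz1⟩
      · exfalso
        have e1 : t = t0 := hu0 _ ⟨ht, hz1⟩
        rw [e1] at hz2
        rcases hh with rfl | rfl
        · exact (hz2 k).1 hq
        · exact (hz2 k).2 hq
      · have : ∃ b, (b = a k' ∨ b = a k' + al k' + be k') ∧ z - t - b ∈ Q k' := by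
          rcases hz1 with h1 | h1
          · exact ⟨_, Or.inl rfl, h1⟩
          · exact ⟨_, Or.inr rfl, h1⟩
        obtain ⟨b, hb1, hb2⟩ := this
        obtain ⟨h', hh', hq', e'⟩ := bump k' b hb1 t ht hb2
        obtain ⟨rfl, rfl⟩ := hd k k' h h' hh hh' (z - t0) hq hq'
        rcases hb1 with rfl | rfl
        · left
          rw [← e']
          abel
        · right
          rw [← e']
          abel
    rcases hb with ⟨b1, b2⟩ | ⟨b1, b2⟩
    · refine ⟨t0 + h - a k, ⟨b1, Or.inr ⟨k, Or.inl ?_⟩⟩, ?_⟩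
      · have : z - (t0 + h - a k) - a k = z - t0 - h := by abel
        rw [this]
        exact hq
      · rintro t ⟨ht, hz⟩
        rcases huniq t ht hz with rfl | rfl
        · rfl
        · exact absurd ht b2
    · refine ⟨t0 + h - (a k + al k + be k), ⟨b2, Or.inr ⟨k, Or.inr ?_⟩⟩, ?_⟩
      · have : z - (t0 + h - (a k + al k + be k)) - (a k + al k + be k) = z - t0 - h := by abel
        rw [this]
        exact hq
      · rintro t ⟨ht, hz⟩
        rcases huniq t ht hz with rfl | rfl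
        · exact absurd ht b1
        · rfl
  · have hno : ∀ k, z - t0 - (a k + al k) ∉ Q k ∧ z - t0 - (a k + be k) ∉ Q k := by
      intro k
      exact ⟨fun h => hole ⟨k, _, Or.inl rfl, h⟩, fun h => hole ⟨k, _, Or.inr rfl, h⟩⟩
    refine ⟨t0, ⟨ht0, Or.inl ⟨hz0, hno⟩⟩, ?_⟩
    rintro t ⟨ht, hz⟩
    rcases hz with ⟨hz1, -⟩ | ⟨k', hz1⟩
    · exact hu0 _ ⟨ht, hz1⟩
    · exfalso
      have : ∃ b, (b = a k' ∨ b = a k' + al k' + be k') ∧ z - t - b ∈ Q k' := by
        rcases hz1 with h1 | h1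
        · exact ⟨_, Or.inl rfl, h1⟩
        · exact ⟨_, Or.inr rfl, h1⟩
      obtain ⟨b, hb1, hb2⟩ := this
      obtain ⟨h', hh', hq', -⟩ := bump k' b hb1 t ht hb2
      exact hole ⟨k', h', hh', hq'⟩

/-- The relation in the form of `Rl` gives the relation with numbers. -/
theorem rel1_of_Rl {T : Set (ℝ × ℝ)} {al be : ℝ × ℝ} (h : Rl T al be) : Rel1 T al be := by
  obtain ⟨h1, h2, h3⟩ := h
  intro x
  have g1 := h1 x
  have g2 := h2 x
  have g3 := h3 x
  rcases ind_cases T x with ⟨a1, a2⟩ | ⟨a1, a2⟩ <;>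
    rcases ind_cases T (x - al - be) with ⟨b1, b2⟩ | ⟨b1, b2⟩ <;>
    rcases ind_cases T (x - al) with ⟨c1, c2⟩ | ⟨c1, c2⟩ <;>
    rcases ind_cases T (x - be) with ⟨d1, d2⟩ | ⟨d1, d2⟩ <;>
    rw [a2, b2, c2, d2] <;> first | rfl | (exfalso; tauto)

/-- Conversely. -/
theorem Rl_of_rel1 {T : Set (ℝ × ℝ)} {al be : ℝ × ℝ} (h : Rel1 T al be)
    (hd : ∀ x, x - al ∈ T → x - be ∈ T → False) : Rl T al be := by
  have key : ∀ x, ((x ∈ T ∨ x - al - be ∈ T) ↔ (x - al ∈ T ∨ x - be ∈ T)) ∧
      (x ∈ T → x - al - be ∈ T → False) := by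
    intro x
    have hx := h x
    have g3 := hd x
    rcases ind_cases T x with ⟨a1, a2⟩ | ⟨a1, a2⟩ <;>
      rcases ind_cases T (x - al - be) with ⟨b1, b2⟩ | ⟨b1, b2⟩ <;>
      rcases ind_cases T (x - al) with ⟨c1, c2⟩ | ⟨c1, c2⟩ <;>
      rcases ind_cases T (x - be) with ⟨d1, d2⟩ | ⟨d1, d2⟩ <;>
      rw [a2, b2, c2, d2] at hx <;> first | (exfalso; omega) | tauto
  exact ⟨fun x => (key x).1, fun x => (key x).2, hd⟩

/-- The converse of `fill`. -/
theorem unfill {K : Type} {D0 T : Set (ℝ × ℝ)} {Q : K → Set (ℝ × ℝ)} {a al be : K → ℝ × ℝ}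
    (h0 : ECov (keyed D0 Q a al be) T)
    (hH : ∀ k, ∀ q ∈ Q k, a k + al k + q ∈ D0 ∧ a k + be k + q ∈ D0)
    (hB : ∀ k, ∀ q ∈ Q k, a k + q ∉ D0 ∧ a k + al k + be k + q ∉ D0)
    (hrel : ∀ k, Rl T (al k) (be k))
    (hd : ∀ k k' (b b' : ℝ × ℝ), (b = a k ∨ b = a k + al k + be k) →
      (b' = a k' ∨ b' = a k' + al k' + be k') → ∀ z, z - b ∈ Q k → z - b' ∈ Q k' →
      k = k' ∧ b = b') :
    ECov D0 T := by
  intro z
  obtain ⟨t1, ⟨ht1, hz1⟩, hu1⟩ := h0 z
  have notboth : z - t1 ∈ D0 → ∀ k b, (b = a k ∨ b = a k + al k + be k) →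
      z - t1 - b ∈ Q k → False := by
    intro h k b hb hq
    rcases hb with rfl | rfl
    · apply (hB k _ hq).1
      have : a k + (z - t1 - a k) = z - t1 := by abel
      rw [this]
      exact h
    · apply (hB k _ hq).2
      have : a k + al k + be k + (z - t1 - (a k + al k + be k)) = z - t1 := by abel
      rw [this]
      exact h
  -- a tile with a hole over `z` gives a bump of `t1` over `z` at the same place
  have hole : ∀ k h, (h = a k + al k ∨ h = a k + be k) → ∀ t ∈ T, z - t - h ∈ Q k →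
      ∃ b, (b = a k ∨ b = a k + al k + be k) ∧ z - t1 - b ∈ Q k ∧ t + h = t1 + b := by
    intro k h hh t ht hq
    have hor := ((hrel k).1 (t + h - a k)).mpr (by
      rcases hh with rfl | rfl
      · left
        have : t + (a k + al k) - a k - al k = t := by abel
        rw [this]
        exact ht
      · right
        have : t + (a k + be k) - a k - be k = t := by abel
        rw [this]
        exact ht)
    have bump : ∀ b, (b = a k ∨ b = a k + al k + be k) → t + h - b ∈ T →
        z - t1 - b ∈ Q k ∧ t + h = t1 + b := by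
      intro b hb hm
      have e : z - (t + h - b) - b = z - t - h := by abel
      have hD : z - (t + h - b) ∈ keyed D0 Q a al be := by
        refine Or.inr ⟨k, ?_⟩
        rcases hb with rfl | rfl
        · left
          rw [e]
          exact hq
        · right
          rw [e]
          exact hq
      have e2 : t + h - b = t1 := hu1 _ ⟨hm, hD⟩
      have e3 : t + h = t1 + b := by
        rw [← e2]
        abel
      refine ⟨?_, e3⟩
      have e4 : z - t1 - b = z - (t1 + b) := by abel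
      rw [e4, ← e3]
      have e5 : z - (t + h) = z - t - h := by abel
      rw [e5]
      exact hq
    rcases hor with h1 | h1
    · exact ⟨a k, Or.inl rfl, bump _ (Or.inl rfl) h1⟩
    · have e6 : t + h - a k - al k - be k = t + h - (a k + al k + be k) := by abel
      rw [e6] at h1
      exact ⟨_, Or.inr rfl, bump _ (Or.inr rfl) h1⟩
  rcases hz1 with ⟨c1, c2⟩ | ⟨k, c1⟩
  · refine ⟨t1, ⟨ht1, c1⟩, ?_⟩
    rintro t ⟨ht, hz⟩
    by_cases hh : ∃ k h, (h = a k + al k ∨ h = a k + be k) ∧ z - t - h ∈ Q k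
    · exfalso
      obtain ⟨k, h, hh1, hh2⟩ := hh
      obtain ⟨b, hb1, hb2, -⟩ := hole k h hh1 t ht hh2
      exact notboth c1 k b hb1 hb2
    · exact hu1 _ ⟨ht, Or.inl ⟨hz, fun k =>
        ⟨fun h => hh ⟨k, _, Or.inl rfl, h⟩, fun h => hh ⟨k, _, Or.inr rfl, h⟩⟩⟩⟩
  · have : ∃ b, (b = a k ∨ b = a k + al k + be k) ∧ z - t1 - b ∈ Q k := by
      rcases c1 with h1 | h1
      · exact ⟨_, Or.inl rfl, h1⟩
      · exact ⟨_, Or.inr rfl, h1⟩
    obtain ⟨b, hb1, hb2⟩ := this
    have hor := ((hrel k).1 (t1 + b - a k)).mp (by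
      rcases hb1 with rfl | rfl
      · left
        have : t1 + a k - a k = t1 := by abel
        rw [this]
        exact ht1
      · right
        have : t1 + (a k + al k + be k) - a k - al k - be k = t1 := by abel
        rw [this]
        exact ht1)
    have f1 : t1 + b - a k - al k = t1 + b - (a k + al k) := by abel
    have f2 : t1 + b - a k - be k = t1 + b - (a k + be k) := by abel
    rw [f1, f2] at hor
    -- every cover of `z` by the base is a hole at this place
    have huniq : ∀ t ∈ T, z - t ∈ D0 → (t = t1 + b - (a k + al k) ∨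
        t = t1 + b - (a k + be k)) := by
      intro t ht hz
      by_cases hh : ∃ k h, (h = a k + al k ∨ h = a k + be k) ∧ z - t - h ∈ Q k
      · obtain ⟨k', h, hh1, hh2⟩ := hh
        obtain ⟨b', hb1', hb2', e'⟩ := hole k' h hh1 t ht hh2
        obtain ⟨rfl, rfl⟩ := hd k k' b b' hb1 hb1' (z - t1) hb2 hb2'
        rcases hh1 with rfl | rfl
        · left
          rw [← e']
          abel
        · right
          rw [← e']
          abel
      · exfalso
        have e1 : t = t1 := hu1 _ ⟨ht, Or.inl ⟨hz, fun k =>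
          ⟨fun h => hh ⟨k, _, Or.inl rfl, h⟩, fun h => hh ⟨k, _, Or.inr rfl, h⟩⟩⟩⟩
        rw [e1] at hz
        exact notboth hz k b hb1 hb2
    have hno := (hrel k).2.2 (t1 + b - a k)
    rw [f1, f2] at hno
    rcases hor with h1 | h1
    · refine ⟨_, ⟨h1, ?_⟩, ?_⟩
      · have e : z - (t1 + b - (a k + al k)) = a k + al k + (z - t1 - b) := by abel
        rw [e]
        exact (hH k _ hb2).1
      · rintro t ⟨ht, hz⟩
        rcases huniq t ht hz with rfl | rfl
        · rfl
        · exact absurd ht (fun h => hno h1 h)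
    · refine ⟨_, ⟨h1, ?_⟩, ?_⟩
      · have e : z - (t1 + b - (a k + be k)) = a k + be k + (z - t1 - b) := by abel
        rw [e]
        exact (hH k _ hb2).2
      · rintro t ⟨ht, hz⟩
        rcases huniq t ht hz with rfl | rfl
        · exact absurd ht (fun h => hno h h1)
        · rfl

/-! ## The concrete body -/

open Pool.Agent.CEXD

theorem mem_box {z p : ℝ × ℝ} {w e : ℝ} : p ∈ box z w e ↔ p - z ∈ box 0 w e := by
  unfold box
  simp only [Set.mem_ofPred_eq, Prod.fst_sub, Prod.snd_sub, Prod.fst_zero, Prod.snd_zero,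
    zero_add, sub_nonneg, sub_lt_iff_lt_add']

theorem Do_eq (d : ℝ) : Do d = keyed (Bo d) (fun k => box 0 (wd k) (1 / 50)) (bp d) al (be d) := by
  ext p
  unfold Do keyed Ho Bu
  simp only [Set.mem_union, Set.mem_sdiff, Set.mem_ofPred_eq, hol, bmp, not_exists]
  constructor
  · rintro (⟨h1, h2⟩ | ⟨k, c, h⟩)
    · refine Or.inl ⟨h1, fun k => ⟨?_, ?_⟩⟩
      · have := h2 k false
        rw [mem_box] at this
        simpa using this
      · have := h2 k true
        rw [mem_box] at this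
        simpa using this
    · right
      rw [mem_box] at h
      cases c
      · exact ⟨k, Or.inl (by simpa using h)⟩
      · exact ⟨k, Or.inr (by simpa using h)⟩
  · rintro (⟨h1, h2⟩ | ⟨k, h | h⟩)
    · refine Or.inl ⟨h1, fun k c => ?_⟩
      rw [mem_box]
      cases c
      · simpa using (h2 k).1
      · simpa using (h2 k).2
    · refine Or.inr ⟨k, false, ?_⟩
      rw [mem_box]
      simpa using h
    · refine Or.inr ⟨k, true, ?_⟩
      rw [mem_box]
      simpa using h

theorem al_ne_be {d : ℝ} (h1 : 47 / 100 < d) (h2 : d < 48 / 100) (k : Fin 4) :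
    al k ≠ be d k := by
  intro h
  have h3 := congrArg Prod.fst h
  fin_cases k <;> simp [al, be] at h3 <;> linarith

/-- The place of a hole or of a bump of the key `k`. -/
theorem hol_cases {d : ℝ} {k : Fin 4} {h : ℝ × ℝ} (hh : h = bp d k + al k ∨ h = bp d k + be d k) :
    ∃ c, h = hol d k c := by
  rcases hh with rfl | rfl
  · exact ⟨false, by simp [hol]⟩
  · exact ⟨true, by simp [hol]⟩

theorem bmp_cases {d : ℝ} {k : Fin 4} {h : ℝ × ℝ}
    (hh : h = bp d k ∨ h = bp d k + al k + be d k) : ∃ c, h = bmp d k c := by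
  rcases hh with rfl | rfl
  · exact ⟨false, by simp [bmp]⟩
  · exact ⟨true, by simp [bmp]⟩

/-- The base covers exactly: so does the body. Only the relation with numbers is needed. -/
theorem cancel_of_base {d : ℝ} (h1 : 47 / 100 < d) (h2 : d < 48 / 100) {T : Set (ℝ × ℝ)}
    (hin : ∀ k c, box (hol d k c) (wd k) (1 / 50) ⊆ Bo d)
    (hh : ∀ k k' c c' p, p ∈ box (hol d k c) (wd k) (1 / 50) →
      p ∈ box (hol d k' c') (wd k') (1 / 50) → k = k' ∧ c = c')
    (hrel : ∀ k, Rel1 T (al k) (be d k)) (h0 : ECov (Bo d) T) : ECov (Do d) T := by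
  rw [Do_eq]
  refine fill h0 ?_ (al_ne_be h1 h2) hrel ?_
  · intro k q hq
    constructor
    · have := @hin k false (bp d k + al k + q) (by
        rw [mem_box]
        simpa [hol] using hq)
      exact this
    · have := @hin k true (bp d k + be d k + q) (by
        rw [mem_box]
        simpa [hol] using hq)
      exact this
  · intro k k' h h' e e' z hz hz'
    obtain ⟨c, rfl⟩ := hol_cases e
    obtain ⟨c', rfl⟩ := hol_cases e'
    obtain ⟨rfl, rfl⟩ := hh k k' c c' z (mem_box.mpr hz) (mem_box.mpr hz')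
    exact ⟨rfl, rfl⟩

/-- Holes and bumps cancel. -/
theorem cancel_iff {d : ℝ} (h1 : 47 / 100 < d) (h2 : d < 48 / 100) {T : Set (ℝ × ℝ)}
    (hin : ∀ k c, box (hol d k c) (wd k) (1 / 50) ⊆ Bo d)
    (hout : ∀ k c p, p ∈ box (bmp d k c) (wd k) (1 / 50) → p ∉ Bo d)
    (hh : ∀ k k' c c' p, p ∈ box (hol d k c) (wd k) (1 / 50) →
      p ∈ box (hol d k' c') (wd k') (1 / 50) → k = k' ∧ c = c')
    (hb : ∀ k k' c c' p, p ∈ box (bmp d k c) (wd k) (1 / 50) →
      p ∈ box (bmp d k' c') (wd k') (1 / 50) → k = k' ∧ c = c')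
    (hrel : ∀ k, Rl T (al k) (be d k)) : ECov (Do d) T ↔ ECov (Bo d) T := by
  refine ⟨fun h0 => ?_, cancel_of_base h1 h2 hin hh (fun k => rel1_of_Rl (hrel k))⟩
  rw [Do_eq] at h0
  refine unfill h0 ?_ ?_ hrel ?_
  · intro k q hq
    constructor
    · have := @hin k false (bp d k + al k + q) (by
        rw [mem_box]
        simpa [hol] using hq)
      exact this
    · have := @hin k true (bp d k + be d k + q) (by
        rw [mem_box]
        simpa [hol] using hq)
      exact this
  · intro k q hq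
    constructor
    · apply hout k false
      rw [mem_box]
      simpa [bmp] using hq
    · apply hout k true
      rw [mem_box]
      simpa [bmp] using hq
  · intro k k' b b' e e' z hz hz'
    obtain ⟨c, rfl⟩ := bmp_cases e
    obtain ⟨c', rfl⟩ := bmp_cases e'
    obtain ⟨rfl, rfl⟩ := hb k k' c c' z (mem_box.mpr hz) (mem_box.mpr hz')
    exact ⟨rfl, rfl⟩

end Pool.Agent.CEXK
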