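import Pool.Agent.CEX.Conc2b

/-!
# CEX: the half-open body of the boxes `BB d` is `Do d`
-/

set_option autoImplicit false

namespace Pool.Agent.CEXD

open Pool.Agent.PTR

theorem c1_union (B C : Finset Box) (z : ℝ × ℝ) :
    z ∈ body (B ∪ C) ↔ z ∈ body B ∨ z ∈ body C := by
  constructor
  · rintro ⟨b, hb, h⟩
    rcases Finset.mem_union.1 hb with hb | hb
    · exact Or.inl ⟨b, hb, h⟩
    · exact Or.inr ⟨b, hb, h⟩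
  · rintro (⟨b, hb, h⟩ | ⟨b, hb, h⟩)
    · exact ⟨b, Finset.mem_union.2 (Or.inl hb), h⟩
    · exact ⟨b, Finset.mem_union.2 (Or.inr hb), h⟩

theorem c1_biUnion (S : Finset ℤ) (f : ℤ → Finset Box) (z : ℝ × ℝ) :
    z ∈ body (S.biUnion f) ↔ ∃ n ∈ S, z ∈ body (f n) := by
  constructor
  · rintro ⟨b, hb, h⟩
    obtain ⟨n, hn, hb⟩ := Finset.mem_biUnion.1 hb
    exact ⟨n, hn, b, hb, h⟩
  · rintro ⟨n, hn, b, hb, h⟩
    exact ⟨b, Finset.mem_biUnion.2 ⟨n, hn, hb⟩, h⟩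

theorem c1_insert (b : Box) (B : Finset Box) (z : ℝ × ℝ) :
    z ∈ body (insert b B) ↔
      (b.1.1 ≤ z.1 ∧ z.1 < b.1.2 ∧ b.2.1 ≤ z.2 ∧ z.2 < b.2.2) ∨ z ∈ body B := by
  constructor
  · rintro ⟨c, hc, h⟩
    rcases Finset.mem_insert.1 hc with rfl | hc
    · exact Or.inl h
    · exact Or.inr ⟨c, hc, h⟩
  · rintro (h | ⟨c, hc, h⟩)
    · exact ⟨b, Finset.mem_insert_self _ _, h⟩
    · exact ⟨c, Finset.mem_insert_of_mem hc, h⟩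

theorem c1_single (b : Box) (z : ℝ × ℝ) :
    z ∈ body {b} ↔ b.1.1 ≤ z.1 ∧ z.1 < b.1.2 ∧ b.2.1 ≤ z.2 ∧ z.2 < b.2.2 := by
  constructor
  · rintro ⟨c, hc, h⟩
    rw [Finset.mem_singleton] at hc
    subst hc
    exact h
  · intro h
    exact ⟨b, Finset.mem_singleton_self _, h⟩

theorem c1_tb (A : ℤ) (c s t : ℝ) (z : ℝ × ℝ) :
    z ∈ body (tb A c s t) ↔ (s ≤ z.2 ∧ z.2 < t) ∧ tooth A c z.1 := by
  unfold tb tooth
  rw [c1_insert, c1_single]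
  tauto

theorem c1_floor (y : ℝ) (n : ℤ) (h1 : (n : ℝ) ≤ y) (h2 : y < n + 1) : ⌊y⌋ = n :=
  Int.floor_eq_iff.2 ⟨h1, h2⟩

theorem c1_rowA (d : ℝ) (z : ℝ × ℝ) :
    z ∈ body (((Finset.Ico (0 : ℤ) 44100).filter (fun n => n ≠ 0 ∧ La n)).biUnion
      (fun n => tb (Aa n) (cut d n) n (n + 1 / 2))) ↔
    0 ≤ z.2 ∧ z.2 < 44100 ∧ Int.fract z.2 < 1 / 2 ∧ ⌊z.2⌋ ≠ 0 ∧ La ⌊z.2⌋ ∧
      tooth (Aa ⌊z.2⌋) (cut d ⌊z.2⌋) z.1 := by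
  rw [c1_biUnion]
  constructor
  · rintro ⟨n, hn, h⟩
    rw [c1_tb] at h
    obtain ⟨⟨h1, h2⟩, h3⟩ := h
    rw [Finset.mem_filter, Finset.mem_Ico] at hn
    obtain ⟨⟨hn0, hn1⟩, hn2, hn3⟩ := hn
    have hf : ⌊z.2⌋ = n := c1_floor _ _ h1 (by linarith)
    have e0 : (0 : ℝ) ≤ n := by exact_mod_cast hn0
    have e1 : (n : ℝ) + 1 ≤ 44100 := by exact_mod_cast hn1
    rw [hf]
    refine ⟨by linarith, by linarith, ?_, hn2, hn3, h3⟩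
    rw [Int.fract, hf]
    linarith
  · rintro ⟨h1, h2, h3, h4, h5, h6⟩
    refine ⟨⌊z.2⌋, ?_, ?_⟩
    · rw [Finset.mem_filter, Finset.mem_Ico]
      refine ⟨⟨Int.floor_nonneg.2 h1, Int.floor_lt.2 (by push_cast; exact h2)⟩, h4, h5⟩
    · rw [c1_tb]
      refine ⟨⟨Int.floor_le _, ?_⟩, h6⟩
      rw [Int.fract] at h3
      linarith

theorem c1_rowB (d : ℝ) (z : ℝ × ℝ) :
    z ∈ body (((Finset.Ico (0 : ℤ) 44100).filter (fun n => Lb n)).biUnion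
      (fun n => tb (Ab n) (cut d n) (n + 1 / 2) (n + 1))) ↔
    0 ≤ z.2 ∧ z.2 < 44100 ∧ 1 / 2 ≤ Int.fract z.2 ∧ Lb ⌊z.2⌋ ∧
      tooth (Ab ⌊z.2⌋) (cut d ⌊z.2⌋) z.1 := by
  rw [c1_biUnion]
  constructor
  · rintro ⟨n, hn, h⟩
    rw [c1_tb] at h
    obtain ⟨⟨h1, h2⟩, h3⟩ := h
    rw [Finset.mem_filter, Finset.mem_Ico] at hn
    obtain ⟨⟨hn0, hn1⟩, hn3⟩ := hn
    have hf : ⌊z.2⌋ = n := c1_floor _ _ (by linarith) (by linarith)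
    have e0 : (0 : ℝ) ≤ n := by exact_mod_cast hn0
    have e1 : (n : ℝ) + 1 ≤ 44100 := by exact_mod_cast hn1
    rw [hf]
    refine ⟨by linarith, by linarith, ?_, hn3, h3⟩
    rw [Int.fract, hf]
    linarith
  · rintro ⟨h1, h2, h3, h5, h6⟩
    refine ⟨⌊z.2⌋, ?_, ?_⟩
    · rw [Finset.mem_filter, Finset.mem_Ico]
      refine ⟨⟨Int.floor_nonneg.2 h1, Int.floor_lt.2 (by push_cast; exact h2)⟩, h5⟩
    · rw [c1_tb]
      rw [Int.fract] at h3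
      exact ⟨⟨by linarith, Int.lt_floor_add_one _⟩, h6⟩

/-- The tooth of the row `0`. -/
def T0 (x : ℝ) : Prop := (0 ≤ x ∧ x < 1 / 4) ∨ (57 / 4 ≤ x ∧ x < 15)

theorem c1_tooth0 (x : ℝ) : tooth 0 (1 / 4) x ↔ T0 x := by
  unfold tooth T0
  norm_num

theorem c1_strips (z : ℝ × ℝ) : z ∈ body strips ↔ T0 z.1 ∧
    ((0 ≤ z.2 ∧ z.2 < 1 / 20) ∨ (7 / 100 ≤ z.2 ∧ z.2 < 3 / 20) ∨
      (17 / 100 ≤ z.2 ∧ z.2 < 5 / 20) ∨ (27 / 100 ≤ z.2 ∧ z.2 < 7 / 20) ∨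
      (37 / 100 ≤ z.2 ∧ z.2 < 1 / 2)) := by
  unfold strips
  rw [c1_union, c1_union, c1_union, c1_union, c1_tb, c1_tb, c1_tb, c1_tb, c1_tb, c1_tooth0]
  tauto

/-- the four side pieces of each hole band -/
def sb (d : ℝ) (z : ℝ × ℝ) : Prop :=
  ((1 / 20 ≤ z.2 ∧ z.2 < 7 / 100) ∧ ((0 ≤ z.1 ∧ z.1 < 1 / 4) ∨ (57 / 4 ≤ z.1 ∧ z.1 < 144 / 10) ∨
    (144 / 10 + 6 / 200 ≤ z.1 ∧ z.1 < 144 / 10 + d) ∨
    (144 / 10 + d + 6 / 200 ≤ z.1 ∧ z.1 < 15))) ∨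
  ((3 / 20 ≤ z.2 ∧ z.2 < 17 / 100) ∧ ((0 ≤ z.1 ∧ z.1 < 1 / 4) ∨
    (57 / 4 ≤ z.1 ∧ z.1 < 1435 / 100) ∨
    (1435 / 100 + 7 / 200 ≤ z.1 ∧ z.1 < 1535 / 100 - d) ∨
    (1535 / 100 - d + 7 / 200 ≤ z.1 ∧ z.1 < 15))) ∨
  ((5 / 20 ≤ z.2 ∧ z.2 < 27 / 100) ∧ ((0 ≤ z.1 ∧ z.1 < 1 / 10) ∨
    (1 / 10 + 8 / 200 ≤ z.1 ∧ z.1 < 1 / 4) ∨
    (57 / 4 ≤ z.1 ∧ z.1 < 151 / 10 - d) ∨
    (151 / 10 - d + 8 / 200 ≤ z.1 ∧ z.1 < 15))) ∨
  ((7 / 20 ≤ z.2 ∧ z.2 < 37 / 100) ∧ ((0 ≤ z.1 ∧ z.1 < 1 / 10) ∨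
    (1 / 10 + 9 / 200 ≤ z.1 ∧ z.1 < 1 / 4) ∨
    (57 / 4 ≤ z.1 ∧ z.1 < 141 / 10 + d) ∨
    (141 / 10 + d + 9 / 200 ≤ z.1 ∧ z.1 < 15)))

theorem c1_sides (d : ℝ) (z : ℝ × ℝ) : z ∈ body (sides d) ↔ sb d z := by
  unfold sides sb
  simp only [c1_insert, c1_single]
  constructor
  · rintro (⟨a, b, c, e⟩ | ⟨a, b, c, e⟩ | ⟨a, b, c, e⟩ | ⟨a, b, c, e⟩ |
      ⟨a, b, c, e⟩ | ⟨a, b, c, e⟩ | ⟨a, b, c, e⟩ | ⟨a, b, c, e⟩ |
      ⟨a, b, c, e⟩ | ⟨a, b, c, e⟩ | ⟨a, b, c, e⟩ | ⟨a, b, c, e⟩ |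
      ⟨a, b, c, e⟩ | ⟨a, b, c, e⟩ | ⟨a, b, c, e⟩ | ⟨a, b, c, e⟩)
    · exact Or.inl ⟨⟨c, e⟩, Or.inl ⟨a, b⟩⟩
    · exact Or.inl ⟨⟨c, e⟩, Or.inr (Or.inl ⟨a, b⟩)⟩
    · exact Or.inl ⟨⟨c, e⟩, Or.inr (Or.inr (Or.inl ⟨a, b⟩))⟩
    · exact Or.inl ⟨⟨c, e⟩, Or.inr (Or.inr (Or.inr ⟨a, b⟩))⟩
    · exact Or.inr (Or.inl ⟨⟨c, e⟩, Or.inl ⟨a, b⟩⟩)
    · exact Or.inr (Or.inl ⟨⟨c, e⟩, Or.inr (Or.inl ⟨a, b⟩)⟩)
    · exact Or.inr (Or.inl ⟨⟨c, e⟩, Or.inr (Or.inr (Or.inl ⟨a, b⟩))⟩)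
    · exact Or.inr (Or.inl ⟨⟨c, e⟩, Or.inr (Or.inr (Or.inr ⟨a, b⟩))⟩)
    · exact Or.inr (Or.inr (Or.inl ⟨⟨c, e⟩, Or.inl ⟨a, b⟩⟩))
    · exact Or.inr (Or.inr (Or.inl ⟨⟨c, e⟩, Or.inr (Or.inl ⟨a, b⟩)⟩))
    · exact Or.inr (Or.inr (Or.inl ⟨⟨c, e⟩, Or.inr (Or.inr (Or.inl ⟨a, b⟩))⟩))
    · exact Or.inr (Or.inr (Or.inl ⟨⟨c, e⟩, Or.inr (Or.inr (Or.inr ⟨a, b⟩))⟩))
    · exact Or.inr (Or.inr (Or.inr ⟨⟨c, e⟩, Or.inl ⟨a, b⟩⟩))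
    · exact Or.inr (Or.inr (Or.inr ⟨⟨c, e⟩, Or.inr (Or.inl ⟨a, b⟩)⟩))
    · exact Or.inr (Or.inr (Or.inr ⟨⟨c, e⟩, Or.inr (Or.inr (Or.inl ⟨a, b⟩))⟩))
    · exact Or.inr (Or.inr (Or.inr ⟨⟨c, e⟩, Or.inr (Or.inr (Or.inr ⟨a, b⟩))⟩))
  · rintro (⟨⟨c, e⟩, ⟨a, b⟩ | ⟨a, b⟩ | ⟨a, b⟩ | ⟨a, b⟩⟩ |
      ⟨⟨c, e⟩, ⟨a, b⟩ | ⟨a, b⟩ | ⟨a, b⟩ | ⟨a, b⟩⟩ |
      ⟨⟨c, e⟩, ⟨a, b⟩ | ⟨a, b⟩ | ⟨a, b⟩ | ⟨a, b⟩⟩ |
      ⟨⟨c, e⟩, ⟨a, b⟩ | ⟨a, b⟩ | ⟨a, b⟩ | ⟨a, b⟩⟩)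
    · exact Or.inl <| ⟨a, b, c, e⟩
    · exact Or.inr <| Or.inl <| ⟨a, b, c, e⟩
    · exact Or.inr <| Or.inr <| Or.inl <| ⟨a, b, c, e⟩
    · exact Or.inr <| Or.inr <| Or.inr <| Or.inl <| ⟨a, b, c, e⟩
    · exact Or.inr <| Or.inr <| Or.inr <| Or.inr <| Or.inl <| ⟨a, b, c, e⟩
    · exact Or.inr <| Or.inr <| Or.inr <| Or.inr <| Or.inr <| Or.inl <| ⟨a, b, c, e⟩
    · exact Or.inr <| Or.inr <| Or.inr <| Or.inr <| Or.inr <| Or.inr <| Or.inl <| ⟨a, b, c, e⟩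
    · exact Or.inr <| Or.inr <| Or.inr <| Or.inr <| Or.inr <| Or.inr <| Or.inr <|
        Or.inl <| ⟨a, b, c, e⟩
    · exact Or.inr <| Or.inr <| Or.inr <| Or.inr <| Or.inr <| Or.inr <| Or.inr <|
        Or.inr <| Or.inl <| ⟨a, b, c, e⟩
    · exact Or.inr <| Or.inr <| Or.inr <| Or.inr <| Or.inr <| Or.inr <| Or.inr <|
        Or.inr <| Or.inr <| Or.inl <| ⟨a, b, c, e⟩
    · exact Or.inr <| Or.inr <| Or.inr <| Or.inr <| Or.inr <| Or.inr <| Or.inr <|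
        Or.inr <| Or.inr <| Or.inr <| Or.inl <| ⟨a, b, c, e⟩
    · exact Or.inr <| Or.inr <| Or.inr <| Or.inr <| Or.inr <| Or.inr <| Or.inr <|
        Or.inr <| Or.inr <| Or.inr <| Or.inr <| Or.inl <| ⟨a, b, c, e⟩
    · exact Or.inr <| Or.inr <| Or.inr <| Or.inr <| Or.inr <| Or.inr <| Or.inr <|
        Or.inr <| Or.inr <| Or.inr <| Or.inr <| Or.inr <| Or.inl <| ⟨a, b, c, e⟩
    · exact Or.inr <| Or.inr <| Or.inr <| Or.inr <| Or.inr <| Or.inr <| Or.inr <|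
        Or.inr <| Or.inr <| Or.inr <| Or.inr <| Or.inr <| Or.inr <| Or.inl <| ⟨a, b, c, e⟩
    · exact Or.inr <| Or.inr <| Or.inr <| Or.inr <| Or.inr <| Or.inr <| Or.inr <|
        Or.inr <| Or.inr <| Or.inr <| Or.inr <| Or.inr <| Or.inr <| Or.inr <|
        Or.inl <| ⟨a, b, c, e⟩
    · exact Or.inr <| Or.inr <| Or.inr <| Or.inr <| Or.inr <| Or.inr <| Or.inr <|
        Or.inr <| Or.inr <| Or.inr <| Or.inr <| Or.inr <| Or.inr <| Or.inr <|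
        Or.inr <| ⟨a, b, c, e⟩

/-- the holes, explicitly -/
def hb (d : ℝ) (z : ℝ × ℝ) : Prop :=
  ((1 / 20 ≤ z.2 ∧ z.2 < 7 / 100) ∧ ((144 / 10 ≤ z.1 ∧ z.1 < 144 / 10 + 6 / 200) ∨
    (144 / 10 + d ≤ z.1 ∧ z.1 < 144 / 10 + d + 6 / 200))) ∨
  ((3 / 20 ≤ z.2 ∧ z.2 < 17 / 100) ∧ ((1435 / 100 ≤ z.1 ∧ z.1 < 1435 / 100 + 7 / 200) ∨
    (1535 / 100 - d ≤ z.1 ∧ z.1 < 1535 / 100 - d + 7 / 200))) ∨
  ((5 / 20 ≤ z.2 ∧ z.2 < 27 / 100) ∧ ((1 / 10 ≤ z.1 ∧ z.1 < 1 / 10 + 8 / 200) ∨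
    (151 / 10 - d ≤ z.1 ∧ z.1 < 151 / 10 - d + 8 / 200))) ∨
  ((7 / 20 ≤ z.2 ∧ z.2 < 37 / 100) ∧ ((1 / 10 ≤ z.1 ∧ z.1 < 1 / 10 + 9 / 200) ∨
    (141 / 10 + d ≤ z.1 ∧ z.1 < 141 / 10 + d + 9 / 200)))

theorem c1_box (z w : ℝ × ℝ) (a e : ℝ) : w ∈ box z a e ↔
    (z.2 ≤ w.2 ∧ w.2 < z.2 + e) ∧ (z.1 ≤ w.1 ∧ w.1 < z.1 + a) := by
  constructor
  · rintro ⟨a, b, c, e⟩
    exact ⟨⟨c, e⟩, a, b⟩
  · rintro ⟨⟨c, e⟩, a, b⟩
    exact ⟨a, b, c, e⟩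

theorem c1_h00 (d : ℝ) : hol d 0 false = (144 / 10, 1 / 20) := by
  have h : hol d 0 false = ((144 / 10, 1 / 20 - 44100) : ℝ × ℝ) + (0, 44100) := rfl
  rw [h, Prod.mk_add_mk]
  congr 1 <;> ring
theorem c1_h01 (d : ℝ) : hol d 0 true = (144 / 10 + d, 1 / 20) := by
  have h : hol d 0 true = ((144 / 10, 1 / 20 - 44100) : ℝ × ℝ) + (d, 44100) := rfl
  rw [h, Prod.mk_add_mk]
  congr 1 <;> ring
theorem c1_h10 (d : ℝ) : hol d 1 false = (1535 / 100 - d, 3 / 20) := by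
  have h : hol d 1 false = ((2935 / 100 - d, 3 / 20 - 44100) : ℝ × ℝ) + (-14, 44100) := rfl
  rw [h, Prod.mk_add_mk]
  congr 1 <;> ring
theorem c1_h11 (d : ℝ) : hol d 1 true = (1435 / 100, 3 / 20) := by
  have h : hol d 1 true = ((2935 / 100 - d, 3 / 20 - 44100) : ℝ × ℝ) + (d - 15, 44100) := rfl
  rw [h, Prod.mk_add_mk]
  congr 1 <;> ring
theorem c1_h20 (d : ℝ) : hol d 2 false = (151 / 10 - d, 5 / 20) := by
  have h : hol d 2 false = ((151 / 10 - d, 5 / 20 - 44100) : ℝ × ℝ) + (0, 44100) := rfl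
  rw [h, Prod.mk_add_mk]
  congr 1 <;> ring
theorem c1_h21 (d : ℝ) : hol d 2 true = (1 / 10, 5 / 20) := by
  have h : hol d 2 true = ((151 / 10 - d, 5 / 20 - 44100) : ℝ × ℝ) + (d - 15, 44100) := rfl
  rw [h, Prod.mk_add_mk]
  congr 1 <;> ring
theorem c1_h30 (d : ℝ) : hol d 3 false = (1 / 10, 7 / 20) := by
  have h : hol d 3 false = ((141 / 10, 7 / 20 - 44100) : ℝ × ℝ) + (-14, 44100) := rfl
  rw [h, Prod.mk_add_mk]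
  congr 1 <;> ring
theorem c1_h31 (d : ℝ) : hol d 3 true = (141 / 10 + d, 7 / 20) := by
  have h : hol d 3 true = ((141 / 10, 7 / 20 - 44100) : ℝ × ℝ) + (d, 44100) := rfl
  rw [h, Prod.mk_add_mk]
  congr 1 <;> ring

theorem c1_Ho (d : ℝ) (z : ℝ × ℝ) : z ∈ Ho d ↔ hb d z := by
  unfold hb
  have w0 : wd 0 = 6 / 200 := rfl
  have w1 : wd 1 = 7 / 200 := rfl
  have w2 : wd 2 = 8 / 200 := rfl
  have w3 : wd 3 = 9 / 200 := rfl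
  have n0 : (1 / 20 + 1 / 50 : ℝ) = 7 / 100 := by norm_num
  have n1 : (3 / 20 + 1 / 50 : ℝ) = 17 / 100 := by norm_num
  have n2 : (5 / 20 + 1 / 50 : ℝ) = 27 / 100 := by norm_num
  have n3 : (7 / 20 + 1 / 50 : ℝ) = 37 / 100 := by norm_num
  constructor
  · rintro ⟨k, c, h⟩
    rw [c1_box] at h
    have hk : k = 0 ∨ k = 1 ∨ k = 2 ∨ k = 3 := by fin_cases k <;> simp
    rcases hk with rfl | rfl | rfl | rfl <;> cases c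
    · rw [c1_h00, w0] at h; dsimp only at h; rw [n0] at h
      exact Or.inl ⟨h.1, Or.inl h.2⟩
    · rw [c1_h01, w0] at h; dsimp only at h; rw [n0] at h
      exact Or.inl ⟨h.1, Or.inr h.2⟩
    · rw [c1_h10, w1] at h; dsimp only at h; rw [n1] at h
      exact Or.inr (Or.inl ⟨h.1, Or.inr h.2⟩)
    · rw [c1_h11, w1] at h; dsimp only at h; rw [n1] at h
      exact Or.inr (Or.inl ⟨h.1, Or.inl h.2⟩)
    · rw [c1_h20, w2] at h; dsimp only at h; rw [n2] at h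
      exact Or.inr (Or.inr (Or.inl ⟨h.1, Or.inr h.2⟩))
    · rw [c1_h21, w2] at h; dsimp only at h; rw [n2] at h
      exact Or.inr (Or.inr (Or.inl ⟨h.1, Or.inl h.2⟩))
    · rw [c1_h30, w3] at h; dsimp only at h; rw [n3] at h
      exact Or.inr (Or.inr (Or.inr ⟨h.1, Or.inl h.2⟩))
    · rw [c1_h31, w3] at h; dsimp only at h; rw [n3] at h
      exact Or.inr (Or.inr (Or.inr ⟨h.1, Or.inr h.2⟩))
  · rintro (⟨h, h' | h'⟩ | ⟨h, h' | h'⟩ | ⟨h, h' | h'⟩ | ⟨h, h' | h'⟩)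
    · refine ⟨0, false, ?_⟩
      rw [c1_box, c1_h00, w0]; dsimp only; rw [n0]; exact ⟨h, h'⟩
    · refine ⟨0, true, ?_⟩
      rw [c1_box, c1_h01, w0]; dsimp only; rw [n0]; exact ⟨h, h'⟩
    · refine ⟨1, true, ?_⟩
      rw [c1_box, c1_h11, w1]; dsimp only; rw [n1]; exact ⟨h, h'⟩
    · refine ⟨1, false, ?_⟩
      rw [c1_box, c1_h10, w1]; dsimp only; rw [n1]; exact ⟨h, h'⟩
    · refine ⟨2, true, ?_⟩
      rw [c1_box, c1_h21, w2]; dsimp only; rw [n2]; exact ⟨h, h'⟩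
    · refine ⟨2, false, ?_⟩
      rw [c1_box, c1_h20, w2]; dsimp only; rw [n2]; exact ⟨h, h'⟩
    · refine ⟨3, false, ?_⟩
      rw [c1_box, c1_h30, w3]; dsimp only; rw [n3]; exact ⟨h, h'⟩
    · refine ⟨3, true, ?_⟩
      rw [c1_box, c1_h31, w3]; dsimp only; rw [n3]; exact ⟨h, h'⟩

theorem c1_band0 (d x : ℝ) (h1 : 47 / 100 < d) (h2 : d < 48 / 100) :
    ((0 ≤ x ∧ x < 1 / 4) ∨ (57 / 4 ≤ x ∧ x < 144 / 10) ∨
      (144 / 10 + 6 / 200 ≤ x ∧ x < 144 / 10 + d) ∨ (144 / 10 + d + 6 / 200 ≤ x ∧ x < 15)) ↔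
    T0 x ∧ ¬ ((144 / 10 ≤ x ∧ x < 144 / 10 + 6 / 200) ∨
      (144 / 10 + d ≤ x ∧ x < 144 / 10 + d + 6 / 200)) := by
  unfold T0
  grind

theorem c1_band1 (d x : ℝ) (h1 : 47 / 100 < d) (h2 : d < 48 / 100) :
    ((0 ≤ x ∧ x < 1 / 4) ∨ (57 / 4 ≤ x ∧ x < 1435 / 100) ∨
    (1435 / 100 + 7 / 200 ≤ x ∧ x < 1535 / 100 - d) ∨
    (1535 / 100 - d + 7 / 200 ≤ x ∧ x < 15)) ↔
    T0 x ∧ ¬ ((1435 / 100 ≤ x ∧ x < 1435 / 100 + 7 / 200) ∨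
    (1535 / 100 - d ≤ x ∧ x < 1535 / 100 - d + 7 / 200)) := by
  unfold T0
  grind

theorem c1_band2 (d x : ℝ) (h1 : 47 / 100 < d) (h2 : d < 48 / 100) :
    ((0 ≤ x ∧ x < 1 / 10) ∨ (1 / 10 + 8 / 200 ≤ x ∧ x < 1 / 4) ∨
    (57 / 4 ≤ x ∧ x < 151 / 10 - d) ∨ (151 / 10 - d + 8 / 200 ≤ x ∧ x < 15)) ↔
    T0 x ∧ ¬ ((1 / 10 ≤ x ∧ x < 1 / 10 + 8 / 200) ∨
    (151 / 10 - d ≤ x ∧ x < 151 / 10 - d + 8 / 200)) := by
  unfold T0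
  grind

theorem c1_band3 (d x : ℝ) (h1 : 47 / 100 < d) (h2 : d < 48 / 100) :
    ((0 ≤ x ∧ x < 1 / 10) ∨ (1 / 10 + 9 / 200 ≤ x ∧ x < 1 / 4) ∨
    (57 / 4 ≤ x ∧ x < 141 / 10 + d) ∨ (141 / 10 + d + 9 / 200 ≤ x ∧ x < 15)) ↔
    T0 x ∧ ¬ ((1 / 10 ≤ x ∧ x < 1 / 10 + 9 / 200) ∨
    (141 / 10 + d ≤ x ∧ x < 141 / 10 + d + 9 / 200)) := by
  unfold T0
  grind

/-- The half row `0` of the first layer. -/
theorem c1_row0 (d : ℝ) (h1 : 47 / 100 < d) (h2 : d < 48 / 100) (z : ℝ × ℝ) :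
    (z ∈ body strips ∨ z ∈ body (sides d)) ↔ ((0 ≤ z.2 ∧ z.2 < 1 / 2) ∧ T0 z.1) ∧ ¬ z ∈ Ho d := by
  rw [c1_strips, c1_sides, c1_Ho]
  unfold sb hb
  rw [c1_band0 d z.1 h1 h2, c1_band1 d z.1 h1 h2, c1_band2 d z.1 h1 h2, c1_band3 d z.1 h1 h2]
  generalize ((144 / 10 ≤ z.1 ∧ z.1 < 144 / 10 + 6 / 200) ∨
      (144 / 10 + d ≤ z.1 ∧ z.1 < 144 / 10 + d + 6 / 200)) = P0
  generalize ((1435 / 100 ≤ z.1 ∧ z.1 < 1435 / 100 + 7 / 200) ∨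
    (1535 / 100 - d ≤ z.1 ∧ z.1 < 1535 / 100 - d + 7 / 200)) = P1
  generalize ((1 / 10 ≤ z.1 ∧ z.1 < 1 / 10 + 8 / 200) ∨
    (151 / 10 - d ≤ z.1 ∧ z.1 < 151 / 10 - d + 8 / 200)) = P2
  generalize ((1 / 10 ≤ z.1 ∧ z.1 < 1 / 10 + 9 / 200) ∨
    (141 / 10 + d ≤ z.1 ∧ z.1 < 141 / 10 + d + 9 / 200)) = P3
  generalize T0 z.1 = Q
  generalize z.2 = y
  by_cases hQ : Q
  · simp only [hQ, true_and, and_true]
    rcases lt_or_ge y 0 with a0 | a0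
    · have e1 : ¬ 0 ≤ y := not_le.2 a0
      constructor
      · rintro ((h | h | h | h | h) | (h | h | h | h)) <;> exfalso <;> first | linarith [h.1] |
          linarith [h.1.1]
      · rintro ⟨h, -⟩
        exact absurd h.1 e1
    rcases lt_or_ge y (1 / 20) with a1 | a1
    · refine ⟨fun _ => ⟨⟨a0, by linarith⟩, ?_⟩, fun _ => Or.inl (Or.inl ⟨a0, a1⟩)⟩
      rintro (h | h | h | h) <;> linarith [h.1.1]
    rcases lt_or_ge y (7 / 100) with a2 | a2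
    · constructor
      · rintro ((h | h | h | h | h) | (h | h | h | h))
        · exfalso; linarith [h.1, h.2]
        · exfalso; linarith [h.1, h.2]
        · exfalso; linarith [h.1, h.2]
        · exfalso; linarith [h.1, h.2]
        · exfalso; linarith [h.1, h.2]
        · refine ⟨⟨a0, by linarith⟩, ?_⟩
          rintro (h' | h' | h' | h')
          · exact h.2 h'.2
          · linarith [h'.1.1]
          · linarith [h'.1.1]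
          · linarith [h'.1.1]
        · exfalso; linarith [h.1.1]
        · exfalso; linarith [h.1.1]
        · exfalso; linarith [h.1.1]
      · rintro ⟨-, h⟩
        exact Or.inr (Or.inl ⟨⟨a1, a2⟩, fun h' => h (Or.inl ⟨⟨a1, a2⟩, h'⟩)⟩)
    rcases lt_or_ge y (3 / 20) with a3 | a3
    · refine ⟨fun _ => ⟨⟨a0, by linarith⟩, ?_⟩, fun _ => Or.inl (Or.inr (Or.inl ⟨a2, a3⟩))⟩
      rintro (h | h | h | h) <;> linarith [h.1.1, h.1.2]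
    rcases lt_or_ge y (17 / 100) with a4 | a4
    · constructor
      · rintro ((h | h | h | h | h) | (h | h | h | h))
        · exfalso; linarith [h.1, h.2]
        · exfalso; linarith [h.1, h.2]
        · exfalso; linarith [h.1, h.2]
        · exfalso; linarith [h.1, h.2]
        · exfalso; linarith [h.1, h.2]
        · exfalso; linarith [h.1.2]
        · refine ⟨⟨a0, by linarith⟩, ?_⟩
          rintro (h' | h' | h' | h')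
          · linarith [h'.1.2]
          · exact h.2 h'.2
          · linarith [h'.1.1]
          · linarith [h'.1.1]
        · exfalso; linarith [h.1.1]
        · exfalso; linarith [h.1.1]
      · rintro ⟨-, h⟩
        exact Or.inr (Or.inr (Or.inl ⟨⟨a3, a4⟩, fun h' => h (Or.inr (Or.inl ⟨⟨a3, a4⟩, h'⟩))⟩))
    rcases lt_or_ge y (5 / 20) with a5 | a5
    · refine ⟨fun _ => ⟨⟨a0, by linarith⟩, ?_⟩,
        fun _ => Or.inl (Or.inr (Or.inr (Or.inl ⟨a4, a5⟩)))⟩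
      rintro (h | h | h | h) <;> linarith [h.1.1, h.1.2]
    rcases lt_or_ge y (27 / 100) with a6 | a6
    · constructor
      · rintro ((h | h | h | h | h) | (h | h | h | h))
        · exfalso; linarith [h.1, h.2]
        · exfalso; linarith [h.1, h.2]
        · exfalso; linarith [h.1, h.2]
        · exfalso; linarith [h.1, h.2]
        · exfalso; linarith [h.1, h.2]
        · exfalso; linarith [h.1.2]
        · exfalso; linarith [h.1.2]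
        · refine ⟨⟨a0, by linarith⟩, ?_⟩
          rintro (h' | h' | h' | h')
          · linarith [h'.1.2]
          · linarith [h'.1.2]
          · exact h.2 h'.2
          · linarith [h'.1.1]
        · exfalso; linarith [h.1.1]
      · rintro ⟨-, h⟩
        exact Or.inr (Or.inr (Or.inr (Or.inl ⟨⟨a5, a6⟩,
          fun h' => h (Or.inr (Or.inr (Or.inl ⟨⟨a5, a6⟩, h'⟩)))⟩)))
    rcases lt_or_ge y (7 / 20) with a7 | a7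
    · refine ⟨fun _ => ⟨⟨a0, by linarith⟩, ?_⟩,
        fun _ => Or.inl (Or.inr (Or.inr (Or.inr (Or.inl ⟨a6, a7⟩))))⟩
      rintro (h | h | h | h) <;> linarith [h.1.1, h.1.2]
    rcases lt_or_ge y (37 / 100) with a8 | a8
    · constructor
      · rintro ((h | h | h | h | h) | (h | h | h | h))
        · exfalso; linarith [h.1, h.2]
        · exfalso; linarith [h.1, h.2]
        · exfalso; linarith [h.1, h.2]
        · exfalso; linarith [h.1, h.2]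
        · exfalso; linarith [h.1, h.2]
        · exfalso; linarith [h.1.2]
        · exfalso; linarith [h.1.2]
        · exfalso; linarith [h.1.2]
        · refine ⟨⟨a0, by linarith⟩, ?_⟩
          rintro (h' | h' | h' | h')
          · linarith [h'.1.2]
          · linarith [h'.1.2]
          · linarith [h'.1.2]
          · exact h.2 h'.2
      · rintro ⟨-, h⟩
        exact Or.inr (Or.inr (Or.inr (Or.inr ⟨⟨a7, a8⟩,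
          fun h' => h (Or.inr (Or.inr (Or.inr ⟨⟨a7, a8⟩, h'⟩)))⟩)))
    rcases lt_or_ge y (1 / 2) with a9 | a9
    · refine ⟨fun _ => ⟨⟨a0, a9⟩, ?_⟩,
        fun _ => Or.inl (Or.inr (Or.inr (Or.inr (Or.inr ⟨a8, a9⟩))))⟩
      rintro (h | h | h | h) <;> linarith [h.1.2]
    · constructor
      · rintro ((h | h | h | h | h) | (h | h | h | h)) <;> exfalso <;> first | linarith [h.2] |
          linarith [h.1.2]
      · rintro ⟨h, -⟩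
        exact absurd h.2 (not_lt.2 a9)
  · simp only [hQ, false_and, and_false, or_self]

theorem c1_bumps (d : ℝ) (z : ℝ × ℝ) : z ∈ body (bumps d) ↔ z ∈ Bu d := by
  constructor
  · rintro ⟨b, hb, h⟩
    obtain ⟨q, -, rfl⟩ := Finset.mem_image.1 hb
    exact ⟨q.1, q.2, h⟩
  · rintro ⟨k, c, h⟩
    exact ⟨kb (bmp d k c) (wd k), Finset.mem_image.2 ⟨(k, c), Finset.mem_univ _, rfl⟩, h⟩

/-- The holes lie in the half row `0` of the first layer. -/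
theorem c1_Ho_row (d : ℝ) (z : ℝ × ℝ) (h : z ∈ Ho d) : 0 ≤ z.2 ∧ z.2 < 1 / 2 := by
  rw [c1_Ho] at h
  unfold hb at h
  rcases h with h | h | h | h <;> exact ⟨by linarith [h.1.1], by linarith [h.1.2]⟩

theorem body_BB {d : ℝ} (h1 : 47 / 100 < d) (h2 : d < 48 / 100) : body (BB d) = Do d := by
  ext z
  unfold BB Do
  rw [c1_union, c1_union, c1_union, c1_union, c1_rowA, c1_rowB, c1_bumps, Set.mem_union,
    Set.mem_sdiff]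
  have key := c1_row0 d h1 h2 z
  have hcut : cut d 0 = 1 / 4 := by simp [cut]
  constructor
  · rintro ((((h | h) | h) | h) | h)
    · obtain ⟨a, b, c, e, f, g⟩ := h
      refine Or.inl ⟨⟨a, b, Or.inl ⟨c, f, g⟩⟩, fun hh => ?_⟩
      obtain ⟨i, j⟩ := c1_Ho_row d z hh
      exact e (c1_floor _ _ (by push_cast; exact i) (by push_cast; linarith))
    · obtain ⟨a, b, c, f, g⟩ := h
      refine Or.inl ⟨⟨a, b, Or.inr ⟨c, f, g⟩⟩, fun hh => ?_⟩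
      obtain ⟨i, j⟩ := c1_Ho_row d z hh
      have hf : ⌊z.2⌋ = 0 := c1_floor _ _ (by push_cast; exact i) (by push_cast; linarith)
      rw [Int.fract, hf] at c
      push_cast at c
      linarith
    · obtain ⟨⟨⟨a, b⟩, e⟩, f⟩ := key.1 (Or.inl h)
      exact Or.inl ⟨mem_Bo_of d z a b (by unfold T0 at e; norm_num at e ⊢; exact e), f⟩
    · obtain ⟨⟨⟨a, b⟩, e⟩, f⟩ := key.1 (Or.inr h)
      exact Or.inl ⟨mem_Bo_of d z a b (by unfold T0 at e; norm_num at e ⊢; exact e), f⟩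
    · exact Or.inr h
  · rintro (⟨⟨a, b, ⟨c, f, g⟩ | ⟨c, f, g⟩⟩, hh⟩ | h)
    · by_cases hf : ⌊z.2⌋ = 0
      · have hz : z.2 < 1 / 2 := by
          rw [Int.fract, hf] at c
          push_cast at c
          linarith
        rw [hf, Aa_zero, hcut, c1_tooth0] at g
        rcases key.2 ⟨⟨⟨a, hz⟩, g⟩, hh⟩ with k | k
        · exact Or.inl (Or.inl (Or.inr k))
        · exact Or.inl (Or.inr k)
      · exact Or.inl (Or.inl (Or.inl (Or.inl ⟨a, b, c, hf, f, g⟩)))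
    · exact Or.inl (Or.inl (Or.inl (Or.inr ⟨a, b, c, f, g⟩)))
    · exact Or.inr h

end Pool.Agent.CEXD
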