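import Mathlib

/-!
# Holes and bumps: every hole of a tile is filled by exactly one bump of the same key (N1),
and, for periodic tilings, every bump fills a hole (N2)
-/

set_option autoImplicit false

namespace Pool.Agent.CEX

/-- The half-open box with lower left corner `z`, width `w` and height `e`. -/
def box (z : ℝ × ℝ) (w e : ℝ) : Set (ℝ × ℝ) :=
  {x | (z.1 ≤ x.1 ∧ x.1 < z.1 + w) ∧ z.2 ≤ x.2 ∧ x.2 < z.2 + e}

/-- Holes and bumps of a set `D` (union of half-open rectangles). -/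
structure HB (D : Set (ℝ × ℝ)) {K : Type} (w : K → ℝ) (η μ : ℝ)
    (hol bmp : K → Bool → ℝ × ℝ) : Prop where
  hη : 0 < η
  hμ : 0 < μ
  wpos : ∀ k, 0 < w k
  winj : Function.Injective w
  wsum : ∀ j l k, w k < w j + w l
  /-- the bumps are part of `D` -/
  bsub : ∀ k c, box (bmp k c) (w k) η ⊆ D
  /-- the holes are disjoint from `D` -/
  hdis : ∀ k c, ∀ x ∈ box (hol k c) (w k) η, x ∉ D
  /-- the points near a hole are in `D` -/
  marg : ∀ k c (x : ℝ × ℝ), (hol k c).1 - μ ≤ x.1 → x.1 < (hol k c).1 + w k + μ →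
    (hol k c).2 - μ ≤ x.2 → x.2 < (hol k c).2 + η + μ → x ∉ box (hol k c) (w k) η → x ∈ D
  /-- a point of `D` outside the bumps is in a long vertical segment in `D` -/
  base : ∀ x ∈ D, (∃ k c, x ∈ box (bmp k c) (w k) η) ∨
    ∃ z₁ z₂ : ℝ, z₁ ≤ x.2 ∧ x.2 < z₂ ∧ η < z₂ - z₁ ∧ ∀ z, z₁ ≤ z → z < z₂ → (x.1, z) ∈ D
  bdis : ∀ k c k' c' x, x ∈ box (bmp k c) (w k) η → x ∈ box (bmp k' c') (w k') η →
    k = k' ∧ c = c'
  hne : ∀ k, hol k false ≠ hol k true

variable {D : Set (ℝ × ℝ)} {K : Type} {w : K → ℝ} {η μ : ℝ} {hol bmp : K → Bool → ℝ × ℝ}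
  {T : Set (ℝ × ℝ)}

lemma ec_uniq (hE : ∀ p, ∃! t, t ∈ T ∧ p - t ∈ D) {t t' p : ℝ × ℝ} (ht : t ∈ T) (ht' : t' ∈ T)
    (h : p - t ∈ D) (h' : p - t' ∈ D) : t = t' :=
  (hE p).unique ⟨ht, h⟩ ⟨ht', h'⟩

/-- vertical segments of other tiles which meet a hole are inside the hole -/
lemma HB.vert (H : HB D w η μ hol bmp) (hE : ∀ p, ∃! t, t ∈ T ∧ p - t ∈ D) {t t' p : ℝ × ℝ}
    (ht : t ∈ T) (ht' : t' ∈ T) {k : K} {c : Bool} (hp : p - t ∈ box (hol k c) (w k) η)
    {z₁ z₂ : ℝ} (h1 : z₁ ≤ p.2 - t'.2) (h2 : p.2 - t'.2 < z₂)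
    (hz : ∀ z, z₁ ≤ z → z < z₂ → (p.1 - t'.1, z) ∈ D) :
    (hol k c).2 + t.2 ≤ z₁ + t'.2 ∧ z₂ + t'.2 ≤ (hol k c).2 + t.2 + η := by
  have hμ := H.hμ
  have hη := H.hη
  obtain ⟨⟨a1, a2⟩, a3, a4⟩ := hp
  simp only [Prod.fst_sub, Prod.snd_sub] at a1 a2 a3 a4
  have hne : t ≠ t' := by
    intro h
    subst h
    have := hz _ h1 h2
    exact H.hdis k c (p - t) ⟨⟨by simpa using a1, by simpa using a2⟩, by simpa using a3,
      by simpa using a4⟩ this
  constructor
  · by_contra hlt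
    push Not at hlt
    apply hne
    set y := max (z₁ + t'.2) ((hol k c).2 + t.2 - μ) with hy
    have y1 : z₁ + t'.2 ≤ y := le_max_left _ _
    have y2 : (hol k c).2 + t.2 - μ ≤ y := le_max_right _ _
    have y3 : y < (hol k c).2 + t.2 := max_lt hlt (by linarith)
    refine ec_uniq hE (p := (p.1, y)) ht ht' ?_ ?_
    · refine H.marg k c _ ?_ ?_ ?_ ?_ ?_
      · simp only [Prod.fst_sub]; linarith
      · simp only [Prod.fst_sub]; linarith
      · simp only [Prod.snd_sub]; linarith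
      · simp only [Prod.snd_sub]; linarith
      · rintro ⟨_, b3, b4⟩
        simp only [Prod.snd_sub] at b3 b4
        linarith
    · have := hz (y - t'.2) (by linarith) (by linarith)
      exact this
  · by_contra hlt
    push Not at hlt
    apply hne
    refine ec_uniq hE (p := (p.1, (hol k c).2 + t.2 + η)) ht ht' ?_ ?_
    · refine H.marg k c _ ?_ ?_ ?_ ?_ ?_
      · simp only [Prod.fst_sub]; linarith
      · simp only [Prod.fst_sub]; linarith
      · simp only [Prod.snd_sub]; linarith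
      · simp only [Prod.snd_sub]; linarith
      · rintro ⟨_, b3, b4⟩
        simp only [Prod.snd_sub] at b3 b4
        linarith
    · have := hz ((hol k c).2 + t.2 + η - t'.2) (by linarith) (by linarith)
      exact this

/-- horizontal segments of other tiles which meet a hole are inside the hole -/
lemma HB.horiz (H : HB D w η μ hol bmp) (hE : ∀ p, ∃! t, t ∈ T ∧ p - t ∈ D) {t t' p : ℝ × ℝ}
    (ht : t ∈ T) (ht' : t' ∈ T) {k : K} {c : Bool} (hp : p - t ∈ box (hol k c) (w k) η)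
    {z₁ z₂ : ℝ} (h1 : z₁ ≤ p.1 - t'.1) (h2 : p.1 - t'.1 < z₂)
    (hz : ∀ z, z₁ ≤ z → z < z₂ → (z, p.2 - t'.2) ∈ D) :
    (hol k c).1 + t.1 ≤ z₁ + t'.1 ∧ z₂ + t'.1 ≤ (hol k c).1 + t.1 + w k := by
  have hμ := H.hμ
  have hη := H.hη
  have hw := H.wpos k
  obtain ⟨⟨a1, a2⟩, a3, a4⟩ := hp
  simp only [Prod.fst_sub, Prod.snd_sub] at a1 a2 a3 a4
  have hne : t ≠ t' := by
    intro h
    subst h
    have := hz _ h1 h2
    exact H.hdis k c (p - t) ⟨⟨by simpa using a1, by simpa using a2⟩, by simpa using a3,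
      by simpa using a4⟩ this
  constructor
  · by_contra hlt
    push Not at hlt
    apply hne
    set y := max (z₁ + t'.1) ((hol k c).1 + t.1 - μ) with hy
    have y1 : z₁ + t'.1 ≤ y := le_max_left _ _
    have y2 : (hol k c).1 + t.1 - μ ≤ y := le_max_right _ _
    have y3 : y < (hol k c).1 + t.1 := max_lt hlt (by linarith)
    refine ec_uniq hE (p := (y, p.2)) ht ht' ?_ ?_
    · refine H.marg k c _ ?_ ?_ ?_ ?_ ?_
      · simp only [Prod.fst_sub]; linarith
      · simp only [Prod.fst_sub]; linarith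
      · simp only [Prod.snd_sub]; linarith
      · simp only [Prod.snd_sub]; linarith
      · rintro ⟨⟨b3, b4⟩, _⟩
        simp only [Prod.fst_sub] at b3 b4
        linarith
    · have := hz (y - t'.1) (by linarith) (by linarith)
      exact this
  · by_contra hlt
    push Not at hlt
    apply hne
    refine ec_uniq hE (p := ((hol k c).1 + t.1 + w k, p.2)) ht ht' ?_ ?_
    · refine H.marg k c _ ?_ ?_ ?_ ?_ ?_
      · simp only [Prod.fst_sub]; linarith
      · simp only [Prod.fst_sub]; linarith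
      · simp only [Prod.snd_sub]; linarith
      · simp only [Prod.snd_sub]; linarith
      · rintro ⟨⟨b3, b4⟩, _⟩
        simp only [Prod.fst_sub] at b3 b4
        linarith
    · have := hz ((hol k c).1 + t.1 + w k - t'.1) (by linarith) (by linarith)
      exact this

/-- a point of a hole is in a bump inside the hole -/
lemma HB.inside (H : HB D w η μ hol bmp) (hE : ∀ p, ∃! t, t ∈ T ∧ p - t ∈ D) {t p : ℝ × ℝ}
    (ht : t ∈ T) {k : K} {c : Bool} (hp : p - t ∈ box (hol k c) (w k) η) :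
    ∃ t' ∈ T, ∃ k' c', p - t' ∈ box (bmp k' c') (w k') η ∧
      (bmp k' c').2 + t'.2 = (hol k c).2 + t.2 ∧ (hol k c).1 + t.1 ≤ (bmp k' c').1 + t'.1 ∧
      (bmp k' c').1 + t'.1 + w k' ≤ (hol k c).1 + t.1 + w k := by
  obtain ⟨t', ⟨ht', hx⟩, -⟩ := hE p
  rcases H.base _ hx with ⟨k', c', hb⟩ | ⟨z₁, z₂, h1, h2, h3, h4⟩
  · refine ⟨t', ht', k', c', hb, ?_⟩
    obtain ⟨⟨b1, b2⟩, b3, b4⟩ := hb
    simp only [Prod.fst_sub, Prod.snd_sub] at b1 b2 b3 b4
    have hv := H.vert hE ht ht' hp b3 b4 (fun z hz1 hz2 => H.bsub k' c' ⟨⟨b1, b2⟩, hz1, hz2⟩)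
    have hh := H.horiz hE ht ht' hp b1 b2 (fun z hz1 hz2 => H.bsub k' c' ⟨⟨hz1, hz2⟩, b3, b4⟩)
    exact ⟨by linarith [hv.1, hv.2], by linarith [hh.1], by linarith [hh.2]⟩
  · exfalso
    have hv := H.vert hE ht ht' hp (by simpa using h1) (by simpa using h2)
      (fun z hz1 hz2 => by simpa using h4 z hz1 hz2)
    linarith [hv.1, hv.2]

/-- (N1) Every hole is filled by a bump of the same key. -/
theorem HB.fill (H : HB D w η μ hol bmp) (hE : ∀ p, ∃! t, t ∈ T ∧ p - t ∈ D) {t : ℝ × ℝ}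
    (ht : t ∈ T) (k : K) (c : Bool) : ∃ t' ∈ T, ∃ c', t' + bmp k c' = t + hol k c := by
  have hη := H.hη
  have hwk := H.wpos k
  have hp : (hol k c + t) - t ∈ box (hol k c) (w k) η := by
    refine ⟨⟨?_, ?_⟩, ?_, ?_⟩ <;> simp [hη, hwk]
  obtain ⟨t', ht', k', c', hb, e2, e1, e3⟩ := H.inside hE ht hp
  have hb0 := hb
  obtain ⟨⟨b1, b2⟩, b3, b4⟩ := hb
  simp only [Prod.fst_sub, Prod.snd_sub, Prod.fst_add, Prod.snd_add] at b1 b2 b3 b4
  have hX : (bmp k' c').1 + t'.1 = (hol k c).1 + t.1 := by linarith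
  have hle : w k' ≤ w k := by linarith
  have hwk' := H.wpos k'
  have hkk : k' = k := by
    apply H.winj
    rcases hle.lt_or_eq with hlt | h
    · exfalso
      set p2 : ℝ × ℝ := ((hol k c).1 + t.1 + w k', (hol k c).2 + t.2) with hp2
      have hp2m : p2 - t ∈ box (hol k c) (w k) η := by
        refine ⟨⟨?_, ?_⟩, ?_, ?_⟩ <;> simp only [hp2, Prod.fst_sub, Prod.snd_sub] <;> linarith
      obtain ⟨t2, ht2, k2, c2, hb2, f2, f1, f3⟩ := H.inside hE ht hp2m
      obtain ⟨⟨d1, d2⟩, d3, d4⟩ := hb2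
      simp only [hp2, Prod.fst_sub, Prod.snd_sub] at d1 d2 d3 d4
      have hwk2 := H.wpos k2
      by_cases hl : (hol k c).1 + t.1 + w k' ≤ (bmp k2 c2).1 + t2.1
      · have := H.wsum k' k2 k
        linarith
      · push Not at hl
        -- the two bumps overlap
        set p3 : ℝ × ℝ := ((bmp k2 c2).1 + t2.1, (hol k c).2 + t.2) with hp3
        have m1 : p3 - t' ∈ box (bmp k' c') (w k') η := by
          refine ⟨⟨?_, ?_⟩, ?_, ?_⟩ <;> simp only [hp3, Prod.fst_sub, Prod.snd_sub] <;> linarith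
        have m2 : p3 - t2 ∈ box (bmp k2 c2) (w k2) η := by
          refine ⟨⟨?_, ?_⟩, ?_, ?_⟩ <;> simp only [hp3, Prod.fst_sub, Prod.snd_sub] <;> linarith
        have htt : t' = t2 := ec_uniq hE ht' ht2 (H.bsub _ _ m1) (H.bsub _ _ m2)
        subst htt
        obtain ⟨hk, hc⟩ := H.bdis _ _ _ _ _ m1 m2
        subst hk
        subst hc
        linarith
    · exact h
  subst hkk
  refine ⟨t', ht', c', ?_⟩
  ext
  · simp only [Prod.fst_add]; linarith
  · simp only [Prod.snd_add]; linarith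

/-- two holes at the same place are the same hole -/
lemma HB.hol_inj (H : HB D w η μ hol bmp) (hE : ∀ p, ∃! t, t ∈ T ∧ p - t ∈ D) {t t' : ℝ × ℝ}
    (ht : t ∈ T) (ht' : t' ∈ T) {k : K} {c c' : Bool} (h : t + hol k c = t' + hol k c') :
    t = t' ∧ c = c' := by
  have hη := H.hη
  have hμ := H.hμ
  have hwk := H.wpos k
  have e1 : t.1 + (hol k c).1 = t'.1 + (hol k c').1 := by
    have := congrArg Prod.fst h; simpa using this
  have e2 : t.2 + (hol k c).2 = t'.2 + (hol k c').2 := by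
    have := congrArg Prod.snd h; simpa using this
  have key : ∀ (s : ℝ × ℝ) (d : Bool), s.1 + (hol k d).1 = t.1 + (hol k c).1 →
      s.2 + (hol k d).2 = t.2 + (hol k c).2 →
      ((t.1 + (hol k c).1 - μ, t.2 + (hol k c).2) : ℝ × ℝ) - s ∈ D := by
    intro s d h1 h2
    refine H.marg k d _ ?_ ?_ ?_ ?_ ?_
    · simp only [Prod.fst_sub]; linarith
    · simp only [Prod.fst_sub]; linarith
    · simp only [Prod.snd_sub]; linarith
    · simp only [Prod.snd_sub]; linarith
    · rintro ⟨⟨b3, b4⟩, _⟩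
      simp only [Prod.fst_sub] at b3 b4
      linarith
  have htt : t = t' := ec_uniq hE ht ht' (key t c rfl rfl) (key t' c' e1.symm e2.symm)
  subst htt
  refine ⟨rfl, ?_⟩
  have h' : hol k c = hol k c' := add_left_cancel h
  by_contra hcc
  have hne := H.hne k
  cases c <;> cases c' <;> simp_all

/-- two bumps at the same place are the same bump -/
lemma HB.bmp_inj (H : HB D w η μ hol bmp) (hE : ∀ p, ∃! t, t ∈ T ∧ p - t ∈ D) {t t' : ℝ × ℝ}
    (ht : t ∈ T) (ht' : t' ∈ T) {k : K} {c c' : Bool} (h : t + bmp k c = t' + bmp k c') :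
    t = t' ∧ c = c' := by
  have hη := H.hη
  have hwk := H.wpos k
  have key : ∀ d, bmp k d ∈ box (bmp k d) (w k) η := by
    intro d
    refine ⟨⟨?_, ?_⟩, ?_, ?_⟩ <;> linarith
  have m1 : (t + bmp k c) - t ∈ box (bmp k c) (w k) η := by
    simpa using key c
  have m2 : (t + bmp k c) - t' ∈ box (bmp k c') (w k) η := by
    rw [h]; simpa using key c'
  have htt : t = t' := ec_uniq hE ht ht' (H.bsub _ _ m1) (H.bsub _ _ m2)
  subst htt
  exact ⟨rfl, (H.bdis _ _ _ _ _ m1 m2).2⟩

/-- Output in the form of the hypotheses of (N2): `a` is the position of the first bump, the holes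
are at `a + al` and `a + be`, the second bump is at `a + al + be`. -/
theorem HB.out (H : HB D w η μ hol bmp) (hE : ∀ p, ∃! t, t ∈ T ∧ p - t ∈ D) {k : K}
    {a al be : ℝ × ℝ} (b0 : bmp k false = a) (b1 : bmp k true = a + al + be)
    (g0 : hol k false = a + al) (g1 : hol k true = a + be) :
    (∀ x, x - al ∈ T → x - be ∈ T → False) ∧ (∀ x, x ∈ T → x - al - be ∈ T → False) ∧
      (∀ t ∈ T, t + al ∈ T ∨ t - be ∈ T) ∧ (∀ t ∈ T, t + be ∈ T ∨ t - al ∈ T) := by
  refine ⟨fun x h1 h2 => ?_, fun x h1 h2 => ?_, fun t ht => ?_, fun t ht => ?_⟩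
  · have := (H.hol_inj hE h1 h2 (k := k) (c := false) (c' := true) (by
      rw [g0, g1]; abel)).2
    exact Bool.noConfusion this
  · have := (H.bmp_inj hE h1 h2 (k := k) (c := false) (c' := true) (by
      rw [b0, b1]; abel)).2
    exact Bool.noConfusion this
  · obtain ⟨t', ht', c', h⟩ := H.fill hE ht k false
    rw [g0] at h
    cases c'
    · rw [b0] at h
      left
      have : t' = t + al := by
        have h3 : t' + a - a = t + (a + al) - a := by rw [h]
        simpa [add_comm, add_left_comm, add_assoc] using h3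
      rwa [← this]
    · rw [b1] at h
      right
      have : t' = t - be := by
        have h3 : t' + (a + al + be) - (a + al + be) = t + (a + al) - (a + al + be) := by rw [h]
        rw [add_sub_cancel_right] at h3
        rw [h3]; abel
      rwa [← this]
  · obtain ⟨t', ht', c', h⟩ := H.fill hE ht k true
    rw [g1] at h
    cases c'
    · rw [b0] at h
      left
      have : t' = t + be := by
        have h3 : t' + a - a = t + (a + be) - a := by rw [h]
        rw [add_sub_cancel_right] at h3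
        rw [h3]; abel
      rwa [← this]
    · rw [b1] at h
      right
      have : t' = t - al := by
        have h3 : t' + (a + al + be) - (a + al + be) = t + (a + be) - (a + al + be) := by rw [h]
        rw [add_sub_cancel_right] at h3
        rw [h3]; abel
      rwa [← this]

end Pool.Agent.CEX
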