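import Pool.Agent.CEX.Cancel2
import Pool.Agent.CEX.Holes

/-!
# CEX: the concrete body satisfies the hypotheses of the hole filling lemma
-/

set_option autoImplicit false

namespace Pool.Agent.CEX

open Pool.Agent.PTR (ECov)
open Pool.Agent.CEXD (Bo Do Ho Bu al be bp wd hol bmp La Lb Aa Ab cut tooth)

theorem box_iff (z : ℝ × ℝ) (w e : ℝ) (x : ℝ × ℝ) : x ∈ box z w e ↔ x ∈ CEXD.box z w e := by
  simp only [box, CEXD.box, Set.mem_setOf_eq, and_assoc]

/-- The horizontal position of the holes, with margins. -/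
theorem hol_fst' {d : ℝ} (h1 : 47 / 100 < d) (h2 : d < 48 / 100) (k : Fin 4) (c : Bool) :
    (1 / 50 ≤ (hol d k c).1 ∧ (hol d k c).1 + wd k + 1 / 50 ≤ 1 / 4) ∨
      (57 / 4 + 1 / 50 ≤ (hol d k c).1 ∧ (hol d k c).1 + wd k + 1 / 50 ≤ 15) := by
  fin_cases k <;> cases c <;> simp [hol, bp, al, be, wd]
  · right; constructor <;> linarith
  · right; constructor <;> linarith
  · right; constructor <;> linarith
  · right; constructor <;> linarith
  · right; constructor <;> linarith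
  · left; constructor <;> linarith
  · left; constructor <;> linarith
  · right; constructor <;> linarith

/-- The two holes of a key are far apart. -/
theorem hol_far {d : ℝ} (h1 : 47 / 100 < d) (h2 : d < 48 / 100) (k : Fin 4) {x : ℝ} (c c' : Bool)
    (hc : c ≠ c') (a1 : (hol d k c).1 - 1 / 50 ≤ x) (a2 : x < (hol d k c).1 + wd k + 1 / 50)
    (b1 : (hol d k c').1 ≤ x) (b2 : x < (hol d k c').1 + wd k) : False := by
  fin_cases k <;> cases c <;> cases c' <;>
    simp [hol, bp, al, be, wd] at a1 a2 b1 b2 hc <;> linarith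

/-- Points at the height of no hole are not in the holes. -/
theorem not_Ho_of {d : ℝ} {p : ℝ × ℝ}
    (h : ∀ k : Fin 4, p.2 < 1 / 20 + ((k : ℕ) : ℝ) / 10 ∨
      1 / 20 + ((k : ℕ) : ℝ) / 10 + 1 / 50 ≤ p.2) : p ∉ Ho d := by
  rintro ⟨k, c, -, -, a3, a4⟩
  rw [hol_snd] at a3 a4
  rcases h k with h | h <;> linarith

theorem not_Ho_gap {d : ℝ} {p : ℝ × ℝ} {s : ℝ} (j : ℕ)
    (hs : s = (j : ℝ) / 10)
    (h : (j = 0 ∨ s - 3 / 100 ≤ p.2) ∧ (j = 4 ∨ p.2 < s + 1 / 20)) (hj : j ≤ 4) : p ∉ Ho d := by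
  apply not_Ho_of
  intro k
  have hk4 : (k : ℕ) < 4 := k.2
  by_cases hkj : (k : ℕ) < j
  · right
    have : ((k : ℕ) : ℝ) + 1 ≤ (j : ℝ) := by exact_mod_cast hkj
    rcases h.1 with h0 | h0
    · omega
    · subst hs; linarith
  · left
    push Not at hkj
    have : (j : ℝ) ≤ ((k : ℕ) : ℝ) := by exact_mod_cast hkj
    rcases h.2 with h0 | h0
    · omega
    · subst hs; linarith

theorem wd_pos (k : Fin 4) : 0 < wd k := by
  fin_cases k <;> simp [wd]

theorem mem_Do {d : ℝ} {p : ℝ × ℝ} (h : p ∈ Bo d) (h' : p ∉ Ho d) : p ∈ Do d := Or.inl ⟨h, h'⟩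

/-- vertical segments in the half row `(0, layer 1)` -/
theorem run0 {d : ℝ} (x : ℝ × ℝ) (hx : x ∉ Ho d) (h0 : 0 ≤ x.2) (h1 : x.2 < 1 / 2)
    (ht : (0 ≤ x.1 ∧ x.1 < 1 / 4) ∨ (57 / 4 ≤ x.1 ∧ x.1 < 15)) :
    ∃ z₁ z₂ : ℝ, z₁ ≤ x.2 ∧ x.2 < z₂ ∧ 1 / 50 < z₂ - z₁ ∧
      ∀ z, z₁ ≤ z → z < z₂ → (x.1, z) ∈ Do d := by
  by_cases hH : ∃ k : Fin 4, 1 / 20 + ((k : ℕ) : ℝ) / 10 ≤ x.2 ∧
      x.2 < 1 / 20 + ((k : ℕ) : ℝ) / 10 + 1 / 50
  · obtain ⟨k, k1, k2⟩ := hH
    have hk := kval k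
    have hk0 : (0 : ℝ) ≤ ((k : ℕ) : ℝ) := Nat.cast_nonneg _
    refine ⟨1 / 20 + ((k : ℕ) : ℝ) / 10 - 1 / 50, 1 / 20 + ((k : ℕ) : ℝ) / 10 + 2 / 50,
      by linarith, by linarith, by linarith, fun z hz1 hz2 => ?_⟩
    refine mem_Do (Bo_row0 (by simpa using by linarith) (by simpa using by linarith)
      (by simpa using ht)) ?_
    rintro ⟨k', c, a1, a2, a3, a4⟩
    rw [hol_snd] at a3 a4
    simp only at a1 a2 a3 a4
    have hkk : k' = k := by
      by_contra hne
      have hne' : (k' : ℕ) ≠ (k : ℕ) := fun he => hne (Fin.ext he)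
      rcases lt_or_gt_of_ne hne' with hlt | hlt
      · have : ((k' : ℕ) : ℝ) + 1 ≤ ((k : ℕ) : ℝ) := by exact_mod_cast hlt
        linarith
      · have : ((k : ℕ) : ℝ) + 1 ≤ ((k' : ℕ) : ℝ) := by exact_mod_cast hlt
        linarith
    subst hkk
    exact hx ⟨k', c, a1, a2, by rw [hol_snd]; exact k1, by rw [hol_snd]; exact k2⟩
  · push Not at hH
    have e0 := hH 0
    have e1 := hH 1
    have e2 := hH 2
    have e3 := hH 3
    simp only [Fin.val_zero, Nat.cast_zero, Fin.val_one, Nat.cast_one, Fin.val_two,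
      Nat.cast_ofNat, show ((3 : Fin 4) : ℕ) = 3 from rfl] at e0 e1 e2 e3
    have key : ∀ (j : ℕ) (a b : ℝ), j ≤ 4 → 0 ≤ a → b ≤ 1 / 2 → a ≤ x.2 → x.2 < b →
        1 / 50 < b - a → (j = 0 ∨ (j : ℝ) / 10 - 3 / 100 ≤ a) → (j = 4 ∨ b ≤ (j : ℝ) / 10 + 1 / 20) →
        ∃ z₁ z₂ : ℝ, z₁ ≤ x.2 ∧ x.2 < z₂ ∧ 1 / 50 < z₂ - z₁ ∧
          ∀ z, z₁ ≤ z → z < z₂ → (x.1, z) ∈ Do d := by
      intro j a b hj ha hb h3 h4 h5 h6 h7
      refine ⟨a, b, h3, h4, h5, fun z hz1 hz2 => ?_⟩
      refine mem_Do (Bo_row0 (by simpa using by linarith) (by simpa using by linarith)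
        (by simpa using ht)) ?_
      refine not_Ho_gap j rfl ⟨?_, ?_⟩ hj
      · rcases h6 with h6 | h6
        · exact Or.inl h6
        · right; simp only; linarith
      · rcases h7 with h7 | h7
        · exact Or.inl h7
        · right; simp only; linarith
    by_cases c0 : x.2 < 1 / 20
    · exact key 0 0 (1 / 20) (by norm_num) (by norm_num) (by norm_num) h0 c0 (by norm_num)
        (Or.inl rfl) (Or.inr (by norm_num))
    push Not at c0
    have c0' : 7 / 100 ≤ x.2 := by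
      have := e0 (by linarith)
      linarith
    by_cases c1 : x.2 < 3 / 20
    · exact key 1 (7 / 100) (3 / 20) (by norm_num) (by norm_num) (by norm_num) c0' c1 (by norm_num)
        (Or.inr (by norm_num)) (Or.inr (by norm_num))
    push Not at c1
    have c1' : 17 / 100 ≤ x.2 := by
      have := e1 (by linarith)
      linarith
    by_cases c2 : x.2 < 5 / 20
    · exact key 2 (17 / 100) (5 / 20) (by norm_num) (by norm_num) (by norm_num) c1' c2 (by norm_num)
        (Or.inr (by norm_num)) (Or.inr (by norm_num))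
    push Not at c2
    have c2' : 27 / 100 ≤ x.2 := by
      have := e2 (by linarith)
      linarith
    by_cases c3 : x.2 < 7 / 20
    · exact key 3 (27 / 100) (7 / 20) (by norm_num) (by norm_num) (by norm_num) c2' c3 (by norm_num)
        (Or.inr (by norm_num)) (Or.inr (by norm_num))
    push Not at c3
    have c3' : 37 / 100 ≤ x.2 := by
      have := e3 (by linarith)
      linarith
    exact key 4 (37 / 100) (1 / 2) (by norm_num) (by norm_num) (by norm_num) c3' h1 (by norm_num)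
      (Or.inr (by norm_num)) (Or.inl rfl)

/-- vertical segments in all other half rows -/
theorem run1 {d : ℝ} (x : ℝ × ℝ) (hx : x ∈ Bo d) (hx2 : 1 / 2 ≤ x.2) :
    ∃ z₁ z₂ : ℝ, z₁ ≤ x.2 ∧ x.2 < z₂ ∧ 1 / 50 < z₂ - z₁ ∧
      ∀ z, z₁ ≤ z → z < z₂ → (x.1, z) ∈ Do d := by
  obtain ⟨b0, b1, h⟩ := hx
  set n := ⌊x.2⌋ with hn
  have f1 : (n : ℝ) ≤ x.2 := Int.floor_le _
  have f2 : x.2 < n + 1 := Int.lt_floor_add_one _
  have f3 : Int.fract x.2 = x.2 - n := rfl
  have hn0 : 0 ≤ n := Int.floor_nonneg.2 b0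
  have hn1 : n < 44100 := by
    have : (n : ℝ) < 44100 := lt_of_le_of_lt f1 b1
    exact_mod_cast this
  have hn0' : (0 : ℝ) ≤ n := by exact_mod_cast hn0
  have hn1' : (n : ℝ) + 1 ≤ 44100 := by
    have : n + 1 ≤ 44100 := hn1
    exact_mod_cast this
  have hnot : ∀ z : ℝ, 1 / 2 ≤ z → (x.1, z) ∉ Ho d := by
    intro z hz
    apply not_Ho_of
    intro k
    have hk := kval k
    right
    simp only
    linarith
  rcases h with ⟨h1, h2, h3⟩ | ⟨h1, h2, h3⟩
  · have hn1 : (1 : ℝ) ≤ n := by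
      have : n ≠ 0 := by
        intro h0
        rw [f3, h0] at h1
        simp at h1
        linarith
      have : 1 ≤ n := by omega
      exact_mod_cast this
    refine ⟨n, n + 1 / 2, f1, by linarith, by linarith, fun z hz1 hz2 => ?_⟩
    have hfl : ⌊z⌋ = n := by
      rw [Int.floor_eq_iff]
      constructor <;> linarith
    refine mem_Do ⟨by simp only; linarith, by simp only; linarith, Or.inl ⟨?_, ?_, ?_⟩⟩
      (hnot z (by linarith))
    · simp only
      rw [Int.fract, hfl]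
      linarith
    · simp only
      rw [hfl]
      exact h2
    · simp only
      rw [hfl]
      exact h3
  · refine ⟨n + 1 / 2, n + 1, by linarith, f2, by linarith, fun z hz1 hz2 => ?_⟩
    have hfl : ⌊z⌋ = n := by
      rw [Int.floor_eq_iff]
      constructor <;> linarith
    refine mem_Do ⟨by simp only; linarith, by simp only; linarith, Or.inr ⟨?_, ?_, ?_⟩⟩
      (hnot z (by linarith))
    · simp only
      rw [Int.fract, hfl]
      linarith
    · simp only
      rw [hfl]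
      exact h2
    · simp only
      rw [hfl]
      exact h3

theorem Bo_row0_tooth {d : ℝ} {p : ℝ × ℝ} (hp : p ∈ Bo d) (h2 : p.2 < 1 / 2) :
    (0 ≤ p.1 ∧ p.1 < 1 / 4) ∨ (57 / 4 ≤ p.1 ∧ p.1 < 15) := by
  obtain ⟨b0, b1, h⟩ := hp
  have hf : ⌊p.2⌋ = 0 := by
    rw [Int.floor_eq_iff]
    constructor
    · simpa using b0
    · push_cast; linarith
  rcases h with ⟨-, -, h3⟩ | ⟨h1, -, -⟩
  · rw [hf] at h3
    have hA : Aa 0 = 0 := by decide
    have hc : cut d 0 = 1 / 4 := by simp [cut]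
    rw [hA, hc] at h3
    unfold tooth at h3
    push_cast at h3
    rcases h3 with h3 | h3
    · left
      constructor
      · exact h3.1
      · linarith [h3.2]
    · right
      constructor
      · linarith [h3.1]
      · linarith [h3.2]
  · exfalso
    rw [Int.fract, hf] at h1
    simp at h1
    linarith

/-- The concrete instance. -/
theorem hb_conc {d : ℝ} (h1 : 47 / 100 < d) (h2 : d < 48 / 100) :
    HB (Do d) wd (1 / 50) (1 / 50) (hol d) (bmp d) where
  hη := by norm_num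
  hμ := by norm_num
  wpos := wd_pos
  winj := by
    intro a b hab
    fin_cases a <;> fin_cases b <;> simp [wd] at hab ⊢ <;> norm_num at hab
  wsum := by
    intro a b c
    fin_cases a <;> fin_cases b <;> fin_cases c <;> simp [wd] <;> norm_num
  bsub := by
    intro k c x hx
    exact Or.inr ⟨k, c, (box_iff _ _ _ _).1 hx⟩
  hdis := by
    intro k c x hx hD
    have hx' := (box_iff _ _ _ _).1 hx
    rcases hD with ⟨-, hD⟩ | ⟨k', c', hD⟩
    · exact hD ⟨k, c, hx'⟩
    · exact Set.disjoint_left.1 (bmp_disj d k' c') hD (hol_sub h1 h2 k c hx')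
  marg := by
    intro k c x a1 a2 a3 a4 hx
    have hk := kval k
    have hk0 : (0 : ℝ) ≤ ((k : ℕ) : ℝ) := Nat.cast_nonneg _
    rw [hol_snd] at a3 a4
    refine mem_Do (Bo_row0 (by linarith) (by linarith) ?_) ?_
    · rcases hol_fst' h1 h2 k c with h | h
      · left; constructor <;> linarith [h.1, h.2]
      · right; constructor <;> linarith [h.1, h.2]
    · rintro ⟨k', c', b1, b2, b3, b4⟩
      rw [hol_snd] at b3 b4
      have hkk : k' = k := by
        by_contra hne
        have hne' : (k' : ℕ) ≠ (k : ℕ) := fun he => hne (Fin.ext he)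
        rcases lt_or_gt_of_ne hne' with hlt | hlt
        · have : ((k' : ℕ) : ℝ) + 1 ≤ ((k : ℕ) : ℝ) := by exact_mod_cast hlt
          linarith
        · have : ((k : ℕ) : ℝ) + 1 ≤ ((k' : ℕ) : ℝ) := by exact_mod_cast hlt
          linarith
      subst hkk
      by_cases hcc : c = c'
      · subst hcc
        exact hx ⟨⟨b1, b2⟩, by rw [hol_snd]; exact b3, by rw [hol_snd]; exact b4⟩
      · exact hol_far h1 h2 k' c c' hcc a1 a2 b1 b2
  base := by
    intro x hx
    rcases hx with ⟨hB, hH⟩ | ⟨k, c, hb⟩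
    · right
      by_cases hx2 : x.2 < 1 / 2
      · exact run0 x hH hB.1 hx2 (Bo_row0_tooth hB hx2)
      · push Not at hx2
        exact run1 x hB hx2
    · left
      exact ⟨k, c, (box_iff _ _ _ _).2 hb⟩
  bdis := by
    intro k c k' c' x hx hx'
    by_contra hne
    have hne' : (k, c) ≠ (k', c') := fun h => hne ⟨congrArg Prod.fst h, congrArg Prod.snd h⟩
    exact Set.disjoint_left.1 (bmp_dis d k c k' c' hne') ((box_iff _ _ _ _).1 hx)
      ((box_iff _ _ _ _).1 hx')
  hne := by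
    intro k h
    have hd := hol_pair h1 h2 k
    rw [Set.disjoint_left] at hd
    have hw := wd_pos k
    have hm : hol d k false ∈ CEXD.box (hol d k false) (wd k) (1 / 50) :=
      ⟨le_refl _, by linarith, le_refl _, by linarith⟩
    exact hd hm (by rw [← h]; exact hm)

/-- (N1) for the concrete body. -/
theorem key_out {d : ℝ} (h1 : 47 / 100 < d) (h2 : d < 48 / 100) {T : Set (ℝ × ℝ)}
    (hE : ECov (Do d) T) (k : Fin 4) :
    (∀ x, x - al k ∈ T → x - be d k ∈ T → False) ∧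
      (∀ x, x ∈ T → x - al k - be d k ∈ T → False) ∧
      (∀ t ∈ T, t + al k ∈ T ∨ t - be d k ∈ T) ∧ (∀ t ∈ T, t + be d k ∈ T ∨ t - al k ∈ T) := by
  refine (hb_conc h1 h2).out hE (k := k) (a := bp d k) ?_ ?_ ?_ ?_
  · simp [bmp]
  · simp [bmp]
  · simp [hol]
  · simp [hol]

end Pool.Agent.CEX
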