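import Pool.Agent.CEX.Defs

/-!
# CEX: positions of the holes and of the bumps
-/

set_option autoImplicit false

namespace Pool.Agent.CEXD

/-- the vertical position of the key -/
noncomputable def hh : Fin 4 → ℝ := ![1 / 20, 3 / 20, 5 / 20, 7 / 20]

theorem hol_snd (d : ℝ) (k : Fin 4) (c : Bool) : (hol d k c).2 = hh k := by
  fin_cases k <;> cases c <;> norm_num [hol, bp, al, be, hh]

theorem bmp_false_snd (d : ℝ) (k : Fin 4) : (bmp d k false).2 = hh k - 44100 := by
  fin_cases k <;> norm_num [bmp, bp, hh]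

theorem bmp_true_snd (d : ℝ) (k : Fin 4) : (bmp d k true).2 = hh k + 44100 := by
  fin_cases k <;> norm_num [bmp, bp, hh, al, be]

theorem hh_lo (k : Fin 4) : 1 / 20 ≤ hh k := by fin_cases k <;> norm_num [hh]
theorem hh_hi (k : Fin 4) : hh k ≤ 7 / 20 := by fin_cases k <;> norm_num [hh]

theorem hh_sep {k k' : Fin 4} {y : ℝ} (h1 : hh k ≤ y) (h2 : y < hh k + 1 / 50)
    (h3 : hh k' ≤ y) (h4 : y < hh k' + 1 / 50) : k = k' := by
  fin_cases k <;> fin_cases k' <;> first | rfl | (exfalso; norm_num [hh] at h1 h2 h3 h4; linarith)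

theorem hol_fst (d : ℝ) (h1 : 47 / 100 < d) (h2 : d < 48 / 100) (k : Fin 4) (c : Bool) :
    (0 ≤ (hol d k c).1 ∧ (hol d k c).1 + wd k < 1 / 4) ∨
      (14 + 1 / 4 ≤ (hol d k c).1 ∧ (hol d k c).1 + wd k < 15) := by
  fin_cases k <;> cases c <;> norm_num [hol, bp, al, be, wd] <;>
    first | (left; constructor <;> linarith) | (right; constructor <;> linarith) | linarith |
      (constructor <;> linarith)

theorem hol_fst_sep (d : ℝ) (h1 : 47 / 100 < d) (h2 : d < 48 / 100) (k : Fin 4) :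
    (hol d k false).1 + wd k < (hol d k true).1 ∨ (hol d k true).1 + wd k < (hol d k false).1 := by
  fin_cases k <;> norm_num [hol, bp, al, be, wd] <;>
    first | (left; linarith) | (right; linarith) | linarith

theorem Aa_zero : Aa 0 = 0 := by decide
theorem La_zero : La 0 := by decide

/-- The lower left half row. -/
theorem mem_Bo_of (d : ℝ) (x : ℝ × ℝ) (h1 : 0 ≤ x.2) (h2 : x.2 < 1 / 2)
    (h3 : (0 ≤ x.1 ∧ x.1 < 1 / 4) ∨ (14 + 1 / 4 ≤ x.1 ∧ x.1 < 15)) : x ∈ Bo d := by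
  have hf : ⌊x.2⌋ = 0 := by
    rw [Int.floor_eq_iff]
    constructor
    · simpa using h1
    · push_cast; linarith
  have hfr : Int.fract x.2 = x.2 := by
    rw [Int.fract, hf]; simp
  refine ⟨h1, by linarith, Or.inl ⟨by rw [hfr]; exact h2, by rw [hf]; exact La_zero, ?_⟩⟩
  rw [hf, Aa_zero]
  unfold tooth cut
  rcases h3 with ⟨a, b⟩ | ⟨a, b⟩
  · left; constructor
    · push_cast; exact a
    · push_cast; simp; linarith
  · right; constructor
    · push_cast; simp; linarith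
    · push_cast; linarith

/-- The holes lie in the base body. -/
theorem hol_sub (d : ℝ) (h1 : 47 / 100 < d) (h2 : d < 48 / 100) (k : Fin 4) (c : Bool) :
    box (hol d k c) (wd k) (1 / 50) ⊆ Bo d := by
  rintro x ⟨a1, a2, a3, a4⟩
  rw [hol_snd] at a3 a4
  have b1 := hh_lo k
  have b2 := hh_hi k
  refine mem_Bo_of d x (by linarith) (by linarith) ?_
  rcases hol_fst d h1 h2 k c with ⟨e1, e2⟩ | ⟨e1, e2⟩
  · exact Or.inl ⟨by linarith, by linarith⟩
  · exact Or.inr ⟨by linarith, by linarith⟩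

/-- The bumps are disjoint from the base body. -/
theorem bmp_dis (d : ℝ) (k : Fin 4) (c : Bool) :
    Disjoint (box (bmp d k c) (wd k) (1 / 50)) (Bo d) := by
  rw [Set.disjoint_left]
  rintro x ⟨-, -, a3, a4⟩ ⟨b1, b2, -⟩
  have c1 := hh_lo k
  have c2 := hh_hi k
  cases c
  · rw [bmp_false_snd] at a3 a4; linarith
  · rw [bmp_true_snd] at a3 a4; linarith

/-- The holes are pairwise disjoint. -/
theorem hol_pair (d : ℝ) (h1 : 47 / 100 < d) (h2 : d < 48 / 100) (k : Fin 4) (c : Bool)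
    (k' : Fin 4) (c' : Bool) (x : ℝ × ℝ) (hx : x ∈ box (hol d k c) (wd k) (1 / 50))
    (hx' : x ∈ box (hol d k' c') (wd k') (1 / 50)) : k = k' ∧ c = c' := by
  obtain ⟨a1, a2, a3, a4⟩ := hx
  obtain ⟨b1, b2, b3, b4⟩ := hx'
  rw [hol_snd] at a3 a4 b3 b4
  have hk : k = k' := hh_sep a3 a4 b3 b4
  subst hk
  refine ⟨rfl, ?_⟩
  have := hol_fst_sep d h1 h2 k
  cases c <;> cases c' <;> first | rfl | (exfalso; rcases this with h | h <;> linarith)

/-- The bumps are pairwise disjoint. -/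
theorem bmp_pair (d : ℝ) (k : Fin 4) (c : Bool)
    (k' : Fin 4) (c' : Bool) (x : ℝ × ℝ) (hx : x ∈ box (bmp d k c) (wd k) (1 / 50))
    (hx' : x ∈ box (bmp d k' c') (wd k') (1 / 50)) : k = k' ∧ c = c' := by
  obtain ⟨-, -, a3, a4⟩ := hx
  obtain ⟨-, -, b3, b4⟩ := hx'
  have c1 := hh_lo k
  have c2 := hh_hi k
  have c3 := hh_lo k'
  have c4 := hh_hi k'
  cases c <;> cases c'
  · rw [bmp_false_snd] at a3 a4 b3 b4
    exact ⟨hh_sep (y := x.2 + 44100) (by linarith) (by linarith) (by linarith) (by linarith), rfl⟩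
  · rw [bmp_false_snd] at a3 a4
    rw [bmp_true_snd] at b3 b4
    linarith
  · rw [bmp_true_snd] at a3 a4
    rw [bmp_false_snd] at b3 b4
    linarith
  · rw [bmp_true_snd] at a3 a4 b3 b4
    exact ⟨hh_sep (y := x.2 - 44100) (by linarith) (by linarith) (by linarith) (by linarith), rfl⟩

theorem hol_disj (d : ℝ) (h1 : 47 / 100 < d) (h2 : d < 48 / 100) (k : Fin 4) (c : Bool)
    (k' : Fin 4) (c' : Bool) (h : (k, c) ≠ (k', c')) :
    Disjoint (box (hol d k c) (wd k) (1 / 50)) (box (hol d k' c') (wd k') (1 / 50)) := by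
  rw [Set.disjoint_left]
  intro x hx hx'
  obtain ⟨e1, e2⟩ := hol_pair d h1 h2 k c k' c' x hx hx'
  exact h (by rw [e1, e2])

theorem bmp_disj (d : ℝ) (k : Fin 4) (c : Bool) (k' : Fin 4) (c' : Bool) (h : (k, c) ≠ (k', c')) :
    Disjoint (box (bmp d k c) (wd k) (1 / 50)) (box (bmp d k' c') (wd k') (1 / 50)) := by
  rw [Set.disjoint_left]
  intro x hx hx'
  obtain ⟨e1, e2⟩ := bmp_pair d k c k' c' x hx hx'
  exact h (by rw [e1, e2])

theorem hol_false (d : ℝ) (k : Fin 4) : hol d k false = bp d k + al k := rfl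
theorem hol_true (d : ℝ) (k : Fin 4) : hol d k true = bp d k + be d k := rfl
theorem bmp_false (d : ℝ) (k : Fin 4) : bmp d k false = bp d k := rfl
theorem bmp_true (d : ℝ) (k : Fin 4) : bmp d k true = bp d k + al k + be d k := rfl

end Pool.Agent.CEXD
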