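import Pool.Agent.PTR.Defs

/-!
# A body which tiles the plane by translates but has no periodic tiling: definitions

`g = 44100 = 4 * 49 * 9 * 25`. The unit row `n` is cut in two half rows (layers).
-/

set_option autoImplicit false

namespace Pool.Agent.CEXD

open Pool.Agent.PTR

/-- The rows of the first layer (all integers, period `44100`). -/
def La (n : ℤ) : Prop := n % 4 < 2 ∧ n % 49 < 7 ∧ n % 3 = 0 ∧ n % 5 = 0

/-- The rows of the second layer (all integers, period `44100`). -/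
def Lb (n : ℤ) : Prop := n % 2 = 0 ∧ n % 7 = 0 ∧ n % 9 < 3 ∧ n % 25 < 5

instance (n : ℤ) : Decidable (La n) := by unfold La; infer_instance
instance (n : ℤ) : Decidable (Lb n) := by unfold Lb; infer_instance

/-- Positions of the teeth of the first layer: `0` mod `14`, and the high digits mod `3`, `5`. -/
def Aa (n : ℤ) : ℤ := (70 * (n % 9 / 3) + 126 * (n % 25 / 5)) % 210

/-- Positions of the teeth of the second layer: `0` mod `15`, and the high digits mod `2`, `7`. -/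
def Ab (n : ℤ) : ℤ := (105 * (n % 4 / 2) + 120 * (n % 49 / 7)) % 210

/-- The cut of the tooth of row `n`. -/
noncomputable def cut (d : ℝ) (n : ℤ) : ℝ := 1 / 4 + d * n / 44100

/-- The half-open tooth: `[A, A + c) ∪ [A + 14 + c, A + 15)`. -/
def tooth (A : ℤ) (c x : ℝ) : Prop := (A ≤ x ∧ x < A + c) ∨ (A + 14 + c ≤ x ∧ x < A + 15)

/-- The half-open base body (without holes and bumps). -/
def Bo (d : ℝ) : Set (ℝ × ℝ) :=
  {p | 0 ≤ p.2 ∧ p.2 < 44100 ∧
    ((Int.fract p.2 < 1 / 2 ∧ La ⌊p.2⌋ ∧ tooth (Aa ⌊p.2⌋) (cut d ⌊p.2⌋) p.1) ∨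
      (1 / 2 ≤ Int.fract p.2 ∧ Lb ⌊p.2⌋ ∧ tooth (Ab ⌊p.2⌋) (cut d ⌊p.2⌋) p.1))}

/-- The half-open box with lower left corner `z`, width `w`, height `e`. -/
def box (z : ℝ × ℝ) (w e : ℝ) : Set (ℝ × ℝ) :=
  {x | z.1 ≤ x.1 ∧ x.1 < z.1 + w ∧ z.2 ≤ x.2 ∧ x.2 < z.2 + e}

/-- The vectors `α` of the four keys. -/
noncomputable def al : Fin 4 → ℝ × ℝ := ![(0, 44100), (-14, 44100), (0, 44100), (-14, 44100)]

/-- The vectors `β` of the four keys. -/
noncomputable def be (d : ℝ) : Fin 4 → ℝ × ℝ :=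
  ![(d, 44100), (d - 15, 44100), (d - 15, 44100), (d, 44100)]

/-- The lower left corners of the first bumps. -/
noncomputable def bp (d : ℝ) : Fin 4 → ℝ × ℝ :=
  ![(144 / 10, 1 / 20 - 44100), (2935 / 100 - d, 3 / 20 - 44100), (151 / 10 - d, 5 / 20 - 44100),
    (141 / 10, 7 / 20 - 44100)]

/-- The widths of the four keys: `.03, .035, .04, .045`. -/
noncomputable def wd : Fin 4 → ℝ := ![6 / 200, 7 / 200, 8 / 200, 9 / 200]

/-- The holes: `bp k + al k` (`c = false`) and `bp k + be k` (`c = true`). -/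
noncomputable def hol (d : ℝ) (k : Fin 4) (c : Bool) : ℝ × ℝ :=
  if c then bp d k + be d k else bp d k + al k

/-- The bumps: `bp k` (`c = false`) and `bp k + al k + be k` (`c = true`). -/
noncomputable def bmp (d : ℝ) (k : Fin 4) (c : Bool) : ℝ × ℝ :=
  if c then bp d k + al k + be d k else bp d k

/-- The union of the eight half-open holes (height `1 / 50`). -/
def Ho (d : ℝ) : Set (ℝ × ℝ) := {p | ∃ k c, p ∈ box (hol d k c) (wd k) (1 / 50)}

/-- The union of the eight half-open bumps. -/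
def Bu (d : ℝ) : Set (ℝ × ℝ) := {p | ∃ k c, p ∈ box (bmp d k c) (wd k) (1 / 50)}

/-- The half-open body: base without holes, with bumps. -/
def Do (d : ℝ) : Set (ℝ × ℝ) := (Bo d \ Ho d) ∪ Bu d

/-- The two boxes of the tooth `(A, c)` in the vertical range `[s, t)`. -/
noncomputable def tb (A : ℤ) (c s t : ℝ) : Finset Box :=
  {(((A : ℝ), (A : ℝ) + c), (s, t)), (((A : ℝ) + 14 + c, (A : ℝ) + 15), (s, t))}

/-- The box of a key. -/
noncomputable def kb (z : ℝ × ℝ) (w : ℝ) : Box := ((z.1, z.1 + w), (z.2, z.2 + 1 / 50))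

/-- The boxes of the half row `(0, layer 1)`: full strips between the holes. -/
noncomputable def strips : Finset Box :=
  tb 0 (1 / 4) 0 (1 / 20) ∪ tb 0 (1 / 4) (7 / 100) (3 / 20) ∪ tb 0 (1 / 4) (17 / 100) (5 / 20) ∪
    tb 0 (1 / 4) (27 / 100) (7 / 20) ∪ tb 0 (1 / 4) (37 / 100) (1 / 2)

/-- The boxes of the half row `(0, layer 1)` beside the holes. -/
noncomputable def sides (d : ℝ) : Finset Box :=
  {((0, 1 / 4), (1 / 20, 7 / 100)),
    ((57 / 4, 144 / 10), (1 / 20, 7 / 100)),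
    ((144 / 10 + 6 / 200, 144 / 10 + d), (1 / 20, 7 / 100)),
    ((144 / 10 + d + 6 / 200, 15), (1 / 20, 7 / 100)),
    ((0, 1 / 4), (3 / 20, 17 / 100)),
    ((57 / 4, 1435 / 100), (3 / 20, 17 / 100)),
    ((1435 / 100 + 7 / 200, 1535 / 100 - d), (3 / 20, 17 / 100)),
    ((1535 / 100 - d + 7 / 200, 15), (3 / 20, 17 / 100)),
    ((0, 1 / 10), (5 / 20, 27 / 100)),
    ((1 / 10 + 8 / 200, 1 / 4), (5 / 20, 27 / 100)),
    ((57 / 4, 151 / 10 - d), (5 / 20, 27 / 100)),
    ((151 / 10 - d + 8 / 200, 15), (5 / 20, 27 / 100)),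
    ((0, 1 / 10), (7 / 20, 37 / 100)),
    ((1 / 10 + 9 / 200, 1 / 4), (7 / 20, 37 / 100)),
    ((57 / 4, 141 / 10 + d), (7 / 20, 37 / 100)),
    ((141 / 10 + d + 9 / 200, 15), (7 / 20, 37 / 100))}

/-- The eight bumps as boxes. -/
noncomputable def bumps (d : ℝ) : Finset Box :=
  (Finset.univ : Finset (Fin 4 × Bool)).image (fun q => kb (bmp d q.1 q.2) (wd q.1))

/-- All boxes of the body. -/
noncomputable def BB (d : ℝ) : Finset Box :=
  (((Finset.Ico (0 : ℤ) 44100).filter (fun n => n ≠ 0 ∧ La n)).biUnion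
      (fun n => tb (Aa n) (cut d n) n (n + 1 / 2))) ∪
    (((Finset.Ico (0 : ℤ) 44100).filter (fun n => Lb n)).biUnion
      (fun n => tb (Ab n) (cut d n) (n + 1 / 2) (n + 1))) ∪
    strips ∪ sides d ∪ bumps d

end Pool.Agent.CEXD
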