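import Mathlib
import Pool.Agent.CEX.Defs

set_option autoImplicit false

/-!
# CEX: the counting argument (N5)

The layers of the body: the rows `n` with `La n` (lower half rows) and with `Lb n` (upper half
rows). No finite family of heights covers every height exactly `14` times, or exactly `15` times.
-/

open Finset
open Pool.Agent.CEXD (La Lb)

namespace Pool.Agent.CEX

/-- The heights which meet the body, modulo `44100`. -/
def Sup (y : ℝ) : Prop := (Int.fract y < 1 / 2 ∧ La ⌊y⌋) ∨ (1 / 2 ≤ Int.fract y ∧ Lb ⌊y⌋)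

/-! ## Sums over arithmetic progressions -/

/-- A sum over a complete residue system. -/
theorem sum_ap {m : ℕ} [NeZero m] {a : ℕ} (ha : Nat.Coprime a m) (F : ℤ → ℤ)
    (hF : ∀ n, F (n % m) = F n) (N : ℤ) :
    ∑ k ∈ range m, F (N + a * k) = ∑ k ∈ range m, F k := by
  have key : ∀ f : ZMod m → ℤ, ∑ k ∈ range m, f (k : ZMod m) = ∑ z : ZMod m, f z := by
    intro f
    refine Finset.sum_nbij' (fun k => (k : ZMod m)) (fun z => z.val) ?_ ?_ ?_ ?_ ?_
    · intro k _
      exact mem_univ _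
    · intro z _
      exact mem_range.2 (ZMod.val_lt z)
    · intro k hk
      exact ZMod.val_cast_of_lt (mem_range.1 hk)
    · intro z _
      exact ZMod.natCast_zmod_val z
    · intro k _
      rfl
  have hG : ∀ n : ℤ, F n = F (((n : ZMod m).val : ℕ) : ℤ) := by
    intro n
    rw [ZMod.val_intCast, hF]
  have h1 : ∑ k ∈ range m, F (N + a * k) =
      ∑ z : ZMod m, F (((((N : ZMod m) + a * z).val : ℕ) : ℤ)) := by
    rw [← key (fun z => F (((((N : ZMod m) + a * z).val : ℕ) : ℤ)))]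
    apply Finset.sum_congr rfl
    intro k _
    rw [hG]
    push_cast
    rfl
  have h2 : ∑ k ∈ range m, F k = ∑ z : ZMod m, F ((z.val : ℕ) : ℤ) := by
    rw [← key (fun z => F ((z.val : ℕ) : ℤ))]
    apply Finset.sum_congr rfl
    intro k _
    rw [hG]
    push_cast
    rfl
  rw [h1, h2]
  have hinj : Function.Injective (fun z : ZMod m => (N : ZMod m) + a * z) := by
    intro z w hzw
    have h3 : (a : ZMod m) * z = a * w := add_left_cancel hzw
    have hu : IsUnit (a : ZMod m) := (ZMod.isUnit_iff_coprime a m).2 ha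
    exact hu.mul_left_cancel h3
  exact Function.Bijective.sum_comp ((Finite.injective_iff_bijective).1 hinj)
    (fun z : ZMod m => F ((z.val : ℕ) : ℤ))

/-! ## The counts -/

/-- A sum over a range cut in blocks. -/
theorem sum_blk (a b : ℕ) (f : ℕ → ℤ) :
    ∑ k ∈ range (a * b), f k = ∑ i ∈ range a, ∑ j ∈ range b, f (i * b + j) := by
  induction a with
  | zero => simp
  | succ a ih =>
    rw [Nat.succ_mul, Finset.sum_range_add, ih, Finset.sum_range_succ]

/-- The general count. -/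
theorem cnt_gen {m : ℕ} [NeZero m] {a : ℕ} (ha : Nat.Coprime a m) (L P Q : ℤ → Prop)
    [DecidablePred L] [DecidablePred P] [DecidablePred Q]
    (hP : ∀ n : ℤ, P (n % m) ↔ P n) (hL : ∀ (N : ℤ) (k : ℕ), L (N + a * k) ↔ Q N ∧ P (N + a * k))
    (c : ℤ) (hc : ∑ k ∈ range m, (if P k then (1 : ℤ) else 0) = c) (N : ℤ) :
    ∑ k ∈ range m, (if L (N + a * k) then (1 : ℤ) else 0) = if Q N then c else 0 := by
  have h0 : ∀ k : ℕ, (if L (N + a * k) then (1 : ℤ) else 0) =
      (if Q N then 1 else 0) * (if P (N + a * k) then (1 : ℤ) else 0) := by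
    intro k
    have e := hL N k
    by_cases h : Q N
    · by_cases h' : P (N + a * k)
      · simp [h, h', e]
      · simp [h', e]
    · simp [h, e]
  rw [Finset.sum_congr rfl (fun k _ => h0 k), ← Finset.mul_sum]
  have h1 := sum_ap (m := m) (a := a) ha (fun n : ℤ => if P n then (1 : ℤ) else 0) (by
      intro n
      have e := hP n
      by_cases h : P n
      · simp [h, e]
      · simp [h, e]) N
  have h2 : ∑ k ∈ range m, (if P (N + a * k) then (1 : ℤ) else 0) = c := by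
    rw [← hc]
    exact h1
  rw [h2]
  split_ifs <;> simp

theorem cnt1_9 (N : ℤ) :
    ∑ k ∈ range 4900, (if La (N + 9 * k) then (1 : ℤ) else 0) = if N % 3 = 0 then 70 else 0 := by
  have := cnt_gen (m := 4900) (a := 9) (by decide) La
    (fun n => n % 4 < 2 ∧ n % 49 < 7 ∧ n % 5 = 0) (fun n => n % 3 = 0)
    (by
      intro n
      have e1 : n % ((4900 : ℕ) : ℤ) % 4 = n % 4 := by omega
      have e2 : n % ((4900 : ℕ) : ℤ) % 49 = n % 49 := by omega
      have e3 : n % ((4900 : ℕ) : ℤ) % 5 = n % 5 := by omega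
      simp only [e1, e2, e3])
    (by
      intro n k
      unfold La
      have e1 : (n + ((9 : ℕ) : ℤ) * (k : ℤ)) % 3 = n % 3 := by omega
      rw [e1]
      tauto) 70 (by
      rw [show (4900 : ℕ) = 70 * 70 from rfl, sum_blk]
      decide +kernel) N
  exact this

theorem cnt2_9 (N : ℤ) :
    ∑ k ∈ range 4900, (if Lb (N + 9 * k) then (1 : ℤ) else 0) = if N % 9 < 3 then 70 else 0 := by
  have := cnt_gen (m := 4900) (a := 9) (by decide) Lb
    (fun n => n % 2 = 0 ∧ n % 7 = 0 ∧ n % 25 < 5) (fun n => n % 9 < 3)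
    (by
      intro n
      have e1 : n % ((4900 : ℕ) : ℤ) % 2 = n % 2 := by omega
      have e2 : n % ((4900 : ℕ) : ℤ) % 7 = n % 7 := by omega
      have e3 : n % ((4900 : ℕ) : ℤ) % 25 = n % 25 := by omega
      simp only [e1, e2, e3])
    (by
      intro n k
      unfold Lb
      have e1 : (n + ((9 : ℕ) : ℤ) * (k : ℤ)) % 9 = n % 9 := by omega
      rw [e1]
      tauto) 70 (by
      rw [show (4900 : ℕ) = 70 * 70 from rfl, sum_blk]
      decide +kernel) N
  exact this

theorem cnt1_4 (N : ℤ) :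
    ∑ k ∈ range 11025, (if La (N + 4 * k) then (1 : ℤ) else 0) =
      if N % 4 < 2 then 105 else 0 := by
  have := cnt_gen (m := 11025) (a := 4) (by decide) La
    (fun n => n % 49 < 7 ∧ n % 3 = 0 ∧ n % 5 = 0) (fun n => n % 4 < 2)
    (by
      intro n
      have e1 : n % ((11025 : ℕ) : ℤ) % 49 = n % 49 := by omega
      have e2 : n % ((11025 : ℕ) : ℤ) % 3 = n % 3 := by omega
      have e3 : n % ((11025 : ℕ) : ℤ) % 5 = n % 5 := by omega
      simp only [e1, e2, e3])
    (by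
      intro n k
      unfold La
      have e1 : (n + ((4 : ℕ) : ℤ) * (k : ℤ)) % 4 = n % 4 := by omega
      rw [e1]) 105 (by
      rw [show (11025 : ℕ) = 105 * 105 from rfl, sum_blk]
      decide +kernel) N
  exact this

theorem cnt2_4 (N : ℤ) :
    ∑ k ∈ range 11025, (if Lb (N + 4 * k) then (1 : ℤ) else 0) =
      if N % 2 = 0 then 105 else 0 := by
  have := cnt_gen (m := 11025) (a := 4) (by decide) Lb
    (fun n => n % 7 = 0 ∧ n % 9 < 3 ∧ n % 25 < 5) (fun n => n % 2 = 0)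
    (by
      intro n
      have e1 : n % ((11025 : ℕ) : ℤ) % 7 = n % 7 := by omega
      have e2 : n % ((11025 : ℕ) : ℤ) % 9 = n % 9 := by omega
      have e3 : n % ((11025 : ℕ) : ℤ) % 25 = n % 25 := by omega
      simp only [e1, e2, e3])
    (by
      intro n k
      unfold Lb
      have e1 : (n + ((4 : ℕ) : ℤ) * (k : ℤ)) % 2 = n % 2 := by omega
      rw [e1]) 105 (by
      rw [show (11025 : ℕ) = 105 * 105 from rfl, sum_blk]
      decide +kernel) N
  exact this

/-! ## Half rows -/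

/-- The half rows of the body: the half row `2 n` is the lower half of the row `n`. -/
def SS (m : ℤ) : Prop := (m % 2 = 0 ∧ La (m / 2)) ∨ (m % 2 = 1 ∧ Lb (m / 2))

instance : DecidablePred SS := fun n => by unfold SS; infer_instance

theorem sup_iff (z : ℝ) : Sup z ↔ SS ⌊2 * z⌋ := by
  have h1 : (⌊z⌋ : ℝ) ≤ z := Int.floor_le z
  have h2 : z < ⌊z⌋ + 1 := Int.lt_floor_add_one z
  have hf : Int.fract z = z - ⌊z⌋ := rfl
  unfold Sup SS
  by_cases h : Int.fract z < 1 / 2
  · have e : ⌊2 * z⌋ = 2 * ⌊z⌋ := by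
      rw [Int.floor_eq_iff]
      push_cast
      constructor <;> linarith
    rw [e]
    have e1 : 2 * ⌊z⌋ % 2 = 0 := by omega
    have e2 : 2 * ⌊z⌋ / 2 = ⌊z⌋ := by omega
    have h3 : ¬ (1 / 2 ≤ Int.fract z) := not_le.2 h
    have e3 : ¬ ((2 * ⌊z⌋) % 2 = 1) := by omega
    rw [e2]
    constructor
    · rintro (h4 | h4)
      · exact Or.inl ⟨e1, h4.2⟩
      · exact absurd h4.1 h3
    · rintro (h4 | h4)
      · exact Or.inl ⟨h, h4.2⟩
      · exact absurd h4.1 e3
  · have h3 : (1 / 2 ≤ Int.fract z) := not_lt.1 h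
    have e : ⌊2 * z⌋ = 2 * ⌊z⌋ + 1 := by
      rw [Int.floor_eq_iff]
      push_cast
      constructor <;> linarith
    rw [e]
    have e1 : (2 * ⌊z⌋ + 1) % 2 = 1 := by omega
    have e2 : (2 * ⌊z⌋ + 1) / 2 = ⌊z⌋ := by omega
    have e3 : ¬ ((2 * ⌊z⌋ + 1) % 2 = 0) := by omega
    rw [e2]
    constructor
    · rintro (h4 | h4)
      · exact absurd h4.1 h
      · exact Or.inr ⟨e1, h4.2⟩
    · rintro (h4 | h4)
      · exact absurd h4.1 e3
      · exact Or.inr ⟨h3, h4.2⟩

theorem cntS_18 (m : ℤ) :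
    ∑ k ∈ range 4900, (if SS (m + 18 * k) then (1 : ℤ) else 0) =
      if m % 6 = 0 ∨ m % 18 = 1 ∨ m % 18 = 3 ∨ m % 18 = 5 then 70 else 0 := by
  rcases Int.emod_two_eq_zero_or_one m with h | h
  · have h0 : ∀ k : ℕ, (if SS (m + 18 * k) then (1 : ℤ) else 0) =
        if La (m / 2 + 9 * k) then (1 : ℤ) else 0 := by
      intro k
      have e1 : (m + 18 * (k : ℤ)) % 2 = 0 := by omega
      have e2 : (m + 18 * (k : ℤ)) / 2 = m / 2 + 9 * k := by omega
      have e : SS (m + 18 * k) ↔ La (m / 2 + 9 * k) := by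
        unfold SS
        rw [e1, e2]
        simp
      by_cases h' : La (m / 2 + 9 * k)
      · rw [if_pos h', if_pos (e.2 h')]
      · rw [if_neg h', if_neg (fun h'' => h' (e.1 h''))]
    rw [Finset.sum_congr rfl (fun k _ => h0 k), cnt1_9]
    have e : m / 2 % 3 = 0 ↔ (m % 6 = 0 ∨ m % 18 = 1 ∨ m % 18 = 3 ∨ m % 18 = 5) := by omega
    by_cases h' : m / 2 % 3 = 0
    · rw [if_pos h', if_pos (e.1 h')]
    · rw [if_neg h', if_neg (fun h'' => h' (e.2 h''))]
  · have h0 : ∀ k : ℕ, (if SS (m + 18 * k) then (1 : ℤ) else 0) =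
        if Lb (m / 2 + 9 * k) then (1 : ℤ) else 0 := by
      intro k
      have e1 : (m + 18 * (k : ℤ)) % 2 = 1 := by omega
      have e2 : (m + 18 * (k : ℤ)) / 2 = m / 2 + 9 * k := by omega
      have e : SS (m + 18 * k) ↔ Lb (m / 2 + 9 * k) := by
        unfold SS
        rw [e1, e2]
        simp
      by_cases h' : Lb (m / 2 + 9 * k)
      · rw [if_pos h', if_pos (e.2 h')]
      · rw [if_neg h', if_neg (fun h'' => h' (e.1 h''))]
    rw [Finset.sum_congr rfl (fun k _ => h0 k), cnt2_9]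
    have e : m / 2 % 9 < 3 ↔ (m % 6 = 0 ∨ m % 18 = 1 ∨ m % 18 = 3 ∨ m % 18 = 5) := by omega
    by_cases h' : m / 2 % 9 < 3
    · rw [if_pos h', if_pos (e.1 h')]
    · rw [if_neg h', if_neg (fun h'' => h' (e.2 h''))]

theorem cntS_8 (m : ℤ) :
    ∑ k ∈ range 11025, (if SS (m + 8 * k) then (1 : ℤ) else 0) =
      if m % 8 = 0 ∨ m % 8 = 2 ∨ m % 8 = 1 ∨ m % 8 = 5 then 105 else 0 := by
  rcases Int.emod_two_eq_zero_or_one m with h | h
  · have h0 : ∀ k : ℕ, (if SS (m + 8 * k) then (1 : ℤ) else 0) =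
        if La (m / 2 + 4 * k) then (1 : ℤ) else 0 := by
      intro k
      have e1 : (m + 8 * (k : ℤ)) % 2 = 0 := by omega
      have e2 : (m + 8 * (k : ℤ)) / 2 = m / 2 + 4 * k := by omega
      have e : SS (m + 8 * k) ↔ La (m / 2 + 4 * k) := by
        unfold SS
        rw [e1, e2]
        simp
      by_cases h' : La (m / 2 + 4 * k)
      · rw [if_pos h', if_pos (e.2 h')]
      · rw [if_neg h', if_neg (fun h'' => h' (e.1 h''))]
    rw [Finset.sum_congr rfl (fun k _ => h0 k), cnt1_4]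
    have e : m / 2 % 4 < 2 ↔ (m % 8 = 0 ∨ m % 8 = 2 ∨ m % 8 = 1 ∨ m % 8 = 5) := by omega
    by_cases h' : m / 2 % 4 < 2
    · rw [if_pos h', if_pos (e.1 h')]
    · rw [if_neg h', if_neg (fun h'' => h' (e.2 h''))]
  · have h0 : ∀ k : ℕ, (if SS (m + 8 * k) then (1 : ℤ) else 0) =
        if Lb (m / 2 + 4 * k) then (1 : ℤ) else 0 := by
      intro k
      have e1 : (m + 8 * (k : ℤ)) % 2 = 1 := by omega
      have e2 : (m + 8 * (k : ℤ)) / 2 = m / 2 + 4 * k := by omega
      have e : SS (m + 8 * k) ↔ Lb (m / 2 + 4 * k) := by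
        unfold SS
        rw [e1, e2]
        simp
      by_cases h' : Lb (m / 2 + 4 * k)
      · rw [if_pos h', if_pos (e.2 h')]
      · rw [if_neg h', if_neg (fun h'' => h' (e.1 h''))]
    rw [Finset.sum_congr rfl (fun k _ => h0 k), cnt2_4]
    have e : m / 2 % 2 = 0 ↔ (m % 8 = 0 ∨ m % 8 = 2 ∨ m % 8 = 1 ∨ m % 8 = 5) := by omega
    by_cases h' : m / 2 % 2 = 0
    · rw [if_pos h', if_pos (e.1 h')]
    · rw [if_neg h', if_neg (fun h'' => h' (e.2 h''))]

/-! ## No uniform cover -/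

/-- No finite family of half rows is covered exactly `14` times. -/
theorem no14z {ι : Type*} [Fintype ι] (κ : ι → ℤ)
    (H : ∀ j : ℤ, (univ.filter fun i => SS (κ i + j)).card = 14) : False := by
  have H1 : ∀ j : ℤ, ∑ i : ι, (if SS (κ i + j) then (1 : ℤ) else 0) = 14 := by
    intro j
    rw [Finset.sum_boole, H j]
    rfl
  have H2 : ∀ j : ℤ, ∑ i : ι, (if (κ i + j) % 6 = 0 ∨ (κ i + j) % 18 = 1 ∨ (κ i + j) % 18 = 3 ∨
      (κ i + j) % 18 = 5 then (70 : ℤ) else 0) = 68600 := by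
    intro j
    have h1 : ∑ i : ι, (if (κ i + j) % 6 = 0 ∨ (κ i + j) % 18 = 1 ∨ (κ i + j) % 18 = 3 ∨
        (κ i + j) % 18 = 5 then (70 : ℤ) else 0) =
        ∑ i : ι, ∑ k ∈ range 4900, (if SS (κ i + (j + 18 * k)) then (1 : ℤ) else 0) := by
      apply Finset.sum_congr rfl
      intro i _
      rw [← cntS_18]
      apply Finset.sum_congr rfl
      intro k _
      rw [add_assoc]
    rw [h1, Finset.sum_comm, Finset.sum_congr rfl (fun (k : ℕ) _ => H1 (j + 18 * (k : ℤ)))]
    simp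
  obtain ⟨c, hc⟩ : ∃ c : ℤ → ℤ, ∀ r, c r = ∑ i : ι, (if κ i % 18 = r then (1 : ℤ) else 0) :=
    ⟨_, fun _ => rfl⟩
  have H3 : ∀ j : ℤ, c ((0 - j) % 18) + c ((6 - j) % 18) + c ((12 - j) % 18) +
      c ((1 - j) % 18) + c ((3 - j) % 18) + c ((5 - j) % 18) = 980 := by
    intro j
    have h2 := H2 j
    have h3 : ∑ i : ι, (if (κ i + j) % 6 = 0 ∨ (κ i + j) % 18 = 1 ∨ (κ i + j) % 18 = 3 ∨
        (κ i + j) % 18 = 5 then (70 : ℤ) else 0) =
        70 * (c ((0 - j) % 18) + c ((6 - j) % 18) + c ((12 - j) % 18) +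
      c ((1 - j) % 18) + c ((3 - j) % 18) + c ((5 - j) % 18)) := by
      simp only [hc, ← Finset.sum_add_distrib, Finset.mul_sum]
      apply Finset.sum_congr rfl
      intro i _
      obtain ⟨a, ha⟩ : ∃ a, a = κ i := ⟨_, rfl⟩
      rw [← ha]
      split_ifs <;> omega
    omega
  have k0 := H3 0
  have k1 := H3 1
  have k2 := H3 2
  have k3 := H3 3
  have k4 := H3 4
  have k5 := H3 5
  have k6 := H3 6
  have k7 := H3 7
  have k8 := H3 8
  have k9 := H3 9
  have k10 := H3 10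
  have k11 := H3 11
  have k12 := H3 12
  have k13 := H3 13
  have k14 := H3 14
  have k15 := H3 15
  have k16 := H3 16
  have k17 := H3 17
  norm_num at k0 k1 k2 k3 k4 k5 k6 k7 k8 k9 k10 k11 k12 k13 k14 k15 k16 k17
  clear H H1 H2 H3 hc
  omega

/-- No finite family of half rows is covered exactly `15` times. -/
theorem no15z {ι : Type*} [Fintype ι] (κ : ι → ℤ)
    (H : ∀ j : ℤ, (univ.filter fun i => SS (κ i + j)).card = 15) : False := by
  have H1 : ∀ j : ℤ, ∑ i : ι, (if SS (κ i + j) then (1 : ℤ) else 0) = 15 := by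
    intro j
    rw [Finset.sum_boole, H j]
    rfl
  have H2 : ∀ j : ℤ, ∑ i : ι, (if (κ i + j) % 8 = 0 ∨ (κ i + j) % 8 = 2 ∨ (κ i + j) % 8 = 1 ∨
      (κ i + j) % 8 = 5 then (105 : ℤ) else 0) = 165375 := by
    intro j
    have h1 : ∑ i : ι, (if (κ i + j) % 8 = 0 ∨ (κ i + j) % 8 = 2 ∨ (κ i + j) % 8 = 1 ∨
        (κ i + j) % 8 = 5 then (105 : ℤ) else 0) =
        ∑ i : ι, ∑ k ∈ range 11025, (if SS (κ i + (j + 8 * k)) then (1 : ℤ) else 0) := by
      apply Finset.sum_congr rfl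
      intro i _
      rw [← cntS_8]
      apply Finset.sum_congr rfl
      intro k _
      rw [add_assoc]
    rw [h1, Finset.sum_comm, Finset.sum_congr rfl (fun (k : ℕ) _ => H1 (j + 8 * (k : ℤ)))]
    simp
  obtain ⟨c, hc⟩ : ∃ c : ℤ → ℤ, ∀ r, c r = ∑ i : ι, (if κ i % 8 = r then (1 : ℤ) else 0) :=
    ⟨_, fun _ => rfl⟩
  have H3 : ∀ j : ℤ, c ((0 - j) % 8) + c ((2 - j) % 8) + c ((1 - j) % 8) +
      c ((5 - j) % 8) = 1575 := by
    intro j
    have h2 := H2 j
    have h3 : ∑ i : ι, (if (κ i + j) % 8 = 0 ∨ (κ i + j) % 8 = 2 ∨ (κ i + j) % 8 = 1 ∨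
        (κ i + j) % 8 = 5 then (105 : ℤ) else 0) =
        105 * (c ((0 - j) % 8) + c ((2 - j) % 8) + c ((1 - j) % 8) + c ((5 - j) % 8)) := by
      simp only [hc, ← Finset.sum_add_distrib, Finset.mul_sum]
      apply Finset.sum_congr rfl
      intro i _
      obtain ⟨a, ha⟩ : ∃ a, a = κ i := ⟨_, rfl⟩
      rw [← ha]
      split_ifs <;> omega
    omega
  have k0 := H3 0
  have k1 := H3 1
  have k2 := H3 2
  have k3 := H3 3
  have k4 := H3 4
  have k5 := H3 5
  have k6 := H3 6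
  have k7 := H3 7
  norm_num at k0 k1 k2 k3 k4 k5 k6 k7
  clear H H1 H2 H3 hc
  omega

open Classical in
/-- No finite family of heights covers each height `y0 + j / 2` exactly `14` times. -/
theorem no14 {ι : Type*} [Fintype ι] (h : ι → ℝ) (y0 : ℝ)
    (H : ∀ j : ℤ, (univ.filter fun i => Sup (y0 + j / 2 - h i)).card = 14) : False := by
  apply no14z (fun i => ⌊2 * (y0 - h i)⌋)
  intro j
  rw [← H j]
  congr 1
  ext i
  simp only [mem_filter, mem_univ, true_and]
  rw [sup_iff]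
  have e : 2 * (y0 + (j : ℝ) / 2 - h i) = 2 * (y0 - h i) + (j : ℤ) := by ring
  rw [e, Int.floor_add_intCast]

open Classical in
/-- No finite family of heights covers each height `y0 + j / 2` exactly `15` times. -/
theorem no15 {ι : Type*} [Fintype ι] (h : ι → ℝ) (y0 : ℝ)
    (H : ∀ j : ℤ, (univ.filter fun i => Sup (y0 + j / 2 - h i)).card = 15) : False := by
  apply no15z (fun i => ⌊2 * (y0 - h i)⌋)
  intro j
  rw [← H j]
  congr 1
  ext i
  simp only [mem_filter, mem_univ, true_and]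
  rw [sup_iff]
  have e : 2 * (y0 + (j : ℝ) / 2 - h i) = 2 * (y0 - h i) + (j : ℤ) := by ring
  rw [e, Int.floor_add_intCast]

end Pool.Agent.CEX
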