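import Pool.Agent.CEX.Data

/-!
# CEX: the finite data, lemmas (row 2855)

`data01`, `data02`, `data11`, `data12`: in every row the teeth of the strand of period `14` cover
every residue modulo `14` exactly once if the row is a `Y` row and never otherwise; the teeth of the
strand of period `15` cover the other rows.
-/

set_option autoImplicit false

namespace Pool.Agent.CEX

theorem rotl_testBit {M n x : ℕ} (hM : M < 2 ^ 44100) (hn : n ≤ 44100) (hx : x < 44100) :
    (rotl M n).testBit x = M.testBit ((x + (44100 - n)) % 44100) := by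
  unfold rotl
  rw [Nat.testBit_mod_two_pow, Nat.testBit_or, Nat.testBit_shiftLeft, Nat.testBit_shiftRight]
  rcases Nat.lt_or_ge x n with h | h
  · have e : (x + (44100 - n)) % 44100 = 44100 - n + x := by omega
    rw [e]
    simp [hx, Nat.not_le.mpr h]
  · have e : (x + (44100 - n)) % 44100 = x - n := by omega
    have hf : M.testBit (44100 - n + x) = false := by
      apply Nat.testBit_lt_two_pow
      exact lt_of_lt_of_le hM (Nat.pow_le_pow_right (by norm_num) (by omega))
    rw [e, hf]
    simp [hx, h]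

theorem chk_spec : ∀ (l : List (ℕ × ℕ)) (acc Y : ℕ), chk l acc Y = true → ∀ x : ℕ,
    l.countP (fun p => (rotl p.1 p.2).testBit x) + (if acc.testBit x then 1 else 0) =
      if Y.testBit x then 1 else 0
  | [], acc, Y, h, x => by
    have e : acc = Y := by simpa [chk] using h
    subst e
    simp
  | p :: l, acc, Y, h, x => by
    rw [chk, Bool.and_eq_true] at h
    have h0 : acc &&& rotl p.1 p.2 = 0 := by simpa using h.1
    have ih := chk_spec l _ Y h.2 x
    have hb : (acc.testBit x && (rotl p.1 p.2).testBit x) = false := by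
      rw [← Nat.testBit_and, h0, Nat.zero_testBit]
    rw [List.countP_cons, ← ih, Nat.testBit_or]
    rcases Bool.eq_false_or_eq_true (acc.testBit x) with ha | ha <;>
      rcases Bool.eq_false_or_eq_true ((rotl p.1 p.2).testBit x) with hr | hr <;>
      simp [ha, hr] at hb ⊢

/-- The sets of positions of the strand of period `14` (first coordinate modulo `14`, second one
modulo `44100`). -/
def tt0 (m x : ℤ) : Bool := (R0.getD (m % 14).toNat 0).testBit (x % 44100).toNat

/-- The sets of positions of the strand of period `15`. -/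
def tt1 (m x : ℤ) : Bool := (R1.getD (m % 15).toNat 0).testBit (x % 44100).toNat

/-- The rows of layer 1 covered by the strand of period `14`. -/
def Y1 (x : ℤ) : Bool := Y1m.testBit (x % 44100).toNat

/-- The rows of layer 2 covered by the strand of period `14`. -/
def Y2 (x : ℤ) : Bool := Y2m.testBit (x % 44100).toNat

theorem L1_bd : ∀ p ∈ L1, p.1 < 44100 ∧ p.2 < 210 := by decide +kernel
theorem L2_bd : ∀ p ∈ L2, p.1 < 44100 ∧ p.2 < 210 := by decide +kernel
theorem R0_bd : (R0.all fun M => M < 2 ^ 44100) = true := by decide +kernel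
theorem R1_bd : (R1.all fun M => M < 2 ^ 44100) = true := by decide +kernel

theorem getD_lt {R : List ℕ} (h : (R.all fun M => M < 2 ^ 44100) = true) (k : ℕ) :
    R.getD k 0 < 2 ^ 44100 := by
  rw [List.getD_eq_getElem?_getD]
  rcases Nat.lt_or_ge k R.length with hk | hk
  · rw [List.getElem?_eq_getElem hk, Option.getD_some]
    rw [List.all_eq_true] at h
    exact of_decide_eq_true (h _ (List.getElem_mem hk))
  · rw [List.getElem?_eq_none hk, Option.getD_none]
    exact Nat.two_pow_pos _

/-- The general form. -/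
theorem data_gen {R : List ℕ} {P : ℕ} {L : List (ℕ × ℕ)} {Y : ℕ} (hP : 0 < P) (hd : P ∣ 210)
    (hR : (R.all fun M => M < 2 ^ 44100) = true) (hL : ∀ p ∈ L, p.1 < 44100 ∧ p.2 < 210)
    (hc : ((List.range P).all fun m => chk (sel R P L m) 0 Y) = true) (m x : ℤ) :
    L.countP (fun p => (R.getD ((m - (p.2 : ℤ)) % (P : ℤ)).toNat 0).testBit
      ((x - (p.1 : ℤ)) % 44100).toNat) = if Y.testBit (x % 44100).toNat then 1 else 0 := by
  obtain ⟨k, hk⟩ := hd
  rw [List.all_eq_true] at hc
  have hm0 : 0 ≤ m % (P : ℤ) := Int.emod_nonneg _ (by omega)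
  have hm1 : m % (P : ℤ) < P := Int.emod_lt_of_pos _ (by omega)
  have h := chk_spec _ _ _ (hc (m % (P : ℤ)).toNat (List.mem_range.mpr (by omega)))
    (x % 44100).toNat
  rw [Nat.zero_testBit] at h
  simp only [Bool.false_eq_true, if_false, Nat.add_zero] at h
  rw [← h, sel, List.countP_map]
  apply List.countP_congr
  intro p hp
  have hb := hL p hp
  have hx : (x % 44100).toNat < 44100 := by omega
  simp only [Function.comp]
  rw [rotl_testBit (getD_lt hR _) hb.1.le hx]
  have e1 : ((x - (p.1 : ℤ)) % 44100).toNat = ((x % 44100).toNat + (44100 - p.1)) % 44100 := by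
    omega
  have e2 : ((m - (p.2 : ℤ)) % (P : ℤ)).toNat = ((m % (P : ℤ)).toNat + (210 - p.2)) % P := by
    have : ((m - (p.2 : ℤ)) % (P : ℤ)) =
        (((m % (P : ℤ)).toNat + (210 - p.2) : ℕ) : ℤ) % (P : ℤ) := by
      have e3 : (((m % (P : ℤ)).toNat + (210 - p.2) : ℕ) : ℤ) = m - p.2 + P * (k - m / P) := by
        have h5 : (210 : ℤ) = P * k := by exact_mod_cast hk
        have h6 := Int.mul_ediv_add_emod m (P : ℤ)
        push_cast [Nat.cast_sub hb.2.le]
        rw [Int.toNat_of_nonneg hm0]
        linear_combination h5 + h6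
      rw [e3, Int.add_mul_emod_self_left]
    rw [this, ← Int.natCast_mod, Int.toNat_natCast]
  rw [e1, e2]

theorem Fm_testBit {x : ℕ} (hx : x < 44100) : Fm.testBit x = true := by
  rw [Fm, Nat.testBit_two_pow_sub_one]
  simpa using hx

theorem data01 (m x : ℤ) : L1.countP (fun p => tt0 (m - (p.2 : ℤ)) (x - (p.1 : ℤ))) =
    if Y1 x then 1 else 0 :=
  data_gen (P := 14) (by norm_num) (by norm_num) R0_bd L1_bd chk01 m x

theorem data02 (m x : ℤ) : L2.countP (fun p => tt0 (m - (p.2 : ℤ)) (x - (p.1 : ℤ))) =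
    if Y2 x then 1 else 0 :=
  data_gen (P := 14) (by norm_num) (by norm_num) R0_bd L2_bd chk02 m x

theorem data11 (m x : ℤ) : L1.countP (fun p => tt1 (m - (p.2 : ℤ)) (x - (p.1 : ℤ))) =
    if Y1 x then 0 else 1 := by
  have h := data_gen (P := 15) (by norm_num) (by norm_num) R1_bd L1_bd chk11 m x
  have hx : (x % 44100).toNat < 44100 := by omega
  rw [Nat.testBit_xor, Fm_testBit hx] at h
  refine Eq.trans h ?_
  unfold Y1
  cases Y1m.testBit (x % 44100).toNat <;> rfl

theorem data12 (m x : ℤ) : L2.countP (fun p => tt1 (m - (p.2 : ℤ)) (x - (p.1 : ℤ))) =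
    if Y2 x then 0 else 1 := by
  have h := data_gen (P := 15) (by norm_num) (by norm_num) R1_bd L2_bd chk12 m x
  have hx : (x % 44100).toNat < 44100 := by omega
  rw [Nat.testBit_xor, Fm_testBit hx] at h
  refine Eq.trans h ?_
  unfold Y2
  cases Y2m.testBit (x % 44100).toNat <;> rfl

/-! ## Periods -/

theorem tt0_left (m x k : ℤ) : tt0 (m + 14 * k) x = tt0 m x := by
  unfold tt0; rw [Int.add_mul_emod_self_left]

theorem tt0_right (m x k : ℤ) : tt0 m (x + 44100 * k) = tt0 m x := by
  unfold tt0; rw [Int.add_mul_emod_self_left]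

theorem tt1_left (m x k : ℤ) : tt1 (m + 15 * k) x = tt1 m x := by
  unfold tt1; rw [Int.add_mul_emod_self_left]

theorem tt1_right (m x k : ℤ) : tt1 m (x + 44100 * k) = tt1 m x := by
  unfold tt1; rw [Int.add_mul_emod_self_left]

/-! ## Rows -/

theorem L1_nodup : (L1.map Prod.fst).Nodup := by decide +kernel
theorem L2_nodup : (L2.map Prod.fst).Nodup := by decide +kernel
theorem L1_mem0 : (0, 0) ∈ L1 := by decide +kernel
theorem L2_mem0 : (0, 0) ∈ L2 := by decide +kernel
theorem L1_length : L1.length = 210 := by decide +kernel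
theorem L2_length : L2.length = 210 := by decide +kernel

theorem L1_mod9 : ∀ r < 9, L1.countP (fun p => p.1 % 9 = r) =
    if r = 0 ∨ r = 3 ∨ r = 6 then 70 else 0 := by decide +kernel
theorem L2_mod9 : ∀ r < 9, L2.countP (fun p => p.1 % 9 = r) =
    if r = 0 ∨ r = 1 ∨ r = 2 then 70 else 0 := by decide +kernel
theorem L1_mod4 : ∀ r < 4, L1.countP (fun p => p.1 % 4 = r) =
    if r = 0 ∨ r = 1 then 105 else 0 := by decide +kernel
theorem L2_mod4 : ∀ r < 4, L2.countP (fun p => p.1 % 4 = r) =
    if r = 0 ∨ r = 2 then 105 else 0 := by decide +kernel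

end Pool.Agent.CEX
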