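import Pool.Agent.CEX.Data
import Pool.Agent.CEX.Defs

/-!
# The lists `L1`, `L2` of the finite data are the predicates `La`, `Lb` (and `Aa`, `Ab`)
-/

set_option autoImplicit false

namespace Pool.Agent.CEXD

/-- `test` holds on `[s, s + 2 ^ d)`. -/
def chkI (test : ℕ → Bool) : ℕ → ℕ → Bool
  | 0, s => test s
  | d + 1, s => chkI test d s && chkI test d (s + 2 ^ d)

theorem chkI_spec {test : ℕ → Bool} : ∀ {d s : ℕ}, chkI test d s = true →
    ∀ n, s ≤ n → n < s + 2 ^ d → test n = true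
  | 0, s, h, n, h1, h2 => by
    have e : n = s := by
      rw [pow_zero] at h2
      omega
    rw [e]
    exact h
  | d + 1, s, h, n, h1, h2 => by
    rw [chkI, Bool.and_eq_true] at h
    rw [pow_succ] at h2
    rcases Nat.lt_or_ge n (s + 2 ^ d) with h3 | h3
    · exact chkI_spec h.1 n h1 h3
    · exact chkI_spec h.2 n h3 (by omega)

/-- The pair `(n, a)` is in the list. -/
def memB (n a : ℕ) : List (ℕ × ℕ) → Bool
  | [] => false
  | p :: l => (Nat.beq p.1 n && Nat.beq p.2 a) || memB n a l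

theorem memB_spec {n a : ℕ} : ∀ {l : List (ℕ × ℕ)}, memB n a l = true → (n, a) ∈ l
  | [], h => by simp [memB] at h
  | p :: l, h => by
    rw [memB, Bool.or_eq_true, Bool.and_eq_true] at h
    rcases h with ⟨h1, h2⟩ | h
    · have e1 := Nat.eq_of_beq_eq_true h1
      have e2 := Nat.eq_of_beq_eq_true h2
      have e : (n, a) = p := by
        rw [← e1, ← e2]
      rw [e]
      exact List.mem_cons_self
    · exact List.mem_cons_of_mem _ (memB_spec h)

/-- Test for the first layer, `n = 15 m`. -/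
def tst1 (m : ℕ) : Bool :=
  !(Nat.blt (15 * m) 44100 && (Nat.blt (15 * m % 4) 2 && Nat.blt (15 * m % 49) 7)) ||
    memB (15 * m) ((70 * (15 * m % 9 / 3) + 126 * (15 * m % 25 / 5)) % 210) CEX.L1

/-- Test for the second layer, `n = 14 m`. -/
def tst2 (m : ℕ) : Bool :=
  !(Nat.blt (14 * m) 44100 && (Nat.blt (14 * m % 9) 3 && Nat.blt (14 * m % 25) 5)) ||
    memB (14 * m) ((105 * (14 * m % 4 / 2) + 120 * (14 * m % 49 / 7)) % 210) CEX.L2

theorem tst1_all : chkI tst1 12 0 = true := by decide +kernel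

theorem tst2_all : chkI tst2 12 0 = true := by decide +kernel

theorem L1_sub : ∀ p ∈ CEX.L1, p.1 < 44100 ∧ La p.1 ∧ (p.2 : ℤ) = Aa p.1 := by
  unfold Aa
  decide +kernel

theorem L2_sub : ∀ p ∈ CEX.L2, p.1 < 44100 ∧ Lb p.1 ∧ (p.2 : ℤ) = Ab p.1 := by
  unfold Ab
  decide +kernel

/-- The list `L1` consists of the pairs `(n, Aa n)`, `n < 44100` in the first layer. -/
theorem mem_L1 (n a : ℕ) : (n, a) ∈ CEX.L1 ↔ (n < 44100 ∧ La n ∧ (a : ℤ) = Aa n) := by
  constructor
  · intro h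
    exact L1_sub _ h
  · rintro ⟨h1, ⟨h2, h3, h4, h5⟩, h6⟩
    obtain ⟨m, rfl⟩ : ∃ m, n = 15 * m := ⟨n / 15, by omega⟩
    have ha : a = (70 * (15 * m % 9 / 3) + 126 * (15 * m % 25 / 5)) % 210 := by
      unfold Aa at h6
      push_cast at h6
      omega
    have ht := chkI_spec tst1_all m (by omega) (by omega)
    unfold tst1 at ht
    rw [Bool.or_eq_true, Bool.not_eq_true', ← ha] at ht
    rcases ht with ht | ht
    · exfalso
      have e1 : Nat.blt (15 * m) 44100 = true := by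
        rw [Nat.blt_eq]; exact h1
      have e2 : Nat.blt (15 * m % 4) 2 = true := by
        rw [Nat.blt_eq]; omega
      have e3 : Nat.blt (15 * m % 49) 7 = true := by
        rw [Nat.blt_eq]; omega
      rw [e1, e2, e3] at ht
      simp at ht
    · exact memB_spec ht

/-- The list `L2` consists of the pairs `(n, Ab n)`, `n < 44100` in the second layer. -/
theorem mem_L2 (n a : ℕ) : (n, a) ∈ CEX.L2 ↔ (n < 44100 ∧ Lb n ∧ (a : ℤ) = Ab n) := by
  constructor
  · intro h
    exact L2_sub _ h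
  · rintro ⟨h1, ⟨h2, h3, h4, h5⟩, h6⟩
    obtain ⟨m, rfl⟩ : ∃ m, n = 14 * m := ⟨n / 14, by omega⟩
    have ha : a = (105 * (14 * m % 4 / 2) + 120 * (14 * m % 49 / 7)) % 210 := by
      unfold Ab at h6
      push_cast at h6
      omega
    have ht := chkI_spec tst2_all m (by omega) (by omega)
    unfold tst2 at ht
    rw [Bool.or_eq_true, Bool.not_eq_true', ← ha] at ht
    rcases ht with ht | ht
    · exfalso
      have e1 : Nat.blt (14 * m) 44100 = true := by
        rw [Nat.blt_eq]; exact h1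
      have e2 : Nat.blt (14 * m % 9) 3 = true := by
        rw [Nat.blt_eq]; omega
      have e3 : Nat.blt (14 * m % 25) 5 = true := by
        rw [Nat.blt_eq]; omega
      rw [e1, e2, e3] at ht
      simp at ht
    · exact memB_spec ht

theorem Aa_bd (n : ℤ) : 0 ≤ Aa n ∧ Aa n < 210 := by
  unfold Aa
  omega

theorem Ab_bd (n : ℤ) : 0 ≤ Ab n ∧ Ab n < 210 := by
  unfold Ab
  omega

/-- Integer form of `mem_L1`. -/
theorem mem_L1_int {n : ℤ} (h0 : 0 ≤ n) (h1 : n < 44100) (h : La n) :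
    (n.toNat, (Aa n).toNat) ∈ CEX.L1 := by
  rw [mem_L1, Int.toNat_of_nonneg h0, Int.toNat_of_nonneg (Aa_bd n).1]
  exact ⟨by omega, h, rfl⟩

/-- Integer form of `mem_L2`. -/
theorem mem_L2_int {n : ℤ} (h0 : 0 ≤ n) (h1 : n < 44100) (h : Lb n) :
    (n.toNat, (Ab n).toNat) ∈ CEX.L2 := by
  rw [mem_L2, Int.toNat_of_nonneg h0, Int.toNat_of_nonneg (Ab_bd n).1]
  exact ⟨by omega, h, rfl⟩

end Pool.Agent.CEXD
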