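import Pool.Agent.CEX.DataL
import Pool.Agent.CEX.Mem
import Pool.Agent.CEX.NoPer

/-!
# CEX: the exact cover by the half-open base body (row 2855, item 6)
-/

set_option autoImplicit false

namespace Pool.Agent.CEX

open Pool.Agent.PTR.OL (V ii)
open Pool.Agent.PTR (ECov)

/-- The split point of the tooth of the row `n`. -/
noncomputable def cn (d : ℝ) (n : ℕ) : ℝ := 1 / 4 + d * n / 44100

/-- A tooth: modulo `14` it is `[A, A + 1)`, modulo `15` it is `[A + c - 1, A + c)`. -/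
def toothS (A c : ℝ) : Set ℝ := {x | (A ≤ x ∧ x < A + c) ∨ (A + 14 + c ≤ x ∧ x < A + 15)}

/-- The strand of period `14`. -/
def TS0 : Set V := {t | ∃ m h : ℤ, tt0 m h = true ∧ t = ((m : ℝ), (h : ℝ))}

/-- The strand of period `15`. -/
def TS1 (d : ℝ) : Set V := {t | ∃ m h : ℤ, tt1 m h = true ∧ t = (m + d * h / 44100, (h : ℝ))}

/-- The translation set. -/
def TS (d : ℝ) : Set V := TS0 ∪ TS1 d

theorem count_one {L : List (ℕ × ℕ)} {P : ℕ × ℕ → Bool} (h : L.countP P = 1) :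
    ∃ p ∈ L, P p = true ∧ ∀ q ∈ L, P q = true → q = p := by
  rw [List.countP_eq_length_filter] at h
  obtain ⟨p, hp⟩ := List.length_eq_one_iff.mp h
  have hp' : p ∈ L.filter P := by rw [hp]; exact List.mem_singleton_self p
  rw [List.mem_filter] at hp'
  refine ⟨p, hp'.1, hp'.2, fun q hq hPq => ?_⟩
  have : q ∈ L.filter P := List.mem_filter.mpr ⟨hq, hPq⟩
  rw [hp] at this
  exact List.mem_singleton.mp this

theorem count_zero {L : List (ℕ × ℕ)} {P : ℕ × ℕ → Bool} (h : L.countP P = 0) :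
    ∀ q ∈ L, P q = true → False := by
  intro q hq hPq
  rw [List.countP_eq_zero] at h
  exact h q hq hPq

/-- A point in a tooth of the strand of period `14`. -/
theorem mem14 {X : ℝ} {m : ℤ} {A : ℕ} {c : ℝ} (hc1 : c ≤ 1) (hc0 : 0 ≤ c)
    (h : X - m ∈ toothS A c) :
    (m = ⌊X⌋ - A ∧ X - ⌊X⌋ < c) ∨ (m = ⌊X⌋ - A - 14 ∧ c ≤ X - ⌊X⌋) := by
  rcases h with ⟨h1, h2⟩ | ⟨h1, h2⟩
  · have e : ⌊X⌋ = m + A := by
      rw [Int.floor_eq_iff]; push_cast; constructor <;> linarith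
    left
    refine ⟨by omega, ?_⟩
    rw [e]; push_cast; linarith
  · have e : ⌊X⌋ = m + A + 14 := by
      rw [Int.floor_eq_iff]; push_cast; constructor <;> linarith
    right
    refine ⟨by omega, ?_⟩
    rw [e]; push_cast; linarith

/-- A point in a tooth of the strand of period `15`; `Z` is the position in the row. -/
theorem mem15 {Z : ℝ} {m : ℤ} {A : ℕ} {c : ℝ} (hc1 : c ≤ 1) (hc0 : 0 ≤ c)
    (h : Z - 1 + c - m ∈ toothS A c) :
    (m = ⌊Z⌋ - A ∧ 1 - c ≤ Z - ⌊Z⌋) ∨ (m = ⌊Z⌋ - A - 15 ∧ Z - ⌊Z⌋ < 1 - c) := by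
  rcases h with ⟨h1, h2⟩ | ⟨h1, h2⟩
  · have e : ⌊Z⌋ = m + A := by
      rw [Int.floor_eq_iff]; push_cast; constructor <;> linarith
    left
    refine ⟨by omega, ?_⟩
    rw [e]; push_cast; linarith
  · have e : ⌊Z⌋ = m + A + 15 := by
      rw [Int.floor_eq_iff]; push_cast; constructor <;> linarith
    right
    refine ⟨by omega, ?_⟩
    rw [e]; push_cast; linarith

theorem cn_bd {d : ℝ} (hd0 : 0 ≤ d) (hd1 : d ≤ 3 / 4) {n : ℕ} (hn : n < 44100) :
    0 ≤ cn d n ∧ cn d n ≤ 1 := by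
  have h0 : (0 : ℝ) ≤ n := Nat.cast_nonneg n
  have h1 : (n : ℝ) ≤ 44100 := by exact_mod_cast hn.le
  unfold cn
  have h2 : 0 ≤ d * n / 44100 := by positivity
  have h3 : d * n / 44100 ≤ 3 / 4 := by
    rw [div_le_iff₀ (by norm_num)]
    nlinarith
  constructor <;> linarith

/-- One row. -/
theorem row {d : ℝ} (hd0 : 0 ≤ d) (hd1 : d ≤ 3 / 4) {L : List (ℕ × ℕ)} {Y : ℤ → Bool}
    (hL : ∀ p ∈ L, p.1 < 44100 ∧ p.2 < 210)
    (h0 : ∀ m x : ℤ, L.countP (fun p => tt0 (m - (p.2 : ℤ)) (x - (p.1 : ℤ))) =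
      if Y x then 1 else 0)
    (h1 : ∀ m x : ℤ, L.countP (fun p => tt1 (m - (p.2 : ℤ)) (x - (p.1 : ℤ))) =
      if Y x then 0 else 1) (X : ℝ) (N : ℤ) :
    ∃! t : V, t ∈ TS d ∧ ∃ p ∈ L, t.2 = N - p.1 ∧ X - t.1 ∈ toothS p.2 (cn d p.1) := by
  -- the reduction of a tile to the integer data
  have red0 : ∀ t : V, t ∈ TS0 → ∀ p ∈ L, t.2 = N - p.1 → X - t.1 ∈ toothS p.2 (cn d p.1) →
      tt0 (⌊X⌋ - (p.2 : ℤ)) (N - (p.1 : ℤ)) = true ∧
      t = (if X - ⌊X⌋ < cn d p.1 then (((⌊X⌋ - p.2 : ℤ) : ℝ), ((N - p.1 : ℤ) : ℝ))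
        else (((⌊X⌋ - p.2 - 14 : ℤ) : ℝ), ((N - p.1 : ℤ) : ℝ))) := by
    rintro t ⟨m, h, ht, rfl⟩ p hp h2 h3
    have hb := cn_bd hd0 hd1 (hL p hp).1
    have eh : h = N - p.1 := by
      have : (h : ℝ) = ((N - p.1 : ℤ) : ℝ) := by push_cast; exact h2
      exact_mod_cast this
    subst eh
    rcases mem14 hb.2 hb.1 h3 with ⟨rfl, h4⟩ | ⟨rfl, h4⟩
    · exact ⟨ht, by rw [if_pos h4]⟩
    · refine ⟨?_, by rw [if_neg (not_lt.mpr h4)]⟩
      rw [← tt0_left _ _ (-1)]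
      exact ht
  have red1 : ∀ t : V, t ∈ TS1 d → ∀ p ∈ L, t.2 = N - p.1 → X - t.1 ∈ toothS p.2 (cn d p.1) →
      tt1 (⌊X - d * N / 44100 + 3 / 4⌋ - (p.2 : ℤ)) (N - (p.1 : ℤ)) = true ∧
      t = (if X - d * N / 44100 + 3 / 4 - ⌊X - d * N / 44100 + 3 / 4⌋ < 1 - cn d p.1
        then (((⌊X - d * N / 44100 + 3 / 4⌋ - p.2 - 15 : ℤ) : ℝ)
            + d * ((N - p.1 : ℤ) : ℝ) / 44100, ((N - p.1 : ℤ) : ℝ))
        else (((⌊X - d * N / 44100 + 3 / 4⌋ - p.2 : ℤ) : ℝ)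
            + d * ((N - p.1 : ℤ) : ℝ) / 44100, ((N - p.1 : ℤ) : ℝ))) := by
    rintro t ⟨m, h, ht, rfl⟩ p hp h2 h3
    have hb := cn_bd hd0 hd1 (hL p hp).1
    have eh : h = N - p.1 := by
      have : (h : ℝ) = ((N - p.1 : ℤ) : ℝ) := by push_cast; exact h2
      exact_mod_cast this
    subst eh
    have e3 : X - (m + d * ((N - p.1 : ℤ) : ℝ) / 44100) =
        (X - d * N / 44100 + 3 / 4) - 1 + cn d p.1 - m := by
      unfold cn; push_cast; ring
    rw [e3] at h3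
    rcases mem15 hb.2 hb.1 h3 with ⟨e, h4⟩ | ⟨e, h4⟩
    · subst e
      exact ⟨ht, by rw [if_neg (not_lt.mpr h4)]⟩
    · subst e
      refine ⟨?_, by rw [if_pos h4]⟩
      rw [← tt1_left _ _ (-1)]
      exact ht
  by_cases hY : Y N = true
  · -- the strand of period 14
    have c0 := h0 ⌊X⌋ N
    rw [if_pos hY] at c0
    obtain ⟨p, hp, hp1, hp2⟩ := count_one c0
    have hb := cn_bd hd0 hd1 (hL p hp).1
    refine ⟨if X - ⌊X⌋ < cn d p.1 then (((⌊X⌋ - p.2 : ℤ) : ℝ), ((N - p.1 : ℤ) : ℝ))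
        else (((⌊X⌋ - p.2 - 14 : ℤ) : ℝ), ((N - p.1 : ℤ) : ℝ)), ⟨?_, p, hp, ?_, ?_⟩, ?_⟩
    · left
      split_ifs
      · exact ⟨_, _, hp1, rfl⟩
      · refine ⟨_, _, ?_, rfl⟩
        rw [← tt0_left _ _ 1]
        have e : ⌊X⌋ - (p.2 : ℤ) - 14 + 14 * 1 = ⌊X⌋ - (p.2 : ℤ) := by ring
        rw [e]; exact hp1
    · split_ifs <;> (push_cast; rfl)
    · have f0 := Int.floor_le X
      have f1 := Int.lt_floor_add_one X
      split_ifs with h4
      · left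
        constructor
        · push_cast; linarith
        · push_cast; linarith
      · right
        constructor
        · push_cast; linarith
        · push_cast; linarith
    · rintro t ⟨ht | ht, q, hq, h2, h3⟩
      · obtain ⟨h5, h6⟩ := red0 t ht q hq h2 h3
        rw [hp2 q hq h5] at h6
        exact h6
      · exfalso
        have c1 := h1 ⌊X - d * N / 44100 + 3 / 4⌋ N
        rw [if_pos hY] at c1
        exact count_zero c1 q hq (red1 t ht q hq h2 h3).1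
  · -- the strand of period 15
    have c1 := h1 ⌊X - d * N / 44100 + 3 / 4⌋ N
    rw [if_neg hY] at c1
    obtain ⟨p, hp, hp1, hp2⟩ := count_one c1
    have hb := cn_bd hd0 hd1 (hL p hp).1
    refine ⟨if X - d * N / 44100 + 3 / 4 - ⌊X - d * N / 44100 + 3 / 4⌋ < 1 - cn d p.1
        then (((⌊X - d * N / 44100 + 3 / 4⌋ - p.2 - 15 : ℤ) : ℝ)
            + d * ((N - p.1 : ℤ) : ℝ) / 44100, ((N - p.1 : ℤ) : ℝ))
        else (((⌊X - d * N / 44100 + 3 / 4⌋ - p.2 : ℤ) : ℝ)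
            + d * ((N - p.1 : ℤ) : ℝ) / 44100, ((N - p.1 : ℤ) : ℝ)), ⟨?_, p, hp, ?_, ?_⟩, ?_⟩
    · right
      split_ifs
      · refine ⟨_, _, ?_, rfl⟩
        rw [← tt1_left _ _ 1]
        have e : ⌊X - d * N / 44100 + 3 / 4⌋ - (p.2 : ℤ) - 15 + 15 * 1 =
          ⌊X - d * N / 44100 + 3 / 4⌋ - (p.2 : ℤ) := by ring
        rw [e]; exact hp1
      · exact ⟨_, _, hp1, rfl⟩
    · split_ifs <;> (push_cast; rfl)
    · have f0 := Int.floor_le (X - d * N / 44100 + 3 / 4)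
      have f1 := Int.lt_floor_add_one (X - d * N / 44100 + 3 / 4)
      have ec : cn d p.1 = 1 / 4 + d * p.1 / 44100 := rfl
      split_ifs with h4
      · right
        constructor
        · push_cast
          have : d * ((N : ℝ) - p.1) / 44100 = d * N / 44100 - d * p.1 / 44100 := by ring
          rw [this]; linarith
        · push_cast
          have : d * ((N : ℝ) - p.1) / 44100 = d * N / 44100 - d * p.1 / 44100 := by ring
          rw [this]; linarith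
      · left
        constructor
        · push_cast
          have : d * ((N : ℝ) - p.1) / 44100 = d * N / 44100 - d * p.1 / 44100 := by ring
          rw [this]; linarith
        · push_cast
          have : d * ((N : ℝ) - p.1) / 44100 = d * N / 44100 - d * p.1 / 44100 := by ring
          rw [this]; linarith
    · rintro t ⟨ht | ht, q, hq, h2, h3⟩
      · exfalso
        have c0 := h0 ⌊X⌋ N
        rw [if_neg hY] at c0
        exact count_zero c0 q hq (red0 t ht q hq h2 h3).1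
      · obtain ⟨h5, h6⟩ := red1 t ht q hq h2 h3
        rw [hp2 q hq h5] at h6
        exact h6

/-! ## The cover by the base body -/

theorem TS_int {d : ℝ} {t : V} (ht : t ∈ TS d) : ∃ h : ℤ, t.2 = h := by
  rcases ht with ⟨m, h, -, rfl⟩ | ⟨m, h, -, rfl⟩
  · exact ⟨h, rfl⟩
  · exact ⟨h, rfl⟩

/-- The membership in one layer of the body, as a statement on the list of the layer. -/
theorem layer_iff {d : ℝ} {L : List (ℕ × ℕ)} {P : ℤ → Prop} {A : ℤ → ℤ}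
    (hL : ∀ n a : ℕ, (n, a) ∈ L ↔ n < 44100 ∧ P n ∧ (a : ℤ) = A n) (hA : ∀ n, 0 ≤ A n)
    (X y : ℝ) (h : ℤ) (x : ℝ) :
    (0 ≤ y - h ∧ y - h < 44100 ∧ P ⌊y - h⌋ ∧
      CEXD.tooth (A ⌊y - h⌋) (CEXD.cut d ⌊y - h⌋) (X - x)) ↔
    ∃ p ∈ L, (h : ℝ) = ⌊y⌋ - p.1 ∧ X - x ∈ toothS p.2 (cn d p.1) := by
  constructor
  · rintro ⟨h0, h1, hP, ht⟩
    have e0 : 0 ≤ ⌊y - h⌋ := Int.floor_nonneg.mpr h0
    have e1 : ⌊y - h⌋ < 44100 := by
      rw [Int.floor_lt]; exact_mod_cast h1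
    obtain ⟨n, hn⟩ := Int.eq_ofNat_of_zero_le e0
    obtain ⟨a, ha⟩ := Int.eq_ofNat_of_zero_le (hA ⌊y - h⌋)
    refine ⟨(n, a), ?_, ?_, ?_⟩
    · rw [hL]
      refine ⟨by omega, ?_, ?_⟩
      · rw [← hn]; exact hP
      · rw [← hn]; exact ha.symm
    · have e2 : ⌊y⌋ - h = n := by rw [← hn, Int.floor_sub_intCast]
      have e3 : (⌊y⌋ : ℝ) - h = n := by exact_mod_cast e2
      show (h : ℝ) = ⌊y⌋ - n
      linarith
    · rw [ha, hn] at ht
      exact ht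
  · rintro ⟨⟨n, a⟩, hp, h1, h2⟩
    obtain ⟨h3, h4, h5⟩ := (hL n a).mp hp
    have h1' : (h : ℝ) = ⌊y⌋ - n := h1
    have e2 : h = ⌊y⌋ - n := by exact_mod_cast h1'
    have e3 : ⌊y - h⌋ = n := by rw [Int.floor_sub_intCast]; omega
    have e4 : (n : ℝ) ≤ y - h := by
      have := Int.floor_le (y - h); rw [e3] at this; exact_mod_cast this
    have e5 : y - h < n + 1 := by
      have := Int.lt_floor_add_one (y - h); rw [e3] at this; exact_mod_cast this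
    have e6 : (n : ℝ) + 1 ≤ 44100 := by exact_mod_cast h3
    refine ⟨le_trans (Nat.cast_nonneg n) e4, by linarith, ?_, ?_⟩
    · rw [e3]; exact h4
    · rw [e3, ← h5]; exact h2

theorem ecov_Bo_of {d : ℝ} (hd0 : 0 ≤ d) (hd1 : d ≤ 3 / 4)
    (hm1 : ∀ n a : ℕ, (n, a) ∈ L1 ↔ n < 44100 ∧ CEXD.La n ∧ (a : ℤ) = CEXD.Aa n)
    (hm2 : ∀ n a : ℕ, (n, a) ∈ L2 ↔ n < 44100 ∧ CEXD.Lb n ∧ (a : ℤ) = CEXD.Ab n) :
    ECov (CEXD.Bo d) (TS d) := by
  intro z
  have hAa : ∀ n, 0 ≤ CEXD.Aa n := fun n => by unfold CEXD.Aa; omega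
  have hAb : ∀ n, 0 ≤ CEXD.Ab n := fun n => by unfold CEXD.Ab; omega
  by_cases hf : Int.fract z.2 < 1 / 2
  · refine (existsUnique_congr fun t => and_congr_right fun ht => ?_).mp
      (row hd0 hd1 L1_bd data01 data11 z.1 ⌊z.2⌋)
    obtain ⟨h, hh⟩ := TS_int ht
    rw [hh, ← layer_iff (P := CEXD.La) (A := CEXD.Aa) hm1 hAa z.1 z.2 h t.1]
    unfold CEXD.Bo
    simp only [Set.mem_ofPred_eq, Prod.fst_sub, Prod.snd_sub, hh, Int.fract_sub_intCast]
    constructor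
    · rintro ⟨h1, h2, h3, h4⟩
      exact ⟨h1, h2, Or.inl ⟨hf, h3, h4⟩⟩
    · rintro ⟨h1, h2, ⟨-, h3, h4⟩ | ⟨h3, -, -⟩⟩
      · exact ⟨h1, h2, h3, h4⟩
      · exact (not_lt.mpr h3 hf).elim
  · refine (existsUnique_congr fun t => and_congr_right fun ht => ?_).mp
      (row hd0 hd1 L2_bd data02 data12 z.1 ⌊z.2⌋)
    obtain ⟨h, hh⟩ := TS_int ht
    rw [hh, ← layer_iff (P := CEXD.Lb) (A := CEXD.Ab) hm2 hAb z.1 z.2 h t.1]
    unfold CEXD.Bo
    simp only [Set.mem_ofPred_eq, Prod.fst_sub, Prod.snd_sub, hh, Int.fract_sub_intCast]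
    constructor
    · rintro ⟨h1, h2, h3, h4⟩
      exact ⟨h1, h2, Or.inr ⟨not_lt.mp hf, h3, h4⟩⟩
    · rintro ⟨h1, h2, ⟨h3, -, -⟩ | ⟨-, h3, h4⟩⟩
      · exact (hf h3).elim
      · exact ⟨h1, h2, h3, h4⟩

/-- **The base body has an exact cover.** -/
theorem ecov_Bo {d : ℝ} (h1 : 47 / 100 < d) (h2 : d < 48 / 100) : ECov (CEXD.Bo d) (TS d) :=
  ecov_Bo_of (by linarith) (by linarith) CEXD.mem_L1 CEXD.mem_L2

/-! ## The relation of the keys -/

/-- The two strands are disjoint. -/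
theorem TS_disj {d : ℝ} {t : V} (h0 : t ∈ TS0) (h1 : t ∈ TS1 d) : False := by
  obtain ⟨m, h, hm, rfl⟩ := h0
  obtain ⟨m', h', hm', e⟩ := h1
  have e2 : h = h' := by
    have : (h : ℝ) = (h' : ℝ) := congrArg Prod.snd e
    exact_mod_cast this
  subst e2
  have c0 := data01 m h
  have c1 := data11 m' h
  by_cases hY : Y1 h = true
  · rw [if_pos hY] at c1
    refine count_zero c1 _ L1_mem0 ?_
    simpa using hm'
  · rw [if_neg hY] at c0
    refine count_zero c0 _ L1_mem0 ?_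
    simpa using hm

/-- Invariance of the first strand. -/
theorem TS0_inv {a : ℤ} (j : ℤ) (ha : a = 14 * j) (x : V) :
    x - ((a : ℝ), (44100 : ℝ)) ∈ TS0 ↔ x ∈ TS0 := by
  subst ha
  constructor
  · rintro ⟨m, h, hm, e⟩
    refine ⟨m + 14 * j, h + 44100 * 1, ?_, ?_⟩
    · rw [tt0_left, tt0_right]; exact hm
    · rw [sub_eq_iff_eq_add] at e
      rw [e]
      ext <;> simp
  · rintro ⟨m, h, hm, rfl⟩
    refine ⟨m + 14 * (-j), h + 44100 * (-1), ?_, ?_⟩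
    · rw [tt0_left, tt0_right]; exact hm
    · ext
      · simp; ring
      · simp; ring

/-- Invariance of the second strand. -/
theorem TS1_inv {d : ℝ} {b : ℤ} (j : ℤ) (hb : b = 15 * j) (x : V) :
    x - (d + (b : ℝ), (44100 : ℝ)) ∈ TS1 d ↔ x ∈ TS1 d := by
  subst hb
  constructor
  · rintro ⟨m, h, hm, e⟩
    refine ⟨m + 15 * j, h + 44100 * 1, ?_, ?_⟩
    · rw [tt1_left, tt1_right]; exact hm
    · rw [sub_eq_iff_eq_add] at e
      rw [e]
      ext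
      · simp; ring
      · simp
  · rintro ⟨m, h, hm, rfl⟩
    refine ⟨m + 15 * (-j), h + 44100 * (-1), ?_, ?_⟩
    · rw [tt1_left, tt1_right]; exact hm
    · ext
      · simp; ring
      · simp; ring

theorem not_int {d : ℝ} (h0 : 0 < d) (h1 : d < 1) (m : ℤ) : d ≠ m := by
  intro h
  rw [h] at h0 h1
  have h0' : (0 : ℤ) < m := by exact_mod_cast h0
  have h1' : m < (1 : ℤ) := by exact_mod_cast h1
  omega

/-- The relation for a vector of each of the two groups. -/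
theorem rl_gen {d : ℝ} (h0 : 0 < d) (h1 : d < 1) {a b : ℤ} (i j : ℤ) (ha : a = 14 * i)
    (hb : b = 15 * j) : Rl (TS d) ((a : ℝ), (44100 : ℝ)) (d + (b : ℝ), (44100 : ℝ)) := by
  set al : V := ((a : ℝ), (44100 : ℝ)) with hal
  set be : V := (d + (b : ℝ), (44100 : ℝ)) with hbe
  have i0 : ∀ x, x - al ∈ TS0 ↔ x ∈ TS0 := TS0_inv i ha
  have i1 : ∀ x, x - be ∈ TS1 d ↔ x ∈ TS1 d := TS1_inv j hb
  have j0 : ∀ x, x - al - be ∈ TS0 ↔ x - be ∈ TS0 := by
    intro x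
    rw [sub_right_comm]
    exact i0 _
  have j1 : ∀ x, x - al - be ∈ TS1 d ↔ x - al ∈ TS1 d := fun x => i1 _
  have n0 : ∀ x, x ∈ TS0 → x - be ∈ TS0 → False := by
    rintro x ⟨m, h, hm, rfl⟩ ⟨m', h', hm', e⟩
    have e1 := congrArg Prod.fst e
    have e1' : (m : ℝ) - (d + b) = m' := e1
    refine not_int h0 h1 (m - b - m') ?_
    push_cast
    linarith
  have n1 : ∀ x, x ∈ TS1 d → x - al ∈ TS1 d → False := by
    rintro x ⟨m, h, hm, rfl⟩ ⟨m', h', hm', e⟩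
    have e1 : (m : ℝ) + d * h / 44100 - a = m' + d * h' / 44100 := congrArg Prod.fst e
    have e2 : (h : ℝ) - 44100 = h' := congrArg Prod.snd e
    refine not_int h0 h1 (m' + a - m) ?_
    push_cast
    rw [← e2] at e1
    linear_combination e1
  refine ⟨fun x => ?_, fun x => ?_, fun x => ?_⟩
  · simp only [TS, Set.mem_union]
    rw [i0 x, i1 x, j0 x, j1 x]
    tauto
  · simp only [TS, Set.mem_union]
    rw [j0 x, j1 x]
    rintro (h | h) (h' | h')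
    · exact n0 x h h'
    · exact TS_disj ((i0 x).mpr h) h'
    · exact TS_disj h' ((i1 x).mpr h)
    · exact n1 x h h'
  · simp only [TS, Set.mem_union]
    rw [i0 x, i1 x]
    rintro (h | h) (h' | h')
    · exact n0 x h h'
    · exact TS_disj h h'
    · refine TS_disj ((j0 x).mpr h') ((j1 x).mpr h)
    · exact n1 x h' h

/-- The relations of the four keys. -/
theorem rl_TS {d : ℝ} (h1 : 47 / 100 < d) (h2 : d < 48 / 100) (k : Fin 4) :
    Rl (TS d) (CEXD.al k) (CEXD.be d k) := by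
  have e0 : CEXD.al 0 = (((0 : ℤ) : ℝ), (44100 : ℝ)) := by simp [CEXD.al]
  have e1 : CEXD.al 1 = (((-14 : ℤ) : ℝ), (44100 : ℝ)) := by simp [CEXD.al]
  have e2 : CEXD.al 2 = (((0 : ℤ) : ℝ), (44100 : ℝ)) := by simp [CEXD.al]
  have e3 : CEXD.al 3 = (((-14 : ℤ) : ℝ), (44100 : ℝ)) := by simp [CEXD.al]
  have f0 : CEXD.be d 0 = (d + ((0 : ℤ) : ℝ), (44100 : ℝ)) := by simp [CEXD.be]
  have f1 : CEXD.be d 1 = (d + ((-15 : ℤ) : ℝ), (44100 : ℝ)) := by
    simp [CEXD.be, sub_eq_add_neg]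
  have f2 : CEXD.be d 2 = (d + ((-15 : ℤ) : ℝ), (44100 : ℝ)) := by
    simp [CEXD.be, sub_eq_add_neg]
  have f3 : CEXD.be d 3 = (d + ((0 : ℤ) : ℝ), (44100 : ℝ)) := by simp [CEXD.be]
  have hd0 : 0 < d := by linarith
  have hd1 : d < 1 := by linarith
  fin_cases k
  · show Rl (TS d) (CEXD.al 0) (CEXD.be d 0)
    rw [e0, f0]; exact rl_gen hd0 hd1 0 0 (by norm_num) (by norm_num)
  · show Rl (TS d) (CEXD.al 1) (CEXD.be d 1)
    rw [e1, f1]; exact rl_gen hd0 hd1 (-1) (-1) (by norm_num) (by norm_num)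
  · show Rl (TS d) (CEXD.al 2) (CEXD.be d 2)
    rw [e2, f2]; exact rl_gen hd0 hd1 0 (-1) (by norm_num) (by norm_num)
  · show Rl (TS d) (CEXD.al 3) (CEXD.be d 3)
    rw [e3, f3]; exact rl_gen hd0 hd1 (-1) 0 (by norm_num) (by norm_num)

/-- **The base body has an exact cover which satisfies the relations of the four keys.** -/
theorem exist_conc {d : ℝ} (_hd : Irrational d) (h1 : 47 / 100 < d) (h2 : d < 48 / 100) :
    ∃ T : Set V, ECov (CEXD.Bo d) T ∧ ∀ k, Rl T (CEXD.al k) (CEXD.be d k) :=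
  ⟨TS d, ecov_Bo h1 h2, rl_TS h1 h2⟩

end Pool.Agent.CEX
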