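import Pool.Agent.CEX.NoPer

/-!
# CEX: tilings by a closed rectilinear body and exact covers by the half-open body
-/

set_option autoImplicit false

namespace Pool.Agent.CEX

open Pool.Agent.PTR.OL (V)
open Pool.Agent Pool.Agent.PTR

theorem til_ptr {C T : Set V} : PSQ.Tiling C T ↔ PTR.Tiling C T := by
  unfold PSQ.Tiling PTR.Tiling
  constructor
  · rintro ⟨h1, h2⟩
    refine ⟨fun z => ?_, h1⟩
    have hz : z ∈ ⋃ t ∈ T, PSQ.tr C t := by rw [h2]; trivial
    simp only [Set.mem_iUnion] at hz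
    obtain ⟨t, ht, hz⟩ := hz
    exact ⟨t, ht, hz⟩
  · rintro ⟨h1, h2⟩
    refine ⟨h2, ?_⟩
    rw [Set.eq_univ_iff_forall]
    intro z
    obtain ⟨t, ht, hz⟩ := h1 z
    simp only [Set.mem_iUnion]
    exact ⟨t, ht, hz⟩

/-- A tiling by the closed body is an exact cover by the half-open body. -/
theorem til_iff (B : Finset Box) (hB : ∀ b ∈ B, b.1.1 < b.1.2 ∧ b.2.1 < b.2.2) (T : Set V) :
    PSQ.Tiling (cbody B) T ↔ ECov (body B) T :=
  til_ptr.trans (closed_iff B hB T)

/-- An exact cover is locally finite. -/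
theorem lf_of_ecov {B : Finset Box} {T : Set V} (hT : ECov (body B) T) : LF T := by
  intro R
  have h := PTR.OL.locfin hT 0 R
  refine h.subset ?_
  rintro t ⟨h1, h2⟩
  refine ⟨h1, ?_⟩
  rwa [zero_sub, norm_neg]

/-- Nonempty. -/
theorem ne_of_ecov {C T : Set V} (hT : ECov C T) : T.Nonempty := by
  obtain ⟨t, ⟨ht, -⟩, -⟩ := hT 0
  exact ⟨t, ht⟩

end Pool.Agent.CEX
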