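import Mathlib

/-!
# CEX: the irrational slope
-/

set_option autoImplicit false

namespace Pool.Agent.CEX

/-- The slope: `√2 / 3 = 0.4714..`. -/
theorem exists_slope : ∃ d : ℝ, Irrational d ∧ 47 / 100 < d ∧ d < 48 / 100 := by
  refine ⟨√2 / 3, ?_, ?_, ?_⟩
  · have h := irrational_sqrt_two.div_natCast (m := 3) (by norm_num)
    exact_mod_cast h
  · have h1 : (1.414 : ℝ) < √2 := by
      rw [Real.lt_sqrt (by norm_num)]
      norm_num
    linarith
  · have h1 : √2 < (1.415 : ℝ) := by
      rw [Real.sqrt_lt' (by norm_num)]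
      norm_num
    linarith

/-- The quotient with `14` is irrational. -/
theorem slope_div {d : ℝ} (h : Irrational d) (r : ℚ) : d / 14 ≠ r := by
  intro h1
  apply h
  refine ⟨r * 14, ?_⟩
  push_cast
  rw [← h1]
  ring

theorem not_exists_slope_div {d : ℝ} (h : Irrational d) : ¬ ∃ q : ℚ, d / 14 = q := by
  rintro ⟨q, hq⟩
  exact slope_div h q hq

end Pool.Agent.CEX
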