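import Pool.Agent.CEX.Line2
import Pool.Agent.CEX.Count

/-!
# CEX: no exact cover by the base body is invariant under one of the two groups
-/

set_option autoImplicit false

namespace Pool.Agent.CEXD

open Pool.Agent.PTR.OL (V)
open Pool.Agent.PTR (ECov)
open Pool.Agent.CEX (LF stab line_count)

/-- No exact cover by `Bo d` is invariant under `(14, 0)` and `(0, 44100)`. -/
theorem no_inv14 {d : ℝ} (h0 : 0 ≤ d) (h1 : d ≤ 3 / 4) {T : Set V} (hE : ECov (Bo d) T)
    (hF : LF T) (hx : ((14 : ℝ), (0 : ℝ)) ∈ stab T) (hy : ((0 : ℝ), (44100 : ℝ)) ∈ stab T) :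
    False := by
  classical
  obtain ⟨ι, _, h, H⟩ := line14 h0 h1 hE hF hx hy
  refine CEX.no14 h 0 ?_
  intro j
  rw [← H (0 + j / 2)]
  congr 1

/-- No exact cover by `Bo d` is invariant under `(15, 0)` and `(d, 44100)`. -/
theorem no_inv15 {d : ℝ} (h0 : 0 ≤ d) (h1 : d ≤ 3 / 4) {T : Set V} (hE : ECov (Bo d) T)
    (hF : LF T) (hx : ((15 : ℝ), (0 : ℝ)) ∈ stab T) (hy : (d, (44100 : ℝ)) ∈ stab T) :
    False := by
  classical
  obtain ⟨ι, _, h, H⟩ := line15 h0 h1 hE hF hx hy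
  refine CEX.no15 h 0 ?_
  intro j
  rw [← H (0 + j / 2)]
  congr 1

end Pool.Agent.CEXD

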