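import Pool.Agent.CEX.Exist
import Pool.Agent.CEX.Conc1
import Pool.Agent.CEX.Conc2
import Pool.Agent.CEX.Cancel2
import Pool.Agent.CEX.Glue
import Pool.Agent.CEX.Glue0
import Pool.Agent.CEX.Line3
import Pool.Agent.CEX.Body
import Pool.Agent.PTR.Final

/-!
# A body of the plane which tiles by translates and has no periodic tiling: assembly
-/

set_option autoImplicit false

namespace Pool.Agent.CEX

open Pool.Agent.PTR Pool.Agent.CEXD

/-- The half-open body has no exact cover with a periodic set of translation vectors. -/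
theorem no_periodic {d : ℝ} (hd : Irrational d) (h1 : 47 / 100 < d) (h2 : d < 48 / 100)
    {T : Set (ℝ × ℝ)} (hT : ECov (Do d) T) (hp : PSQ.Periodic T) : False := by
  have hF : LF T := lf_of_ecov (B := BB d) (by rw [body_BB h1 h2]; exact hT)
  have hR : ∀ k, Rl T (al k) (be d k) := fun k =>
    Rl.mk' hF hp (key_out h1 h2 hT k).1 (key_out h1 h2 hT k).2.2.1 (key_out h1 h2 hT k).2.2.2
  have hB : ECov (Bo d) T := (cancel_conc h1 h2 hR).1 hT
  have := noPer (T := T) (p := 14) (q := 15) (d := d) (g := 44100) hF hp (by norm_num)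
    (slope_div hd) (by simpa [al, be] using hR 0) (by simpa [al, be] using hR 2)
    (by simpa [al, be] using hR 3) (by simpa [al, be] using hR 1)
  rcases this with h | h
  · exact CEXD.no_inv14 (by linarith) (by linarith) hB hF h.1 h.2
  · exact CEXD.no_inv15 (by linarith) (by linarith) hB hF h.1 h.2

/-- There is a nonconvex body which tiles the plane by translates and has no periodic tiling. -/
theorem main : ∃ C : Set (ℝ × ℝ), PSQ.IsBody C ∧ ¬ Convex ℝ C ∧ (∃ T, PSQ.Tiling C T) ∧
    ¬ ∃ T, PSQ.Tiling C T ∧ PSQ.Periodic T := by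
  obtain ⟨d, hd, h1, h2⟩ := exists_slope
  refine ⟨cbody (BB d), cbody_isBody (BB_nondeg h1 h2), BB_not_convex h1 h2, ?_, ?_⟩
  · obtain ⟨T, hT, hR⟩ := exist_conc hd h1 h2
    refine ⟨T, ?_⟩
    rw [til_iff _ (BB_nondeg h1 h2), body_BB h1 h2]
    exact (cancel_conc h1 h2 hR).2 hT
  · rintro ⟨T, hT, hp⟩
    rw [til_iff _ (BB_nondeg h1 h2), body_BB h1 h2] at hT
    exact no_periodic hd h1 h2 hT hp

end Pool.Agent.CEX
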