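import Pool.Agent.CEX.Per

/-!
# CEX: the count on a horizontal line

`line_count`: an exact cover by translates of `D`, invariant under `(P, 0)` and `(δ, g)`, where the
periodization of `D` is, on every line, one unit interval modulo `P` or empty. Then on every line
there are exactly `P` classes of tiles which meet it.
-/

set_option autoImplicit false

namespace Pool.Agent.CEX

open Pool.Agent.PTR.OL (V)
open Pool.Agent.PTR (ECov)
open Pool.Agent

theorem stab_zsmul {T : Set V} {a : V} (h : a ∈ stab T) (n : ℤ) (x : V) :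
    x + n • a ∈ T ↔ x ∈ T := by
  have h' : n • a ∈ stab T := AddSubgroup.zsmul_mem _ h n
  exact h' x

theorem line_count {D T : Set V} (hE : ECov D T) (hF : LF T) {P : ℕ} (hP : 0 < P) {δ g : ℝ}
    (hg : 0 < g) (h1 : ((P : ℝ), (0 : ℝ)) ∈ stab T) (h2 : (δ, g) ∈ stab T) {S : ℝ → Prop}
    [DecidablePred S] {E : ℝ → ℝ}
    (hD : ∀ x z : ℝ, (∃ a b : ℤ, (x - a * P - b * δ, z - b * g) ∈ D) ↔
      S z ∧ ∃ a : ℤ, E z + a * P ≤ x ∧ x < E z + a * P + 1) :
    ∃ (ι : Type) (_ : Fintype ι) (h : ι → ℝ), ∀ y : ℝ,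
      (Finset.univ.filter fun i => S (y - h i)).card = P := by
  classical
  have hP' : (0 : ℝ) < P := by exact_mod_cast hP
  set K : Set V := {t | t ∈ T ∧ 0 ≤ t.1 ∧ t.1 < P ∧ 0 ≤ t.2 ∧ t.2 < g} with hK
  have hfin : K.Finite := by
    refine (hF (max P g)).subset ?_
    rintro t ⟨ht, h1, h2, h3, h4⟩
    refine ⟨ht, ?_⟩
    rw [Prod.norm_def]
    apply max_le_max
    · rw [Real.norm_of_nonneg h1]; exact h2.le
    · rw [Real.norm_of_nonneg h3]; exact h4.le
  have : Fintype K := hfin.fintype
  -- translation by lattice vectors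
  have htr : ∀ (t : V) (a b : ℤ), (t.1 + a * P + b * δ, t.2 + b * g) ∈ T ↔ t ∈ T := by
    intro t a b
    have e : (t.1 + a * P + b * δ, t.2 + b * g) = t + a • ((P : ℝ), (0 : ℝ)) + b • (δ, g) := by
      ext <;> simp
    rw [e, stab_zsmul h2, stab_zsmul h1]
  -- a tile of `K` which covers `(n, y)` modulo the lattice
  have hcov : ∀ (t : V) (x y : ℝ), S (y - t.2) →
      (∃ a : ℤ, E (y - t.2) + a * P ≤ x - t.1 ∧ x - t.1 < E (y - t.2) + a * P + 1) →
      ∃ a b : ℤ, (x, y) - (t.1 + a * P + b * δ, t.2 + b * g) ∈ D := by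
    intro t x y hS ha
    obtain ⟨a, b, hab⟩ := (hD (x - t.1) (y - t.2)).2 ⟨hS, ha⟩
    refine ⟨a, b, ?_⟩
    have e : (x, y) - (t.1 + a * P + b * δ, t.2 + b * g) =
        (x - t.1 - a * P - b * δ, y - t.2 - b * g) := by
      ext <;> simp <;> ring
    rw [e]
    exact hab
  refine ⟨K, inferInstance, fun i => i.1.2, ?_⟩
  intro y
  set N : K → ℤ := fun i => ⌈E (y - i.1.2) + i.1.1⌉ with hN
  have hPz : (0 : ℤ) < P := by exact_mod_cast hP
  rw [← Finset.card_range P]
  refine Finset.card_bij (fun i _ => (N i % P).toNat) ?_ ?_ ?_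
  · intro i _
    rw [Finset.mem_range]
    have a1 := Int.emod_nonneg (N i) hPz.ne'
    have a2 := Int.emod_lt_of_pos (N i) hPz
    omega
  · intro i hi j hj hij
    rw [Finset.mem_filter] at hi hj
    have key : ∀ i : K, S (y - i.1.2) → ∃ a b : ℤ,
        (((N i % P : ℤ) : ℝ), y) - (i.1.1 + a * P + b * δ, i.1.2 + b * g) ∈ D := by
      intro i hi
      apply hcov i.1 _ _ hi
      refine ⟨-(N i / P), ?_⟩
      have e : N i % (P : ℤ) = N i - P * (N i / P) := by
        have := Int.emod_add_mul_ediv (N i) P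
        omega
      have b1 : E (y - i.1.2) + i.1.1 ≤ N i := Int.le_ceil _
      have b2 : (N i : ℝ) < E (y - i.1.2) + i.1.1 + 1 := Int.ceil_lt_add_one _
      rw [e]
      push_cast
      constructor <;> nlinarith
    obtain ⟨a, b, hab⟩ := key i hi.2
    obtain ⟨a', b', hab'⟩ := key j hj.2
    have hij' : N i % (P : ℤ) = N j % P := by
      have a1 := Int.emod_nonneg (N i) hPz.ne'
      have a2 := Int.emod_nonneg (N j) hPz.ne'
      have := hij
      omega
    rw [← hij'] at hab'
    obtain ⟨t, -, hu⟩ := hE (((N i % P : ℤ) : ℝ), y)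
    have c1 := hu _ ⟨(htr i.1 a b).2 i.2.1, hab⟩
    have c2 := hu _ ⟨(htr j.1 a' b').2 j.2.1, hab'⟩
    have c3 := c1.trans c2.symm
    rw [Prod.mk.injEq] at c3
    obtain ⟨c4, c5⟩ := c3
    obtain ⟨-, i1, i2, i3, i4⟩ := i.2
    obtain ⟨-, j1, j2, j3, j4⟩ := j.2
    have hb : b = b' := by
      have : (b : ℝ) - b' < 1 := by
        by_contra hc
        push Not at hc
        nlinarith
      have : (b' : ℝ) - b < 1 := by
        by_contra hc
        push Not at hc
        nlinarith
      have x1 : b - b' < 1 := by exact_mod_cast ‹(b : ℝ) - b' < 1›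
      have x2 : b' - b < 1 := by exact_mod_cast ‹(b' : ℝ) - b < 1›
      omega
    subst hb
    have ha : a = a' := by
      have : (a : ℝ) - a' < 1 := by
        by_contra hc
        push Not at hc
        nlinarith
      have : (a' : ℝ) - a < 1 := by
        by_contra hc
        push Not at hc
        nlinarith
      have x1 : a - a' < 1 := by exact_mod_cast ‹(a : ℝ) - a' < 1›
      have x2 : a' - a < 1 := by exact_mod_cast ‹(a' : ℝ) - a < 1›
      omega
    subst ha
    apply Subtype.ext
    ext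
    · linarith
    · linarith
  · intro n hn
    rw [Finset.mem_range] at hn
    obtain ⟨t, ⟨ht, htD⟩, -⟩ := hE ((n : ℝ), y)
    set b : ℤ := ⌊t.2 / g⌋ with hb
    set a : ℤ := ⌊(t.1 - b * δ) / P⌋ with ha
    have hb1 : (b : ℝ) * g ≤ t.2 := by
      have := Int.floor_le (t.2 / g)
      rwa [le_div_iff₀ hg] at this
    have hb2 : t.2 < (b + 1) * g := by
      have := Int.lt_floor_add_one (t.2 / g)
      rwa [div_lt_iff₀ hg] at this
    have ha1 : (a : ℝ) * P ≤ t.1 - b * δ := by
      have := Int.floor_le ((t.1 - b * δ) / P)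
      rwa [le_div_iff₀ hP'] at this
    have ha2 : t.1 - b * δ < (a + 1) * P := by
      have := Int.lt_floor_add_one ((t.1 - b * δ) / P)
      rwa [div_lt_iff₀ hP'] at this
    have hmem : (t.1 - a * P - b * δ, t.2 - b * g) ∈ K := by
      refine ⟨?_, ?_, ?_, ?_, ?_⟩
      · rw [← htr (t.1 - a * P - b * δ, t.2 - b * g) a b]
        have e : ((t.1 - a * P - b * δ, t.2 - b * g).1 + a * P + b * δ,
            (t.1 - a * P - b * δ, t.2 - b * g).2 + b * g) = t := by
          ext <;> dsimp only <;> ring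
        rw [e]
        exact ht
      · dsimp only; linarith
      · dsimp only; linarith
      · dsimp only; linarith
      · dsimp only; linarith
    have hS := (hD (n - (t.1 - a * P - b * δ)) (y - (t.2 - b * g))).1 ⟨a, b, by
      have e : (n - (t.1 - a * P - b * δ) - a * P - b * δ, y - (t.2 - b * g) - b * g) =
          ((n : ℝ), y) - t := by
        ext <;> simp only [Prod.fst_sub, Prod.snd_sub] <;> ring
      rw [e]
      exact htD⟩
    obtain ⟨hS, a', ha', ha''⟩ := hS
    refine ⟨⟨_, hmem⟩, ?_, ?_⟩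
    · rw [Finset.mem_filter]
      exact ⟨Finset.mem_univ _, hS⟩
    · have hc : N ⟨_, hmem⟩ = n - a' * P := by
        rw [hN]
        dsimp only
        rw [Int.ceil_eq_iff]
        push_cast
        constructor <;> linarith
      rw [hc]
      have : ((n : ℤ) - a' * P) % P = n := by
        rw [Int.sub_mul_emod_self_right]
        exact Int.emod_eq_of_lt (by omega) (by exact_mod_cast hn)
      rw [this]
      simp

end Pool.Agent.CEX
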