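import Pool.Agent.CEX.Line
import Pool.Agent.CEX.Defs

/-!
# CEX: the count on a horizontal line for the base body
-/

set_option autoImplicit false

namespace Pool.Agent.CEXD

open Pool.Agent.PTR.OL (V)
open Pool.Agent.PTR (ECov)
open Pool.Agent.CEX (LF stab line_count)

/-- The heights at which the periodized base body is not empty. -/
def Su (y : ℝ) : Prop :=
  (Int.fract y < 1 / 2 ∧ La ⌊y⌋) ∨ (1 / 2 ≤ Int.fract y ∧ Lb ⌊y⌋)

theorem emod_per {m : ℤ} (n b : ℤ) (h : m ∣ 44100) : (n - 44100 * b) % m = n % m := by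
  obtain ⟨k, hk⟩ := h
  rw [hk, mul_assoc, Int.sub_mul_emod_self_left]

theorem La_per (n b : ℤ) : La (n - 44100 * b) ↔ La n := by
  unfold La
  rw [emod_per n b (m := 4) (by norm_num), emod_per n b (m := 49) (by norm_num),
    emod_per n b (m := 3) (by norm_num), emod_per n b (m := 5) (by norm_num)]

theorem Lb_per (n b : ℤ) : Lb (n - 44100 * b) ↔ Lb n := by
  unfold Lb
  rw [emod_per n b (m := 2) (by norm_num), emod_per n b (m := 7) (by norm_num),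
    emod_per n b (m := 9) (by norm_num), emod_per n b (m := 25) (by norm_num)]

theorem Aa_per (n b : ℤ) : Aa (n - 44100 * b) = Aa n := by
  unfold Aa
  rw [emod_per n b (m := 9) (by norm_num), emod_per n b (m := 25) (by norm_num)]

theorem Ab_per (n b : ℤ) : Ab (n - 44100 * b) = Ab n := by
  unfold Ab
  rw [emod_per n b (m := 4) (by norm_num), emod_per n b (m := 49) (by norm_num)]

/-- The tooth modulo `14`. -/
theorem tooth14 {A : ℤ} {c x : ℝ} (h0 : 0 ≤ c) (h1 : c ≤ 1) :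
    (∃ a : ℤ, tooth A c (x - a * 14)) ↔ ∃ a : ℤ, A + a * 14 ≤ x ∧ x < A + a * 14 + 1 := by
  constructor
  · rintro ⟨a, ⟨h2, h3⟩ | ⟨h2, h3⟩⟩
    · exact ⟨a, by linarith, by linarith⟩
    · refine ⟨a + 1, ?_, ?_⟩ <;> push_cast <;> linarith
  · rintro ⟨a, h2, h3⟩
    by_cases h : x - a * 14 < A + c
    · exact ⟨a, Or.inl ⟨by linarith, h⟩⟩
    · push Not at h
      refine ⟨a - 1, Or.inr ⟨?_, ?_⟩⟩ <;> push_cast <;> linarith

/-- The tooth modulo `15`. -/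
theorem tooth15 {A : ℤ} {c x : ℝ} (h0 : 0 ≤ c) (h1 : c ≤ 1) :
    (∃ a : ℤ, tooth A c (x - a * 15)) ↔
      ∃ a : ℤ, A + c - 1 + a * 15 ≤ x ∧ x < A + c - 1 + a * 15 + 1 := by
  constructor
  · rintro ⟨a, ⟨h2, h3⟩ | ⟨h2, h3⟩⟩
    · exact ⟨a, by linarith, by linarith⟩
    · refine ⟨a + 1, ?_, ?_⟩ <;> push_cast <;> linarith
  · rintro ⟨a, h2, h3⟩
    by_cases h : A ≤ x - a * 15
    · exact ⟨a, Or.inl ⟨h, by linarith⟩⟩
    · push Not at h
      refine ⟨a - 1, Or.inr ⟨?_, ?_⟩⟩ <;> push_cast <;> linarith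

theorem cut_bd {d : ℝ} (h0 : 0 ≤ d) (h1 : d ≤ 3 / 4) {n : ℤ} (h2 : 0 ≤ n) (h3 : n < 44100) :
    0 ≤ cut d n ∧ cut d n ≤ 1 := by
  have e2 : (0 : ℝ) ≤ n := by exact_mod_cast h2
  have e3 : (n : ℝ) ≤ 44100 := by exact_mod_cast h3.le
  unfold cut
  constructor
  · positivity
  · have : d * n / 44100 ≤ d := by
      rw [div_le_iff₀ (by norm_num)]
      nlinarith
    linarith

/-- The cross sections of the base body, in the row of `z`, after the shift by `44100 b`. -/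
theorem mem_Bo {d x z : ℝ} {b : ℤ} (hb : b = ⌊z / 44100⌋) :
    (x, z - b * 44100) ∈ Bo d ↔
      (Int.fract z < 1 / 2 ∧ La ⌊z⌋ ∧ tooth (Aa ⌊z⌋) (cut d ⌊z⌋ - b * d) x) ∨
      (1 / 2 ≤ Int.fract z ∧ Lb ⌊z⌋ ∧ tooth (Ab ⌊z⌋) (cut d ⌊z⌋ - b * d) x) := by
  have e1 : z - b * 44100 = z - ((44100 * b : ℤ) : ℝ) := by push_cast; ring
  have e2 : Int.fract (z - b * 44100) = Int.fract z := by
    rw [e1, Int.fract_sub_intCast]
  have e3 : ⌊z - b * 44100⌋ = ⌊z⌋ - 44100 * b := by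
    rw [e1, Int.floor_sub_intCast]
  have e4 : cut d (⌊z⌋ - 44100 * b) = cut d ⌊z⌋ - b * d := by
    unfold cut
    push_cast
    field_simp
    ring
  have h1 : 0 ≤ z - b * 44100 := by
    have := Int.floor_le (z / 44100)
    rw [← hb, le_div_iff₀ (by norm_num)] at this
    linarith
  have h2 : z - b * 44100 < 44100 := by
    have := Int.lt_floor_add_one (z / 44100)
    rw [← hb, div_lt_iff₀ (by norm_num)] at this
    linarith
  unfold Bo
  simp only [Set.mem_ofPred_eq, e2, e3, e4, La_per, Lb_per, Aa_per, Ab_per, h1, h2, true_and]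

theorem Bo_range {d x z : ℝ} {b : ℤ} (h : (x, z - b * 44100) ∈ Bo d) : b = ⌊z / 44100⌋ := by
  obtain ⟨h1, h2, -⟩ := h
  dsimp only at h1 h2
  symm
  rw [Int.floor_eq_iff, le_div_iff₀ (by norm_num), div_lt_iff₀ (by norm_num)]
  constructor <;> linarith

theorem cut_bd' {d z : ℝ} (h0 : 0 ≤ d) (h1 : d ≤ 3 / 4) :
    0 ≤ cut d ⌊z⌋ - ⌊z / 44100⌋ * d ∧ cut d ⌊z⌋ - ⌊z / 44100⌋ * d ≤ 1 := by
  have e4 : cut d (⌊z⌋ - 44100 * ⌊z / 44100⌋) = cut d ⌊z⌋ - ⌊z / 44100⌋ * d := by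
    unfold cut
    push_cast
    field_simp
    ring
  rw [← e4]
  have e5 : ((44100 * ⌊z / 44100⌋ : ℤ) : ℝ) ≤ z := by
    have := Int.floor_le (z / 44100)
    rw [le_div_iff₀ (by norm_num)] at this
    push_cast
    linarith
  have e6 : z < ((44100 * ⌊z / 44100⌋ + 44100 : ℤ) : ℝ) := by
    have := Int.lt_floor_add_one (z / 44100)
    rw [div_lt_iff₀ (by norm_num)] at this
    push_cast
    linarith
  rw [← Int.le_floor] at e5
  rw [← Int.floor_lt] at e6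
  exact cut_bd h0 h1 (by omega) (by omega)

open Classical in
/-- Invariant under `(14, 0)`, `(0, 44100)`. -/
theorem line14 {d : ℝ} (h0 : 0 ≤ d) (h1 : d ≤ 3 / 4) {T : Set V} (hE : ECov (Bo d) T)
    (hF : LF T) (hx : ((14 : ℝ), (0 : ℝ)) ∈ stab T) (hy : ((0 : ℝ), (44100 : ℝ)) ∈ stab T) :
    ∃ (ι : Type) (_ : Fintype ι) (h : ι → ℝ), ∀ y : ℝ,
      (Finset.univ.filter fun i => Su (y - h i)).card = 14 := by
  refine line_count (S := Su) hE hF (P := 14) (by norm_num) (δ := 0) (g := 44100) (by norm_num)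
    (by exact_mod_cast hx) hy
    (E := fun z => if Int.fract z < 1 / 2 then (Aa ⌊z⌋ : ℝ) else (Ab ⌊z⌋ : ℝ)) ?_
  intro x z
  obtain ⟨c0, c1⟩ := cut_bd' (z := z) h0 h1
  have key : (∃ a b : ℤ, (x - a * ((14 : ℕ) : ℝ) - b * 0, z - b * 44100) ∈ Bo d) ↔
      ∃ a : ℤ, (Int.fract z < 1 / 2 ∧ La ⌊z⌋ ∧
          tooth (Aa ⌊z⌋) (cut d ⌊z⌋ - ⌊z / 44100⌋ * d) (x - a * 14)) ∨
        (1 / 2 ≤ Int.fract z ∧ Lb ⌊z⌋ ∧
          tooth (Ab ⌊z⌋) (cut d ⌊z⌋ - ⌊z / 44100⌋ * d) (x - a * 14)) := by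
    constructor
    · rintro ⟨a, b, hab⟩
      have hb := Bo_range hab
      refine ⟨a, ?_⟩
      rw [mem_Bo hb, hb] at hab
      simpa using hab
    · rintro ⟨a, hab⟩
      refine ⟨a, ⌊z / 44100⌋, ?_⟩
      rw [mem_Bo rfl]
      simpa using hab
  rw [key]
  by_cases hz : Int.fract z < 1 / 2
  · have hz' : ¬ (1 / 2 ≤ Int.fract z) := not_le.2 hz
    unfold Su
    simp only [hz, hz', true_and, false_and, or_false, if_true]
    rw [exists_and_left, tooth14 c0 c1]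
    push_cast
    rfl
  · have hz' : 1 / 2 ≤ Int.fract z := not_lt.1 hz
    unfold Su
    simp only [hz, hz', true_and, false_and, false_or, if_false]
    rw [exists_and_left, tooth14 c0 c1]
    push_cast
    rfl

open Classical in
/-- Invariant under `(15, 0)`, `(d, 44100)`. -/
theorem line15 {d : ℝ} (h0 : 0 ≤ d) (h1 : d ≤ 3 / 4) {T : Set V} (hE : ECov (Bo d) T)
    (hF : LF T) (hx : ((15 : ℝ), (0 : ℝ)) ∈ stab T) (hy : (d, (44100 : ℝ)) ∈ stab T) :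
    ∃ (ι : Type) (_ : Fintype ι) (h : ι → ℝ), ∀ y : ℝ,
      (Finset.univ.filter fun i => Su (y - h i)).card = 15 := by
  refine line_count (S := Su) hE hF (P := 15) (by norm_num) (δ := d) (g := 44100) (by norm_num)
    (by exact_mod_cast hx) hy
    (E := fun z => if Int.fract z < 1 / 2 then (Aa ⌊z⌋ : ℝ) + cut d ⌊z⌋ - 1
      else (Ab ⌊z⌋ : ℝ) + cut d ⌊z⌋ - 1) ?_
  intro x z
  obtain ⟨c0, c1⟩ := cut_bd' (z := z) h0 h1
  set b0 : ℤ := ⌊z / 44100⌋ with hb0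
  have key : (∃ a b : ℤ, (x - a * ((15 : ℕ) : ℝ) - b * d, z - b * 44100) ∈ Bo d) ↔
      ∃ a : ℤ, (Int.fract z < 1 / 2 ∧ La ⌊z⌋ ∧
          tooth (Aa ⌊z⌋) (cut d ⌊z⌋ - b0 * d) (x - b0 * d - a * 15)) ∨
        (1 / 2 ≤ Int.fract z ∧ Lb ⌊z⌋ ∧
          tooth (Ab ⌊z⌋) (cut d ⌊z⌋ - b0 * d) (x - b0 * d - a * 15)) := by
    have e : ∀ a : ℤ, x - a * ((15 : ℕ) : ℝ) - b0 * d = x - b0 * d - a * 15 := by
      intro a; push_cast; ring
    constructor
    · rintro ⟨a, b, hab⟩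
      have hb := Bo_range hab
      rw [← hb0] at hb
      subst hb
      refine ⟨a, ?_⟩
      rw [mem_Bo hb0, e] at hab
      exact hab
    · rintro ⟨a, hab⟩
      refine ⟨a, b0, ?_⟩
      rw [mem_Bo hb0, e]
      exact hab
  rw [key]
  have e2 : ∀ (A : ℤ), (∃ a : ℤ, (A : ℝ) + (cut d ⌊z⌋ - b0 * d) - 1 + a * 15 ≤ x - b0 * d ∧
      x - b0 * d < A + (cut d ⌊z⌋ - b0 * d) - 1 + a * 15 + 1) ↔
      ∃ a : ℤ, (A : ℝ) + cut d ⌊z⌋ - 1 + a * ((15 : ℕ) : ℝ) ≤ x ∧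
        x < A + cut d ⌊z⌋ - 1 + a * ((15 : ℕ) : ℝ) + 1 := by
    intro A
    apply exists_congr
    intro a
    push_cast
    constructor
    · rintro ⟨h2, h3⟩
      constructor <;> linarith
    · rintro ⟨h2, h3⟩
      constructor <;> linarith
  by_cases hz : Int.fract z < 1 / 2
  · have hz' : ¬ (1 / 2 ≤ Int.fract z) := not_le.2 hz
    unfold Su
    simp only [hz, hz', true_and, false_and, or_false, if_true]
    rw [exists_and_left, tooth15 c0 c1, e2]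
  · have hz' : 1 / 2 ≤ Int.fract z := not_lt.1 hz
    unfold Su
    simp only [hz, hz', true_and, false_and, false_or, if_false]
    rw [exists_and_left, tooth15 c0 c1, e2]

end Pool.Agent.CEXD
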