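import Pool.Agent.PTR.Closed
import Pool.Agent.PSQ.Defs

/-!
# CEX: periodic sets, the quotient by the lattice of periods
-/

set_option autoImplicit false

namespace Pool.Agent.CEX

open Pool.Agent.PTR.OL (V)
open Pool.Agent

/-- Locally finite. -/
def LF (T : Set V) : Prop := ∀ R : ℝ, {t | t ∈ T ∧ ‖t‖ ≤ R}.Finite

/-- The group generated by `u` and `v`. -/
def lat (u v : V) : AddSubgroup V := AddSubgroup.closure {u, v}

theorem mem_lat {u v x : V} : x ∈ lat u v ↔ ∃ m n : ℤ, (m : ℤ) • u + (n : ℤ) • v = x :=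
  AddSubgroup.mem_closure_pair

theorem mem_tr {T : Set V} {u x : V} : x ∈ PSQ.tr T u ↔ x - u ∈ T := by
  unfold PSQ.tr
  constructor
  · rintro ⟨w, hw, rfl⟩
    change w + u - u ∈ T
    rwa [add_sub_cancel_right]
  · intro h
    exact ⟨x - u, h, sub_add_cancel _ _⟩

/-- The stabiliser of a set. -/
def stab (T : Set V) : AddSubgroup V where
  carrier := {a | ∀ x, x + a ∈ T ↔ x ∈ T}
  zero_mem' := by intro x; rw [add_zero]
  add_mem' := by
    intro a b ha hb x
    rw [← add_assoc]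
    exact (hb (x + a)).trans (ha x)
  neg_mem' := by
    intro a ha x
    have := ha (x + -a)
    rw [neg_add_cancel_right] at this
    exact this.symm

theorem mem_stab {T : Set V} {a : V} : a ∈ stab T ↔ ∀ x, x + a ∈ T ↔ x ∈ T := Iff.rfl

theorem stab_of_tr {T : Set V} {u : V} (h : PSQ.tr T u = T) : u ∈ stab T := by
  intro x
  constructor
  · intro hx
    rw [← h, mem_tr] at hx
    rwa [add_sub_cancel_right] at hx
  · intro hx
    rw [← h, mem_tr]
    rwa [add_sub_cancel_right]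

theorem tr_of_stab {T : Set V} {u : V} (h : u ∈ stab T) : PSQ.tr T u = T := by
  ext x
  rw [mem_tr]
  have := h (x - u)
  rw [sub_add_cancel] at this
  exact this.symm

theorem lat_le {T : Set V} {u v : V} (hu : PSQ.tr T u = T) (hv : PSQ.tr T v = T) :
    lat u v ≤ stab T := by
  unfold lat
  rw [AddSubgroup.closure_le]
  rintro x (rfl | rfl)
  · exact stab_of_tr hu
  · exact stab_of_tr hv

/-- Every vector is close to the lattice. -/
theorem near {u v : V} (h : LinearIndependent ℝ ![u, v]) (x : V) :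
    ∃ l ∈ lat u v, ‖x - l‖ ≤ ‖u‖ + ‖v‖ := by
  have hd : Module.finrank ℝ V = 2 := by
    simp [V]
  have hsp : Submodule.span ℝ (Set.range ![u, v]) = ⊤ :=
    h.span_eq_top_of_card_eq_finrank' (by simp [hd])
  have hx : x ∈ Submodule.span ℝ (Set.range ![u, v]) := by rw [hsp]; trivial
  rw [Matrix.range_cons, Matrix.range_cons, Matrix.range_empty, Set.union_empty,
    Set.singleton_union, Submodule.mem_span_pair] at hx
  obtain ⟨a, b, hab⟩ := hx
  refine ⟨(⌊a⌋ : ℤ) • u + (⌊b⌋ : ℤ) • v, mem_lat.2 ⟨_, _, rfl⟩, ?_⟩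
  have h1 : x - ((⌊a⌋ : ℤ) • u + (⌊b⌋ : ℤ) • v) = Int.fract a • u + Int.fract b • v := by
    rw [← hab, ← Int.cast_smul_eq_zsmul ℝ, ← Int.cast_smul_eq_zsmul ℝ, Int.fract, Int.fract,
      sub_smul, sub_smul]
    abel
  rw [h1]
  refine (norm_add_le _ _).trans (add_le_add ?_ ?_)
  · rw [norm_smul, Real.norm_eq_abs, abs_of_nonneg (Int.fract_nonneg a)]
    exact mul_le_of_le_one_left (norm_nonneg _) (Int.fract_lt_one a).le
  · rw [norm_smul, Real.norm_eq_abs, abs_of_nonneg (Int.fract_nonneg b)]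
    exact mul_le_of_le_one_left (norm_nonneg _) (Int.fract_lt_one b).le

/-- The image of a periodic set in the quotient is finite. -/
theorem fin_quot {T : Set V} (hF : LF T) {u v : V} (hl : LinearIndependent ℝ ![u, v])
    (hu : PSQ.tr T u = T) (hv : PSQ.tr T v = T) :
    ((fun x : V => (x : V ⧸ lat u v)) '' T).Finite := by
  refine ((hF (‖u‖ + ‖v‖)).image (fun x : V => (x : V ⧸ lat u v))).subset ?_
  rintro _ ⟨x, hx, rfl⟩
  obtain ⟨l, hl1, hl2⟩ := near hl x
  refine ⟨x - l, ⟨?_, hl2⟩, ?_⟩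
  · have := lat_le hu hv (neg_mem hl1) x
    rw [← sub_eq_add_neg] at this
    exact this.2 hx
  · change ((x - l : V) : V ⧸ lat u v) = (x : V ⧸ lat u v)
    rw [QuotientAddGroup.eq]
    rw [neg_sub, sub_add_cancel]
    exact hl1

theorem mem_quot {T : Set V} {u v : V} (hu : PSQ.tr T u = T) (hv : PSQ.tr T v = T) {x : V} :
    (x : V ⧸ lat u v) ∈ (fun x : V => (x : V ⧸ lat u v)) '' T ↔ x ∈ T := by
  constructor
  · rintro ⟨y, hy, hxy⟩
    change (y : V ⧸ lat u v) = (x : V ⧸ lat u v) at hxy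
    rw [QuotientAddGroup.eq] at hxy
    have := lat_le hu hv hxy y
    rw [add_neg_cancel_left] at this
    exact this.2 hy
  · intro hx
    exact ⟨x, hx, rfl⟩

/-- **N2.** The counting argument modulo the periods. -/
theorem N2 {T : Set V} (hF : LF T) (hp : PSQ.Periodic T) {al be : V}
    (d1 : ∀ x, x - al ∈ T → x - be ∈ T → False)
    (h1 : ∀ t ∈ T, t + al ∈ T ∨ t - be ∈ T) (h2 : ∀ t ∈ T, t + be ∈ T ∨ t - al ∈ T) :
    (∀ x, (x ∈ T ∨ x - al - be ∈ T) ↔ (x - al ∈ T ∨ x - be ∈ T)) ∧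
      ∀ x, x ∈ T → x - al - be ∈ T → False := by
  classical
  obtain ⟨u, v, hl, hu, hv⟩ := hp
  set π : V → V ⧸ lat u v := fun x => (x : V ⧸ lat u v) with hπ
  have hfin := fin_quot hF hl hu hv
  set Q : Finset (V ⧸ lat u v) := hfin.toFinset with hQ
  have hm : ∀ x : V, (x : V ⧸ lat u v) ∈ Q ↔ x ∈ T := by
    intro x
    rw [hQ, Set.Finite.mem_toFinset]
    exact mem_quot hu hv
  have hsurj : ∀ q : V ⧸ lat u v, ∃ x : V, (x : V ⧸ lat u v) = q :=
    fun q => QuotientAddGroup.mk_surjective q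
  set sh : V → Finset (V ⧸ lat u v) := fun a =>
    Q.image (fun q => q + ((a : V) : V ⧸ lat u v)) with hsh
  have hms : ∀ a x : V, (x : V ⧸ lat u v) ∈ sh a ↔ x - a ∈ T := by
    intro a x
    rw [hsh, ← hm]
    simp only [Finset.mem_image]
    constructor
    · rintro ⟨q, hq, hqx⟩
      have : ((x - a : V) : V ⧸ lat u v) = q := by
        rw [QuotientAddGroup.mk_sub, ← hqx, add_sub_cancel_right]
      rwa [this]
    · intro hq
      refine ⟨_, hq, ?_⟩
      rw [QuotientAddGroup.mk_sub, sub_add_cancel]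
  have hcard : ∀ a : V, (sh a).card = Q.card := by
    intro a
    rw [hsh]
    exact Finset.card_image_of_injective _ (add_left_injective _)
  have hdis : Disjoint (sh al) (sh be) := by
    rw [Finset.disjoint_left]
    intro q hq1 hq2
    obtain ⟨x, rfl⟩ := hsurj q
    exact d1 x ((hms _ _).1 hq1) ((hms _ _).1 hq2)
  have hsub : sh al ∪ sh be ⊆ Q ∪ sh (al + be) := by
    intro q hq
    obtain ⟨x, rfl⟩ := hsurj q
    rw [Finset.mem_union, hms, hms] at hq
    rw [Finset.mem_union, hms, hm]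
    rcases hq with hq | hq
    · rcases h1 _ hq with h | h
      · left; rwa [sub_add_cancel] at h
      · right; rwa [sub_sub] at h
    · rcases h2 _ hq with h | h
      · left; rwa [sub_add_cancel] at h
      · right; rwa [sub_sub, add_comm] at h
  have hc1 : (sh al ∪ sh be).card = Q.card + Q.card := by
    rw [Finset.card_union_of_disjoint hdis, hcard, hcard]
  have hc2 : (Q ∪ sh (al + be)).card ≤ Q.card + Q.card := by
    refine (Finset.card_union_le _ _).trans ?_
    rw [hcard]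
  have heq : sh al ∪ sh be = Q ∪ sh (al + be) :=
    Finset.eq_of_subset_of_card_le hsub (hc2.trans hc1.ge)
  have hdis2 : Disjoint Q (sh (al + be)) := by
    rw [← Finset.card_union_eq_card_add_card, ← heq, hc1, hcard]
  constructor
  · intro x
    have : (x : V ⧸ lat u v) ∈ Q ∪ sh (al + be) ↔ (x : V ⧸ lat u v) ∈ sh al ∪ sh be := by
      rw [heq]
    rw [Finset.mem_union, Finset.mem_union, hm, hms, hms, hms] at this
    rw [sub_sub]
    exact this
  · intro x hx hx2
    rw [sub_sub] at hx2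
    exact Finset.disjoint_left.1 hdis2 ((hm x).2 hx) ((hms _ _).2 hx2)

/-- Some multiple of `a` is a period. -/
theorem per_mul {T : Set V} (hF : LF T) {u v : V} (hl : LinearIndependent ℝ ![u, v])
    (hu : PSQ.tr T u = T) (hv : PSQ.tr T v = T) {t a : V} (h : ∀ n : ℕ, t + (n : ℤ) • a ∈ T) :
    ∃ n : ℤ, 0 < n ∧ n • a ∈ lat u v := by
  have hfin := fin_quot hF hl hu hv
  obtain ⟨m, -, n, -, hmn, he⟩ := Set.infinite_univ.exists_ne_map_eq_of_mapsTo
    (f := fun n : ℕ => ((t + (n : ℤ) • a : V) : V ⧸ lat u v)) (s := Set.univ)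
    (t := (fun x : V => (x : V ⧸ lat u v)) '' T) (fun n _ => ⟨_, h n, rfl⟩) hfin
  change ((t + (m : ℤ) • a : V) : V ⧸ lat u v) = ((t + (n : ℤ) • a : V) : V ⧸ lat u v) at he
  rw [QuotientAddGroup.eq] at he
  have e1 : -(t + (m : ℤ) • a) + (t + (n : ℤ) • a) = ((n : ℤ) - (m : ℤ)) • a := by
    rw [sub_smul]; abel
  rw [e1] at he
  rcases lt_or_gt_of_ne hmn with hlt | hlt
  · exact ⟨(n : ℤ) - (m : ℤ), by omega, he⟩
  · refine ⟨(m : ℤ) - (n : ℤ), by omega, ?_⟩
    rw [← neg_sub, neg_smul]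
    exact neg_mem he

/-- Two parallel vectors of a lattice are commensurable. -/
theorem comm_lat {u v : V} (hl : LinearIndependent ℝ ![u, v]) {r s : ℝ} (hr : r ≠ 0)
    (h1 : ((r, 0) : V) ∈ lat u v) (h2 : ((s, 0) : V) ∈ lat u v) : ∃ q : ℚ, s / r = q := by
  obtain ⟨a, b, hab⟩ := mem_lat.1 h1
  obtain ⟨c, d, hcd⟩ := mem_lat.1 h2
  have hlin : ∀ x y : ℝ, x • u + y • v = 0 → x = 0 ∧ y = 0 := by
    intro x y hxy
    exact LinearIndependent.pair_iff.1 hl x y hxy
  have e1 : ((s * a - r * c : ℝ)) • u + ((s * b - r * d : ℝ)) • v = 0 := by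
    have e2 : s • ((r, 0) : V) = r • ((s, 0) : V) := by
      ext
      · simp [mul_comm]
      · simp
    rw [← hab, ← hcd, ← Int.cast_smul_eq_zsmul ℝ, ← Int.cast_smul_eq_zsmul ℝ,
      ← Int.cast_smul_eq_zsmul ℝ, ← Int.cast_smul_eq_zsmul ℝ, smul_add, smul_add, smul_smul,
      smul_smul, smul_smul, smul_smul] at e2
    rw [sub_smul, sub_smul]
    have e3 := sub_eq_zero.2 e2
    rw [← e3]
    abel
  obtain ⟨e3, e4⟩ := hlin _ _ e1
  by_cases ha : a = 0
  · by_cases hb : b = 0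
    · exfalso
      rw [ha, hb, zero_smul, zero_smul, add_zero] at hab
      exact hr (congrArg Prod.fst hab).symm
    · refine ⟨(d : ℚ) / (b : ℚ), ?_⟩
      have hb' : (b : ℝ) ≠ 0 := by exact_mod_cast hb
      push_cast
      rw [div_eq_div_iff hr hb']
      linarith
  · refine ⟨(c : ℚ) / (a : ℚ), ?_⟩
    have ha' : (a : ℝ) ≠ 0 := by exact_mod_cast ha
    push_cast
    rw [div_eq_div_iff hr ha']
    linarith

/-- **N4.** The two strands cannot have common periods. -/
theorem N4 {T : Set V} (hF : LF T) (hp : PSQ.Periodic T) {p d g : ℝ} (hp0 : p ≠ 0)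
    {t0 t1 : V} (h0 : ∀ n : ℕ, t0 + (n : ℤ) • ((p, 0) : V) ∈ T)
    (h0' : ∀ n : ℕ, t0 + (n : ℤ) • ((0, g) : V) ∈ T)
    (h1 : ∀ n : ℕ, t1 + (n : ℤ) • ((d, g) : V) ∈ T) : ∃ q : ℚ, d / p = q := by
  obtain ⟨u, v, hl, hu, hv⟩ := hp
  obtain ⟨k, hk, hk'⟩ := per_mul hF hl hu hv h0
  obtain ⟨l, hl0, hl'⟩ := per_mul hF hl hu hv h0'
  obtain ⟨m, hm, hm'⟩ := per_mul hF hl hu hv h1
  have a1 : ((((k * (l * m) : ℤ) : ℝ) * p, 0) : V) ∈ lat u v := by
    have := AddSubgroup.zsmul_mem _ hk' (l * m)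
    rw [smul_smul] at this
    convert this using 1
    ext
    · simp only [Prod.smul_mk, zsmul_eq_mul]
      push_cast
      ring
    · simp
  have a2 : ((((k * (l * m) : ℤ) : ℝ) * d, 0) : V) ∈ lat u v := by
    have e1 := AddSubgroup.zsmul_mem _ hl' (k * m)
    have e2 := AddSubgroup.zsmul_mem _ hm' (k * l)
    have := sub_mem e2 e1
    rw [smul_smul, smul_smul] at this
    convert this using 1
    ext
    · simp only [Prod.smul_mk, Prod.fst_sub, zsmul_eq_mul]
      push_cast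
      ring
    · simp only [Prod.smul_mk, Prod.snd_sub, zsmul_eq_mul]
      push_cast
      ring
  have hN : (((k * (l * m) : ℤ) : ℝ)) ≠ 0 := by
    have : k * (l * m) ≠ 0 := by positivity
    exact_mod_cast this
  obtain ⟨q, hq⟩ := comm_lat hl (mul_ne_zero hN hp0) a1 a2
  refine ⟨q, ?_⟩
  rw [← hq]
  field_simp

end Pool.Agent.CEX
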